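import Pool.Agent.Lib.MP_d439b2_co.L4.Spec1

/-!
# MP_d439b2_co, pair `(C_4, K3:0,1,02)`: the pure chain theorem (note 2630)

`H1 = KA 3 3 ![{0}, {1}, {0, 2}]`: triangle `0,1,2`, `x ~ 0`, `y ~ 1`, `z ~ 0,2`.

Every `S_...` is a statement to be proved in its own file; the docstring contains the complete
proof.  `a ~ b` means `G.Adj a b`, `a ≁ b` the contrary.  `|A|` is `A.ncard`.  The tasks are independent: the
statements that are used are hypotheses of the theorem.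
-/

set_option autoImplicit false

namespace Pool.Agent.MPd439b2.H1P

open Pool.Agent.MPd439b2 Pool.Agent.MPd439b2.LK

/-- chordal graphs without the induced minor `K3:0,1,02` -/
def Cl1 {V : Type} (G : SimpleGraph V) : Prop :=
  Chd G ∧ ¬ IMS (KA 3 3 ![{0}, {1}, {0, 2}]) G Set.univ

/-- `S` is `q`-linked -/
def Lnk {V : Type} (G : SimpleGraph V) (q : ℕ) (S : Set V) : Prop :=
  ∀ X : Set V, min (S ∩ X).ncard (S \ X).ncard ≤ q * cr G X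

/-- `J` is independent relative to `S₀` -/
def Ind {V : Type} (G : SimpleGraph V) (S₀ J : Set V) : Prop :=
  ∀ X : Set V, S₀ ⊆ X → (J \ X).ncard ≤ cr G X

/-- the elements of `J` have pairwise different traces on `P` -/
def Dst {V : Type} (G : SimpleGraph V) (P J : Set V) : Prop :=
  ∀ a ∈ J, ∀ b ∈ J, a ≠ b → ∃ p ∈ P, ¬ (G.Adj p a ↔ G.Adj p b)

/-- the set of the traces of the elements of `A` on `P` -/
def Trc {V : Type} (G : SimpleGraph V) (P A : Set V) : Set (Set V) :=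
  {T | ∃ a ∈ A, T = {p | p ∈ P ∧ G.Adj a p}}

/-- type (M): every vertex outside `S` misses nothing, everything or exactly one element of `S` -/
def TyM {V : Type} (G : SimpleGraph V) (S : Set V) : Prop :=
  ∀ v, v ∉ S → Ms G S v = ∅ ∨ Ms G S v = S ∨ ∃ a ∈ S, Ms G S v = {a}

/-- type pure chain: every vertex outside `S = {s 0, ..., s (m-1)}` misses an initial segment -/
def TyP {V : Type} (G : SimpleGraph V) (S : Set V) (m : ℕ) (s : ℕ → V) : Prop :=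
  Set.InjOn s (Set.Iio m) ∧ S = s '' Set.Iio m ∧ ∀ v, v ∉ S → ∃ a ≤ m, Ms G S v = s '' Set.Iio a

/-- REDUCTION (regularization, types CM and CH + singletons excluded; helper85, helper88): every huge linked
clique contains a subset of size `m` of type (M) or pure chain. -/
def S_Red : Prop := ∀ q m : ℕ, ∃ N : ℕ, ∀ (V : Type) [Finite V] (G : SimpleGraph V) (S : Set V), Cl1 G →
  CompleteOn G S → Lnk G q S → N ≤ S.ncard →
    ∃ S' ⊆ S, S'.ncard = m ∧ (TyM G S' ∨ ∃ s : ℕ → V, TyP G S' m s)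

/-- a pure chain with levels `l`, all levels `1, ..., n-1` occur -/
structure PC {V : Type} (G : SimpleGraph V) (S : Set V) (n : ℕ) (s : ℕ → V) (l : V → ℕ) : Prop where
  inj : Set.InjOn s (Set.Iio n)
  img : S = s '' Set.Iio n
  clq : CompleteOn G S
  le : ∀ v, v ∉ S → l v ≤ n
  adj : ∀ v, v ∉ S → ∀ j, j < n → (G.Adj v (s j) ↔ l v ≤ j)
  full : ∀ a, 1 ≤ a → a < n → ∃ v, v ∉ S ∧ l v = a

/-- the vertices of level at least `a` -/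
def Wa {V : Type} (S : Set V) (l : V → ℕ) (a : ℕ) : Set V := {v | v ∉ S ∧ a ≤ l v}

/-! ### Linked sets -/

/-- **L1.** Bad cliques contain linked sets.  (Uses `S_A2`.)

Proof. Call `X` small if `|S ∩ X| ≤ 2 c`.  Subsets of small sets are small.  Call `B` good if `B ⊆ S`, `|B| ≤ c + 1` and
`|B ∩ X| ≤ cr G X` for all small `X`.  `∅` is good; let `B` be good of maximal size.
CLAIM `|B| = c + 1`.  Suppose `|B| ≤ c`.  Call a small `X` tight if `cr G X = |B ∩ X|`.  `∅` is tight.  If `X, Y` are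
tight so is `X ∪ Y`: `X ∩ Y` is small, so `cr G (X ∪ Y) ≤ cr G X + cr G Y - cr G (X ∩ Y) ≤
|B ∩ X| + |B ∩ Y| - |B ∩ (X ∩ Y)| = |B ∩ (X ∪ Y)| ≤ c`; `X ∪ Y` is small, otherwise `|S \ (X ∪ Y)| ≤ 2 c` by
hypothesis and `|S| ≤ 6 c`; hence `|B ∩ (X ∪ Y)| ≤ cr G (X ∪ Y)`.  Every `e ∈ S` is in a tight set: for `e ∈ B` the set
`{e}` (`c ≥ 1` since `1 ≤ |B| ≤ c`, so `{e}` is small; `1 = |B ∩ {e}| ≤ cr G {e} ≤ 1`); for `e ∉ B` the set `insert e B`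
is not good, so there is a small `X` with `|insert e B ∩ X| > cr G X ≥ |B ∩ X|`, hence `e ∈ X` and `X` is tight.  So a
finite union `Z` of tight sets contains `S` (finite induction), `Z` is tight, hence small: `|S| = |S ∩ Z| ≤ 2 c`,
contradiction.
Linked: if `c + 1 ≤ cr G X` clear (`min ≤ |B|`).  Otherwise `cr G X ≤ c` and `X` is small (`|B ∩ X| ≤ cr G X`) or `Xᶜ` is
small (`cr G Xᶜ = cr G X`, `|B ∩ Xᶜ| = |B \ X| ≤ cr G X`). -/
def S_L1 : Prop := ∀ (V : Type) [Finite V] (G : SimpleGraph V) (S : Set V) (c : ℕ), 6 * c < S.ncard →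
  (∀ X, cr G X ≤ c → (S ∩ X).ncard ≤ 2 * c ∨ (S \ X).ncard ≤ 2 * c) →
    ∃ B ⊆ S, B.ncard = c + 1 ∧ Lnk G 1 B

/-- **L2.** Relatively independent sets are linked.  (Uses `S_A2`.)

Proof. (0) `cr G (X ∪ T) ≤ cr G X + |T \ X|` (submodularity with `{t}`, `cr G {t} ≤ 1`, induction; or A1).
Let `X` be a set.  `|S₀ ∩ X| ≤ q * cr G X` or `|S₀ \ X| ≤ q * cr G X`.  Second case: `X' = X ∪ S₀`,
`|J \ X| = |J \ X'| ≤ cr G X' ≤ cr G X + |S₀ \ X| ≤ (q + 1) * cr G X` (`J`, `S₀` disjoint).  First case: the same with `Xᶜ`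
(`cr G Xᶜ = cr G X`, `J \ Xᶜ = J ∩ X`). -/
def S_L2 : Prop := ∀ (V : Type) [Finite V] (G : SimpleGraph V) (S₀ J : Set V) (q : ℕ), Disjoint S₀ J →
  Lnk G q S₀ → Ind G S₀ J → Lnk G (q + 1) J

/-- **L3.** Maximal rainbow sets.  (Uses `S_A2`.)

Proof. `∅` is independent and distinct.  Let `J ⊆ A` be of maximal size such that `Ind G S₀ J`, `Dst G P J`, `Dst G Q J`.
All three properties pass to subsets, so if `m ≤ |J|` we are in the first case.  Let `|J| < m`.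
`A₁ = {a ∈ A | some j ∈ J has the same trace on P}`, `A₂` the same for `Q`; the number of traces is at most `|J|`.
Call `X` tight if `S₀ ⊆ X` and `cr G X = |J \ X|`.  `univ` is tight (`cr G univ = 0`).  `X, Y` tight implies `X ∩ Y` tight:
`cr G (X ∩ Y) ≤ cr G X + cr G Y - cr G (X ∪ Y) ≤ |J \ X| + |J \ Y| - |J \ (X ∪ Y)| = |J \ (X ∩ Y)|` (`Ind` for `X ∪ Y`) and
`≥` by `Ind`.  Let `X₀` be the intersection of all tight sets (finitely many), it is tight; or let `X₀` be a tight set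
of minimal size, it is contained in every tight set.  `cr G X₀ = |J \ X₀| ≤ m`.  Let `a ∈ A ∩ X₀`, suppose that
`a ∉ A₁ ∪ A₂`.  Then `a ∉ J` and `insert a J` is distinct for `P` and for `Q`; by maximality it is not independent:
there is `X ⊇ S₀` with `|insert a J \ X| > cr G X ≥ |J \ X|`; so `a ∉ X` and `X` is tight, `X₀ ⊆ X`: contradiction. -/
def S_L3 : Prop := ∀ (V : Type) [Finite V] (G : SimpleGraph V) (S₀ P Q A : Set V) (m : ℕ),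
  (∃ J ⊆ A, J.ncard = m ∧ Ind G S₀ J ∧ Dst G P J ∧ Dst G Q J) ∨
    ∃ X₀ A₁ A₂ : Set V, S₀ ⊆ X₀ ∧ cr G X₀ ≤ m ∧ A₁ ⊆ A ∧ A₂ ⊆ A ∧ A ∩ X₀ ⊆ A₁ ∪ A₂ ∧
      (Trc G P A₁).ncard ≤ m ∧ (Trc G Q A₂).ncard ≤ m

/-- **L4.** A rank.  (Uses `S_A1`.)

Proof. `rk G (P ∪ B ∪ A₂) (Q ∪ A₁) ≤ rk G P (Q ∪ A₁) + rk G B (Q ∪ A₁) + rk G A₂ (Q ∪ A₁)`.
`rk G P (Q ∪ A₁) = rk G (Q ∪ A₁) P ≤ rk G Q P + rk G A₁ P ≤ 0 + m` (the rows of `Q` are zero on `P`: A1 (6) with the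
empty family; A1 (6) with `Trc G P A₁`).  `rk G B (Q ∪ A₁) ≤ 1` (A1 (5), `T = univ`).
`rk G A₂ (Q ∪ A₁) = rk G (Q ∪ A₁) A₂ ≤ rk G Q A₂ + rk G A₁ A₂ = rk G A₂ Q + rk G A₁ A₂ ≤ m + 1`. -/
def S_L4 : Prop := ∀ (V : Type) [Finite V] (G : SimpleGraph V) (P B Q A₁ A₂ : Set V) (m : ℕ),
  (∀ p ∈ P, ∀ x ∈ Q, ¬ G.Adj p x) → (∀ b ∈ B, ∀ x ∈ Q ∪ A₁, G.Adj b x) →
    (∀ a ∈ A₂, ∀ x ∈ A₁, G.Adj a x) → (Trc G P A₁).ncard ≤ m → (Trc G Q A₂).ncard ≤ m →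
      rk G (P ∪ B ∪ A₂) (Q ∪ A₁) ≤ 2 * m + 2

/-- **L5.** The rainbow theorem.  (Uses `S_A1`, `S_L3`, `S_L4`.)

Proof. L3; let `X₀, A₁, A₂` be as in the second case, `Y = Q ∪ A₁`.  `X₀ \ Y ⊆ P ∪ B ∪ (A₂ \ A₁)`.
`(X₀ ∩ Y)ᶜ = X₀ᶜ ∪ (X₀ \ Y)`, so `cr G (X₀ ∩ Y) ≤ rk G X₀ X₀ᶜ + rk G (X₀ ∩ Y) (X₀ \ Y) ≤ m + rk G Y (P ∪ B ∪ (A₂ \ A₁)) ≤
m + 2 m + 2` (A1 (1), (2), (3), L4).  The same for `X₀ \ Y`: `(X₀ \ Y)ᶜ = X₀ᶜ ∪ (X₀ ∩ Y)`. -/
def S_L5 : Prop := ∀ (V : Type) [Finite V] (G : SimpleGraph V) (S₀ P B Q A : Set V) (m : ℕ),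
  P ∪ B ∪ Q ∪ A = Set.univ → (∀ p ∈ P, ∀ x ∈ Q, ¬ G.Adj p x) → (∀ b ∈ B, ∀ x ∈ Q ∪ A, G.Adj b x) →
    CompleteOn G A → (∃ J ⊆ A, J.ncard = m ∧ Ind G S₀ J ∧ Dst G P J ∧ Dst G Q J) ∨
      ∃ X₀ A₁ : Set V, S₀ ⊆ X₀ ∧ A₁ ⊆ A ∧ (Trc G P A₁).ncard ≤ m ∧
        cr G (X₀ ∩ (Q ∪ A₁)) ≤ 3 * m + 2 ∧ cr G (X₀ \ (Q ∪ A₁)) ≤ 3 * m + 2

/-! ### Models of `H1` -/

/-- **Mod.** Model of `H1`: `0 = {a}`, `1 = P`, `2 = {c}`, `x`, `y`, `z = Z`.

Proof. The map `Sum.elim ![{a}, P, {c}] ![{x}, {y}, Z]`.  Different vertices: `a ≠ c`, `x ≠ a` (adjacent), `x ≠ c` (`c`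
touches `P`, `x` does not), `x ≠ y` (`y` touches `P`), `y ≠ a` (`a ~ c`), `y ≠ c` (`c ~ a`). -/
def S_Mod : Prop := ∀ (V : Type) (G : SimpleGraph V) (P Z : Set V) (a c x y : V), Conn G P → Conn G Z →
  Disjoint P Z → a ∉ P → c ∉ P → x ∉ P → y ∉ P → a ∉ Z → c ∉ Z → x ∉ Z → y ∉ Z →
  G.Adj a c → (∃ p ∈ P, G.Adj p a) → (∃ p ∈ P, G.Adj p c) → G.Adj x a → (∃ p ∈ P, G.Adj p y) →
  (∃ z ∈ Z, G.Adj z a) → (∃ z ∈ Z, G.Adj z c) → (∀ p ∈ P, ∀ z ∈ Z, ¬ G.Adj p z) →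
  ¬ G.Adj x c → (∀ p ∈ P, ¬ G.Adj p x) → (∀ z ∈ Z, ¬ G.Adj z x) → ¬ G.Adj x y → ¬ G.Adj y a →
  ¬ G.Adj y c → (∀ z ∈ Z, ¬ G.Adj z y) → IMS (KA 3 3 ![{0}, {1}, {0, 2}]) G Set.univ

/-- **Md1.** Model of `H1` by vertices.  (Uses `S_Mod`.)

Proof. `S_Mod` with `P = {b}`, `Z = {z}`.  Different vertices: `x ≠ b` (`b ~ c`, `x ≁ c`), `y ≠ b`, `z ≠ a`, `z ≠ c`
(adjacent), `z ≠ b` (`b ~ y`, `z ≁ y`), `x ≠ z` (`z ~ c`), `y ≠ z` (`z ~ a`). -/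
def S_Md1 : Prop := ∀ (V : Type) (G : SimpleGraph V) (a b c x y z : V), G.Adj a b → G.Adj a c →
  G.Adj b c → G.Adj x a → G.Adj y b → G.Adj z a → G.Adj z c → ¬ G.Adj z b → ¬ G.Adj x b → ¬ G.Adj x c →
  ¬ G.Adj x y → ¬ G.Adj x z → ¬ G.Adj y a → ¬ G.Adj y c → ¬ G.Adj y z →
    IMS (KA 3 3 ![{0}, {1}, {0, 2}]) G Set.univ

/-- **D4.** The last step of all chains.  (Uses `S_Md1`.)

Proof. `S_Md1` with `a = g4`, `b = u2`, `c = g3`, `x = w3`, `y = u4`, `z = g1`. -/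
def S_D4 : Prop := ∀ (V : Type) (G : SimpleGraph V) (g1 g3 g4 u2 u4 w3 : V), Cl1 G → G.Adj g1 g3 →
  G.Adj g1 g4 → G.Adj g3 g4 → ¬ G.Adj u2 g1 → G.Adj u2 g3 → G.Adj u2 g4 → ¬ G.Adj u4 g1 →
  ¬ G.Adj u4 g3 → ¬ G.Adj u4 g4 → ¬ G.Adj w3 g1 → ¬ G.Adj w3 g3 → G.Adj w3 g4 → G.Adj u2 u4 →
  ¬ G.Adj w3 u2 → ¬ G.Adj w3 u4 → False

/-- **Nest.** Distinct on `E` implies nested outside.  (Uses `S_A0`, `S_Mod`.)

Proof. `Y = {p ∈ E | p ~ g'}` (nonempty), `e ∈ E \ Y`, `Z` the component of `e` in `G[E \ Y]` (`exists_comp`).  `Z ≠ E`, `E` is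
connected: there is `p ∈ E \ Z` adjacent to `Z`; `p ∈ Y` (otherwise `p ∈ E \ Y` would be in `nb G Z`).  `p ~ g`:
otherwise `{g}, {g'}, {p}, Z` is a four-cycle (S_A0: `g ~ g'`, `g' ~ p`, `p` touches `Z`, `e ~ g`; `g'` does not touch `Z`).
`w ≁ w'`: otherwise `{g}, {w}, {w'}, {g'}` is a four-cycle.  `S_Mod` with `a = g`, `P = {g'}`, `c = p`, `x = w`, `y = w'`, `Z`. -/
def S_Nest : Prop := ∀ (V : Type) [Finite V] (G : SimpleGraph V) (E : Set V) (g g' w w' e : V), Cl1 G →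
  Conn G E → g ∉ E → g' ∉ E → G.Adj g g' → e ∈ E → G.Adj e g → ¬ G.Adj e g' →
  (∃ e' ∈ E, G.Adj e' g') → w ∉ E → (∀ x ∈ E, ¬ G.Adj x w) → w' ∉ E → (∀ x ∈ E, ¬ G.Adj x w') →
  G.Adj w g → ¬ G.Adj w g' → G.Adj w' g' → ¬ G.Adj w' g → False

/-! ### Step A: components with many levels -/

/-- **AP.** (Uses `S_Mod`, `S_D4`.)

Proof. `e_i`, `x_i` as in the hypotheses (`i = 1, ..., 5`).  CLAIM `x_2 ~ x_4`.  Otherwise let
`Y = {e ∈ E | e ≁ g 4}`; `e_5 ∈ Y`, `e_1 ∈ E \ Y`; `P` = component of `e_1` in `G[E \ Y]`; `P ≠ E`, so there is `y ∈ E \ P` adjacent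
to `P`, `y ∈ Y`; `y` misses `g 4` and hence `g 3` (index property).  `S_Mod` with `a = g 4`, `P`, `c = g 3`, `x = x_4`, `y`,
`Z = {x_2}` (`x_4 ~ g 4`, `x_4 ≁ g 3`; `x_2 ~ g 3, g 4`; `e_1 ~ g 3, g 4`; `E` is not adjacent to `x_2`, `x_4`).
Now `S_D4` with `g1 = g 0`, `g3 = g 2`, `g4 = g 3`, `u2 = x_2`, `u4 = x_4`, `w3 = e_3`. -/
def S_AP : Prop := ∀ (V : Type) [Finite V] (G : SimpleGraph V) (E : Set V) (m : ℕ) (g : ℕ → V), Cl1 G →
  Conn G E → 6 ≤ m → (∀ i < m, ∀ j < m, i ≠ j → G.Adj (g i) (g j)) → (∀ i < m, g i ∉ E) →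
  (∀ e ∈ E, ∃ a ≤ m, ∀ j < m, (G.Adj e (g j) ↔ a ≤ j)) →
  (∀ i, 1 ≤ i → i < m → ∃ e ∈ E, ∀ j < m, (G.Adj e (g j) ↔ i ≤ j)) →
  (∀ i, 1 ≤ i → i < m → ∃ x, x ∉ E ∧ (∀ e ∈ E, ¬ G.Adj e x) ∧ ∀ j < m, (G.Adj x (g j) ↔ i ≤ j)) → False

/-- **AD.** (Uses `S_AP`.)

Proof. For `v ∉ J` with `Ms G J v = s '' Iio a`: `v ~ s j` iff `a ≤ j` (`j < m`, `s` injective).  If `v` is adjacent to exactly
one of `s (i-1)`, `s i` then `a = i`.  So `Dst` for `E` and for the complement of `E ∪ nb G E` gives the vertices required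
in AP (`g = s`).  Elements of `E` and of `(E ∪ nb G E)ᶜ` are not in `J ⊆ nb G E`. -/
def S_AD : Prop := ∀ (V : Type) [Finite V] (G : SimpleGraph V) (E J : Set V) (m : ℕ) (s : ℕ → V), Cl1 G →
  Conn G E → CompleteOn G J → J ⊆ nb G E → Dst G E J → Dst G (E ∪ nb G E)ᶜ J → 6 ≤ m → TyP G J m s → False

/-- **AM.** (Uses `S_Nest`.)

Proof. Let `Out = (E ∪ nb G E)ᶜ`; `Out` and `J` are disjoint.  If `a ≠ b` are in `J`, some `w ∈ Out` distinguishes them, so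
`Ms G J w` is neither empty nor `J`, it is `{a}` or `{b}`.  Take three different elements of `J`: at least two of them,
`g` and `g'`, are such that there are `w, w' ∈ Out` with `Ms G J w = {g'}`, `Ms G J w' = {g}`.  Some `e ∈ E` distinguishes `g` and
`g'`, by symmetry `e ~ g`, `e ≁ g'`.  `S_Nest`. -/
def S_AM : Prop := ∀ (V : Type) [Finite V] (G : SimpleGraph V) (E J : Set V), Cl1 G → Conn G E →
  CompleteOn G J → J ⊆ nb G E → 3 ≤ J.ncard → Dst G E J → Dst G (E ∪ nb G E)ᶜ J → TyM G J → False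

/-- **ClqA.** The boundary is a clique.  (Uses `S_A0`.)

Proof. Let `t = s (κ-1)`.  `t ∉ E`, `t` is not adjacent to `E` (`l e ≥ κ > κ - 1`).  `t` is adjacent to all `a ∈ nb G E`: if
`a ∈ S` then `a ≠ t`; if `a ∉ S` and `t ≁ a` then `l a ≥ κ` and `a ∈ Wa S l κ` is in `nb G E`, contradiction to `IsComp`.
If `a, a' ∈ nb G E` were different and not adjacent: four-cycle `{a}, {t}, {a'}, E`. -/
def S_ClqA : Prop := ∀ (V : Type) [Finite V] (G : SimpleGraph V) (S : Set V) (n κ : ℕ) (s : ℕ → V)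
  (l : V → ℕ) (E : Set V), Chd G → PC G S n s l → 1 ≤ κ → κ ≤ n → IsComp G (Wa S l κ) E →
    CompleteOn G (nb G E)

/-- **CutA.** Counting in the cut of step A.

Proof. Let `X = X₀ ∩ ((E ∪ nb G E)ᶜ ∪ A₁)`.  For `j < κ` the vertex `s j` is not in `E` and not adjacent to `E`
(`l e ≥ κ > j`), so `s j ∈ X`; `κ` different elements of `S ∩ X`.  Let `L = l '' E \ {n}`, `|L| ≥ |l '' E| - 1`, `a < n` for
`a ∈ L`.  `T = s '' L` has `|L|` elements, `T ⊆ S ∩ nb G E` (the `e ∈ E` with `l e = a` is adjacent to `s a`).  The trace of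
`s a` on `E` is `{e ∈ E | l e ≤ a}`, these are different for different `a ∈ L`; so `|T ∩ A₁| ≤ |Trc G E A₁| ≤ m`.
`T \ A₁ ⊆ S \ X`, so `|L| - m ≤ |S \ X|`. -/
def S_CutA : Prop := ∀ (V : Type) [Finite V] (G : SimpleGraph V) (S : Set V) (n κ m : ℕ) (s : ℕ → V)
  (l : V → ℕ) (E X₀ A₁ : Set V), PC G S n s l → κ ≤ n → IsComp G (Wa S l κ) E → A₁ ⊆ nb G E →
    (Trc G E A₁).ncard ≤ m → s '' Set.Iio κ ⊆ X₀ →
    κ ≤ (S ∩ (X₀ ∩ ((E ∪ nb G E)ᶜ ∪ A₁))).ncard ∧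
    (l '' E).ncard ≤ m + 1 + (S \ (X₀ ∩ ((E ∪ nb G E)ᶜ ∪ A₁))).ncard

/-- **StA.** Claim A.  (Uses `S_L2`, `S_L5`, `S_AD`, `S_AM`, `S_ClqA`, `S_CutA`, `S_Red`.)

Proof. `m` = the number `N` of `S_Red` for `q + 1` and `8`.  `K = q * (3 m + 2) + 1`, `κ = K`, `R = K + m`.  Suppose that
`R < |l '' E|`.  L5 with `S₀ = s '' Iio κ`, `P = E`, `B = ∅`, `Q = (E ∪ nb G E)ᶜ`, `A = nb G E`.
Second case: `X = X₀ ∩ (Q ∪ A₁)`, by CutA `K ≤ |S ∩ X|` and `K ≤ |S \ X|`, `cr G X ≤ 3 m + 2`: contradiction to `Lnk G q S`.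
First case: `S₀ ⊆ S` is `q`-linked (subsets of linked sets are linked), `S₀` is disjoint from `nb G E`; `J` is
`(q+1)`-linked (L2); `S_Red` gives `J' ⊆ J`, `|J'| = 8`; `Dst` passes to `J'`.  AM or AD. -/
def S_StA : Prop := ∀ q : ℕ, ∃ κ R : ℕ, 1 ≤ κ ∧ ∀ (V : Type) [Finite V] (G : SimpleGraph V) (S : Set V)
  (n : ℕ) (s : ℕ → V) (l : V → ℕ), Cl1 G → PC G S n s l → Lnk G q S → κ < n →
    ∀ E, IsComp G (Wa S l κ) E → (l '' E).ncard ≤ R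

/-- **Reb.** Forget the first elements.

Proof. `s' j = s (j + (κ - 1))`, `S' = s' '' Iio (n + 1 - κ)`, `l' v = 0` for `v ∈ S` and `l v - (κ - 1)` otherwise (classical
decidability).  The elements of `S \ S'` are adjacent to all elements of `S'`. -/
def S_Reb : Prop := ∀ (V : Type) [Finite V] (G : SimpleGraph V) (S : Set V) (n κ : ℕ) (s : ℕ → V)
  (l : V → ℕ), PC G S n s l → 1 ≤ κ → κ < n → ∃ (S' : Set V) (s' : ℕ → V) (l' : V → ℕ), S' ⊆ S ∧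
    PC G S' (n + 1 - κ) s' l' ∧ Wa S' l' 1 = Wa S l κ ∧ ∀ v ∈ Wa S' l' 1, l' v + (κ - 1) = l v

/-! ### Step B: the flat case -/

/-- **Dom.** (Uses `S_Mod`.)

Proof. `Y = {y ∈ B' | l w < l y}`, `v ∈ Y`, `u ∈ B' \ Y`.  Suppose `w ∉ B'`.  `w ∈ Wa S l 1` (`l w ≥ 1`), so `w` is not adjacent to
`B'`.  `P` = component of `u` in `G[B' \ Y]`; `P ≠ B'`, so there is `y ∈ B' \ P` adjacent to `P`, and `y ∈ Y`.  Let `q = l w < n`
(`l w < l v ≤ n`), `q ≥ 2` (`1 ≤ l u < l w`).  `S_Mod`: `a = s q`, `P`, `c = s (q-1)`, `x = w`, `y`, `Z = {s 0}`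
(`u ~ s q, s (q-1)`; `w ~ s q`, `w ≁ s (q-1)`; `y ≁ s q, s (q-1)`; `s 0` is not adjacent to `Wa S l 1`; `S ∩ B' = ∅`). -/
def S_Dom : Prop := ∀ (V : Type) [Finite V] (G : SimpleGraph V) (S : Set V) (n : ℕ) (s : ℕ → V)
  (l : V → ℕ) (B' : Set V) (u v w : V), Cl1 G → PC G S n s l → IsComp G (Wa S l 1) B' → u ∈ B' → v ∈ B' →
    w ∉ S → l u < l w → l w < l v → w ∈ B'

/-- **Del.** (Uses `S_Md1`.)

Proof. Let `a = l x`, `1 ≤ l z < a < l y ≤ n`.  `S_Md1`: `a = s a`, `b = u`, `c = s (a-1)`, `x`, `y`, `z`: `u` is adjacent to `S`;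
`x ~ s a`, `x ≁ s (a-1)`; `z ~ s (a-1), s a`; `y ≁ s a, s (a-1)`. -/
def S_Del : Prop := ∀ (V : Type) [Finite V] (G : SimpleGraph V) (S : Set V) (n : ℕ) (s : ℕ → V)
  (l : V → ℕ) (u x y z : V), Cl1 G → PC G S n s l → u ∉ S → x ∉ S → y ∉ S → z ∉ S → l u = 0 → 1 ≤ l z →
    l z < l x → l x < l y → G.Adj u y → ¬ G.Adj u x → ¬ G.Adj u z → ¬ G.Adj x y → ¬ G.Adj x z →
    ¬ G.Adj y z → False

/-- **Cn.** Non-adjacent vertices of level 0 have no common neighbour of level at least 1.  (Uses `S_A0`.)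

Proof. Otherwise `{u}, {w}, {u'}, {s 0}` is a four-cycle (`w ≁ s 0`; `1 ≤ l w ≤ n`). -/
def S_Cn : Prop := ∀ (V : Type) [Finite V] (G : SimpleGraph V) (S : Set V) (n : ℕ) (s : ℕ → V)
  (l : V → ℕ) (u u' w : V), Chd G → PC G S n s l → u ∉ S → u' ∉ S → w ∉ S → l u = 0 → l u' = 0 →
    1 ≤ l w → u ≠ u' → ¬ G.Adj u u' → G.Adj u w → G.Adj u' w → False

/-- the union of the components of `G[Wa S l 1]` all of whose levels are at least `c` -/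
def NN {V : Type} (G : SimpleGraph V) (S : Set V) (l : V → ℕ) (c : ℕ) : Set V :=
  {v | ∃ C, IsComp G (Wa S l 1) C ∧ v ∈ C ∧ ∀ w ∈ C, c ≤ l w}

/-- the vertices of level 0 with a neighbour in `NN` -/
def UU {V : Type} (G : SimpleGraph V) (S : Set V) (l : V → ℕ) (c : ℕ) : Set V :=
  {u | u ∉ S ∧ l u = 0 ∧ ∃ v ∈ NN G S l c, G.Adj u v}

/-- the lower side -/
def QQ {V : Type} (G : SimpleGraph V) (S : Set V) (s : ℕ → V) (l : V → ℕ) (c : ℕ) : Set V :=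
  {v | v ∉ S ∧ v ∉ NN G S l c ∧ v ∉ UU G S l c} ∪ s '' Set.Iio c

/-- **UC.** `UU` is a clique.  (Uses `S_Del`, `S_Cn`.)

Proof. Let `u ≠ u'` in `UU` be non-adjacent.  For `1 ≤ i < c` take `w_i ∉ S` with `l w_i = i` (`i < n`).  By Cn `w_i` is not
adjacent to both.  `c - 1 ≥ 2 R + 1`, so for one of them, say `u`, the set `D = {i | 1 ≤ i < c, w_i ≁ u}` has at least `R + 1`
elements.  `u ~ v`, `v ∈ C`, `C` a component of `G[Wa S l 1]`, `c ≤ l` on `C`; so `w_i ∉ C` and `w_i ≁ v`.  For `i < j` in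
`D`: `w_i ~ w_j` by Del (`x = w_j`, `y = v`, `z = w_i`).  Let `i₀ ∈ D` and `C'` be the component of `w_(i₀)` in `G[Wa S l 1]`
(`exists_comp`): all `w_i`, `i ∈ D`, are in `C'`, so `D ⊆ l '' C'`: contradiction to `|l '' C'| ≤ R`. -/
def S_UC : Prop := ∀ (V : Type) [Finite V] (G : SimpleGraph V) (S : Set V) (n R c : ℕ) (s : ℕ → V)
  (l : V → ℕ), Cl1 G → PC G S n s l → (∀ C, IsComp G (Wa S l 1) C → (l '' C).ncard ≤ R) →
    2 * R + 2 ≤ c → c ≤ n → CompleteOn G (UU G S l c)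

/-- `c` is the least level of a component of `G[Wa S l 1]` -/
def Low {V : Type} (G : SimpleGraph V) (S : Set V) (l : V → ℕ) (c : ℕ) : Prop :=
  ∃ C, IsComp G (Wa S l 1) C ∧ (∀ w ∈ C, c ≤ l w) ∧ ∃ x ∈ C, l x = c

/-- **Chc.** Choice of the cut.  (Uses `S_Dom`.)

Proof. Take `w ∉ S` with `l w = c₁ + R < n`, let `C` be the component of `w` in `G[Wa S l 1]` and `c` the least level in `C`,
`c ≤ c₁ + R`.  Suppose `c < c₁`.  All levels `c, c + 1, ..., c₁ + R` occur in `C` (for a level `q` strictly between take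
`w' ∉ S` of level `q` (`PC.full`), `w' ∈ C` by Dom), these are `c₁ + R - c + 1 > R` levels: contradiction. -/
def S_Chc : Prop := ∀ (V : Type) [Finite V] (G : SimpleGraph V) (S : Set V) (n R c₁ : ℕ) (s : ℕ → V)
  (l : V → ℕ), Cl1 G → PC G S n s l → (∀ C, IsComp G (Wa S l 1) C → (l '' C).ncard ≤ R) →
    1 ≤ c₁ → c₁ + R < n → ∃ c, c₁ ≤ c ∧ c ≤ c₁ + R ∧ Low G S l c

/-- **Prt.** The parts.  (Uses `S_Dom`.)

Proof. Two components of the same set which meet or touch are equal.  (0) `v ∈ Wa S l 1`, `v ∉ NN` implies `l v ≤ c` and the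
component of `v` contains a vertex of level `< c`: let `B'` be the component of `v`; as `v ∉ NN` there is `u ∈ B'` with `l u < c`;
if `c < l v` then the vertex `x` of level `c` of the component `C` in `Low` is in `B'` by Dom, so `B' = C` and `c ≤ l u`,
contradiction.  (1) Elements of `NN` are in `Wa S l 1` and have level `≥ c`.  Every vertex is in `S` (`s j` with `j < c` or
`c ≤ j < n`) or outside `S`; outside `S` it is in `NN`, `UU` or neither.  (2) `p ∈ NN`, `x ∈ QQ`: if `x = s j`, `j < c`: `l p ≥ c > j`.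
If `x ∉ S` and `l x = 0`: `p ~ x` would give `x ∈ UU`.  If `l x ≥ 1`: `p ~ x` would give that `x` is in the component of `p`,
so `x ∈ NN`.  (3) `b = s j`, `c ≤ j < n`: adjacent to `s i`, `i < c`, to the vertices of level `0` (all of `UU`) and to the
vertices `x ∉ S`, `x ∉ NN`, `l x ≥ 1` since `l x ≤ c ≤ j` by (0). -/
def S_Prt : Prop := ∀ (V : Type) [Finite V] (G : SimpleGraph V) (S : Set V) (n c : ℕ) (s : ℕ → V)
  (l : V → ℕ), Cl1 G → PC G S n s l → 1 ≤ c → c < n → Low G S l c →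
    (∀ v ∈ Wa S l 1, v ∉ NN G S l c → l v ≤ c) ∧
    NN G S l c ∪ s '' Set.Ico c n ∪ QQ G S s l c ∪ UU G S l c = Set.univ ∧
    (∀ p ∈ NN G S l c, ∀ x ∈ QQ G S s l c, ¬ G.Adj p x) ∧
    ∀ b ∈ s '' Set.Ico c n, ∀ x ∈ QQ G S s l c ∪ UU G S l c, G.Adj b x

/-- **X2.** (Uses `S_A7`.)

Proof. `1 ≤ c` since `l d' < c`.  A7 with `A = {u, s (c-1)}`, `C = B'`: `A` is a clique (`l u = 0`), `u ~ y`, `s (c-1) ~ d'`
(`l d' ≤ c - 1`), `u ∉ B'` (`l ≥ 1` on `B'`), `s (c-1) ∉ B'`.  So some `d ∈ B'` is adjacent to `u` and `s (c-1)`: `l d ≤ c - 1`. -/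
def S_X2 : Prop := ∀ (V : Type) [Finite V] (G : SimpleGraph V) (S : Set V) (n c : ℕ) (s : ℕ → V)
  (l : V → ℕ) (B' : Set V) (u y d' : V), Chd G → PC G S n s l → IsComp G (Wa S l 1) B' → c ≤ n → u ∉ S →
    l u = 0 → y ∈ B' → G.Adj u y → d' ∈ B' → l d' < c → ∃ d ∈ B', l d < c ∧ G.Adj u d

/-- **X1.** (Uses `S_Mod`.)

Proof. `d ≠ t` (levels).  `P` = component of `d` in `G[B' \ {t}]`; `P ≠ B'`, so some element of `B' \ P` is adjacent to `P`; it is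
`t`.  `1 ≤ l d < c`, so `c ≥ 2`.  `S_Mod`: `a = u`, `P`, `c = s (c-1)`, `x = v`, `y = t`, `Z = {s 0}`: `u ~ s (c-1)`, `u ~ s 0`, `u ~ d`,
`d ~ s (c-1)` (`l d ≤ c - 1`), `v ~ u`, `v ≁ s (c-1)` (`c ≤ l v`), `v` is not adjacent to `B'` (`v ∈ Wa S l 1`, `v ∉ B'`), `s 0` is
not adjacent to `Wa S l 1`, `t ≁ s (c-1)` (`l t = c`). -/
def S_X1 : Prop := ∀ (V : Type) [Finite V] (G : SimpleGraph V) (S : Set V) (n c : ℕ) (s : ℕ → V)
  (l : V → ℕ) (B' : Set V) (u v t d : V), Cl1 G → PC G S n s l → IsComp G (Wa S l 1) B' → c ≤ n →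
    u ∉ S → l u = 0 → v ∉ S → v ∉ B' → c ≤ l v → G.Adj u v → t ∈ B' → l t = c → ¬ G.Adj u t → d ∈ B' →
    l d < c → G.Adj u d → False

/-- **Wit.** Witnesses adjacent to `s (c-1)`.  (Uses `S_Prt`, `S_X1`, `S_X2`.)

Proof. Let `t ∈ QQ` be adjacent to exactly one of `u, u'`.  `t ∉ s '' Iio c` (`l u = l u' = 0`).  If `l t < c` then `t ~ s (c-1)`, take
`w = t`.  Otherwise `l t ≥ c ≥ 1`, `t ∈ Wa S l 1`, `t ∉ NN`, so `l t = c` (Prt).  By symmetry `t ~ u`, `t ≁ u'`.  Let `B'` be the component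
of `t` in `G[Wa S l 1]`; as `t ∉ NN` there is `d' ∈ B'` with `l d' < c`.  `u' ~ v` with `v ∈ C`, `C` a component with levels `≥ c`; so
`C ≠ B'` and `v ∉ B'`.  `u'` is not adjacent to `B'`: otherwise X2 gives `d ∈ B'`, `l d < c`, `u' ~ d`, and X1 is a
contradiction.  X2 for `u` (`u ~ t`): `d ∈ B'`, `l d < c`, `u ~ d`; `u' ≁ d`.  Take `w = d`: `d ∉ NN` (a component in `NN` that
contains `d` has `c ≤ l d`), `d ∉ UU` (`l d ≥ 1`), `d ~ s (c-1)`. -/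
def S_Wit : Prop := ∀ (V : Type) [Finite V] (G : SimpleGraph V) (S : Set V) (n c : ℕ) (s : ℕ → V)
  (l : V → ℕ) (u u' t : V), Cl1 G → PC G S n s l → 1 ≤ c → c < n → Low G S l c → u ∈ UU G S l c →
    u' ∈ UU G S l c → t ∈ QQ G S s l c → ¬ (G.Adj t u ↔ G.Adj t u') →
    ∃ w ∈ QQ G S s l c, G.Adj w (s (c - 1)) ∧ ¬ (G.Adj w u ↔ G.Adj w u')

/-- **BM.** (Uses `S_A0`, `S_Md1`.)

Proof. Call `a ∈ J` `N`-missed if `Ms G J y = {a}` for some `y ∈ N`.  Two different elements `a, b` of `J` are distinguished by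
some `y ∈ N`, `Ms G J y` is neither empty nor `J` (`y ∉ J`), so it is `{a}` or `{b}`: at most one element of `J` is not
`N`-missed.  The same for `Q`.  `|J| ≥ 3`: there are `g ≠ g'`, both `N`-missed (by `y_g`, `y_g'`), `g'` `Q`-missed (by `z`).
`y_g ≁ y_g'`: otherwise four-cycle `{g}, {y_g'}, {y_g}, {g'}`.  `S_Md1`: `a = g`, `b = g'`, `c = t`, `x = y_g'`, `y = y_g`, `z`. -/
def S_BM : Prop := ∀ (V : Type) [Finite V] (G : SimpleGraph V) (J N Q : Set V) (t : V), Cl1 G →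
  CompleteOn G J → 3 ≤ J.ncard → TyM G J → Disjoint J N → Disjoint J Q → (∀ j ∈ J, G.Adj t j) →
  (∀ y ∈ N, ∀ w ∈ Q, ¬ G.Adj y w) → (∀ y ∈ N, ¬ G.Adj y t) → (∀ w ∈ Q, G.Adj w t) → Dst G N J →
  Dst G Q J → False

/-- **BP.** (Uses `S_Md1`, `S_D4`.)

Proof. As in AD: for `1 ≤ i < m` there are `y_i ∈ N`, `z_i ∈ Q` with `y_i ~ s j` iff `i ≤ j`, and the same for `z_i` (`j < m`).
CLAIM `y_2 ~ y_4`: otherwise `S_Md1` with `a = s 4`, `b = t`, `c = s 3`, `x = y_4`, `y = z_5`, `z = y_2`.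
`S_D4` with `g1 = s 0`, `g3 = s 2`, `g4 = s 3`, `u2 = y_2`, `u4 = y_4`, `w3 = z_3`. -/
def S_BP : Prop := ∀ (V : Type) [Finite V] (G : SimpleGraph V) (J N Q : Set V) (t : V) (m : ℕ)
  (s : ℕ → V), Cl1 G → CompleteOn G J → 6 ≤ m → TyP G J m s → Disjoint J N → Disjoint J Q →
  (∀ j ∈ J, G.Adj t j) → (∀ y ∈ N, ∀ w ∈ Q, ¬ G.Adj y w) → (∀ y ∈ N, ¬ G.Adj y t) →
  (∀ w ∈ Q, G.Adj w t) → Dst G N J → Dst G Q J → False

/-- **StB.** The flat case.  (Uses `S_L2`, `S_L5`, `S_UC`, `S_Chc`, `S_Prt`, `S_Wit`, `S_BM`, `S_BP`, `S_Red`.)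

Proof. `m` = the number of `S_Red` for `q + 1` and `8`, `K = q * (3 m + 2) + 1`, `c₁ = max (2 R + 2) K`, `N = c₁ + R + K + 1`.  Suppose
`N ≤ n`.  `c` from Chc: `c₁ ≤ c`, `K ≤ n - c`.  L5 with `S₀ = S`, `P = NN`, `B = s '' Ico c n`, `Q = QQ`, `A = UU` (Prt, UC).
Second case: `X = X₀ \ (QQ ∪ A₁)` contains `s '' Ico c n` (`n - c` elements, not in `QQ`: injectivity of `s`; not in `UU`)
and avoids `s '' Iio c` (`c` elements), `cr G X ≤ 3 m + 2`: contradiction to `Lnk G q S`.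
First case: `J ⊆ UU` is disjoint from `S`, so `(q+1)`-linked (L2); `S_Red` gives `J' ⊆ J`, `|J'| = 8` of type (M) or pure.  Apply
BM or BP with `t = s (c-1)`, `N = NN`, `Q = {w ∈ QQ | w ~ s (c-1)}` (`Dst G Q J'` by Wit; elements of `NN` have level `≥ c`, so
they are not adjacent to `t`; `UU` is adjacent to `t`). -/
def S_StB : Prop := ∀ q R : ℕ, ∃ N : ℕ, ∀ (V : Type) [Finite V] (G : SimpleGraph V) (S : Set V)
  (n : ℕ) (s : ℕ → V) (l : V → ℕ), Cl1 G → PC G S n s l → Lnk G q S →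
    (∀ C, IsComp G (Wa S l 1) C → (l '' C).ncard ≤ R) → n < N

/-- **Pure.** No large linked pure chain.  (Uses `S_StA`, `S_Reb`, `S_StB`.)

Proof. `κ, R` from StA, `N'` from StB (`q`, `R`), `N = N' + κ + 1`.  If `N ≤ n`: `S', s', l'` from Reb, `S'` is linked (subset),
`IsComp G (Wa S' l' 1) C` is `IsComp G (Wa S l κ) C`, and `|l' '' C| = |l '' C| ≤ R` (`l v = l' v + (κ - 1)` on `C`).  StB:
`n + 1 - κ < N'`, contradiction. -/
def S_Pure : Prop := ∀ q : ℕ, ∃ N : ℕ, ∀ (V : Type) [Finite V] (G : SimpleGraph V) (S : Set V)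
  (n : ℕ) (s : ℕ → V) (l : V → ℕ), Cl1 G → PC G S n s l → Lnk G q S → n < N

/-! ### The reduction to type (M) -/

/-- **Twin.** (Uses `S_A1`.)

Proof. Suppose `2 q + 2 ≤ |T|`, take `X ⊆ T` with `|X| = q + 1`; `|S \ X| ≥ |T \ X| ≥ q + 1`.  `cr G X = rk G X Xᶜ ≤ 1`: for `x ∈ X`, `b ∈ Xᶜ`:
`x ~ b` iff `b ∈ S` or (`b ∉ S` and `b ~ t₀`), `t₀ ∈ X` fixed (A1 (5)).  So `q + 1 ≤ q`, contradiction. -/
def S_Twin : Prop := ∀ (V : Type) [Finite V] (G : SimpleGraph V) (q : ℕ) (S T : Set V), CompleteOn G S →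
  Lnk G q S → T ⊆ S → (∀ t ∈ T, ∀ t' ∈ T, ∀ v, v ∉ S → (G.Adj v t ↔ G.Adj v t')) → T.ncard ≤ 2 * q + 1

/-- **Full.** A linked pure chain contains one in which all levels occur.  (Uses `S_Twin`.)

Proof. For `v ∉ S` choose `l v ≤ n` with `Ms G S v = s '' Iio (l v)`; `v ~ s j` iff `l v ≤ j` (`j < n`).
`A = {a | 1 ≤ a < n, a = l v for some v ∉ S}`.  The map `j ↦ |{a ∈ A | a ≤ j}|` from `Iio n` to `{0, ..., |A|}` has fibres which are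
twin classes: if `j < j'` have the same value there is no `a ∈ A` with `j < a ≤ j'`, so `l v ≤ j` iff `l v ≤ j'`.  By Twin
`n ≤ (|A| + 1) (2 q + 1)`.  Let `N = m * (2 q + 1) + 1`; then `m ≤ |A|`.  Let `a_0 < a_1 < ... < a_(m-1)` be elements of `A` (for example
`Nat.nth` or an order embedding of `Fin m` in the finset), `s' i = s (a_i)`, `S' = s' '' Iio m`, `l' v` = the number of `i < m`
with `v ≁ s' i` for `v ∉ S'` (or: `l' v = |{i < m | a_i < l v}|` for `v ∉ S`, `0` for `v ∈ S`).  For `v ∉ S`: `v ~ s' i` iff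
`l v ≤ a_i` iff `l' v ≤ i`; `v ∈ S \ S'`: `l' v = 0`.  Levels: for `1 ≤ i < m` a vertex `v ∉ S` with `l v = a_i` has `l' v = i`. -/
def S_Full : Prop := ∀ q m : ℕ, ∃ N : ℕ, ∀ (V : Type) [Finite V] (G : SimpleGraph V) (S : Set V)
  (n : ℕ) (s : ℕ → V), CompleteOn G S → Lnk G q S → TyP G S n s → N ≤ n →
    ∃ S' ⊆ S, ∃ (s' : ℕ → V) (l' : V → ℕ), PC G S' m s' l'

/-- **RedM.** Only type (M) is left.  (Uses `S_Pure`, `S_Full`, `S_Red`.)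

Proof. `N₁` from Pure for `q`, `N₂` from Full for `q`, `N₁`; `m' = max m N₂`; `N` from `S_Red` for `q`, `m'`.  `S_Red` gives `S' ⊆ S`,
`|S'| = m'`, linked.  Pure type: Full gives a pure chain `S''` of size `N₁`, `S''` is linked: contradiction to Pure.  Type (M):
take a subset of size `m`; type (M) passes to subsets. -/
def S_RedM : Prop := ∀ q m : ℕ, ∃ N : ℕ, ∀ (V : Type) [Finite V] (G : SimpleGraph V) (S : Set V), Cl1 G →
  CompleteOn G S → Lnk G q S → N ≤ S.ncard → ∃ S' ⊆ S, S'.ncard = m ∧ TyM G S'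

/-- **LnkB.** The class has bounded width if linked cliques are bounded.  (Uses `S_A12`, `S_L1`.)

Proof. Let `N` be the bound for `q = 1`.  `c = N`, `n = 6 c + 1`, `k` from A12 for `c, n`.  Let `S` be a clique with `n` vertices.  If there
were no `X` with `cr G X ≤ c`, `2 c < |S ∩ X|`, `2 c < |S \ X|`, L1 would give a `1`-linked clique `B ⊆ S` with `c + 1` vertices,
`c + 1 < N`: contradiction. -/
def S_LnkB : Prop := ∀ (𝒞 : ∀ (V : Type), SimpleGraph V → Prop),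
  (∀ (V : Type) [Finite V] (G : SimpleGraph V), 𝒞 V G → Chd G) →
  (∃ N : ℕ, ∀ (V : Type) [Finite V] (G : SimpleGraph V) (S : Set V), 𝒞 V G → CompleteOn G S →
    Lnk G 1 S → S.ncard < N) →
  ∃ k : ℕ, ∀ (V : Type) [Finite V] (G : SimpleGraph V), 𝒞 V G → Lay G k Set.univ

end Pool.Agent.MPd439b2.H1P
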