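import Pool.Agent.Lib.MP_d439b2_co.H1P.Spec

/-!
# MP_d439b2_co, H1P/AD: step A, a set of pure type
-/

set_option autoImplicit false

namespace Pool.Agent.MPd439b2.H1P

open Pool.Agent.MPd439b2 Pool.Agent.MPd439b2.LK

/-- **AD.** -/
theorem aD : S_AP → S_AD := by
  intro hAP V _ G E J m s hCl hE hJ hJn hD1 hD2 hm hT
  obtain ⟨hinj, hJs, hty⟩ := hT
  have hmem : ∀ j < m, s j ∈ J := fun j hj => hJs ▸ ⟨j, hj, rfl⟩
  have hne : ∀ i < m, ∀ j < m, i ≠ j → s i ≠ s j := fun i hi j hj hij h =>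
    hij (hinj (Set.mem_Iio.2 hi) (Set.mem_Iio.2 hj) h)
  have key : ∀ v, v ∉ J → ∃ a ≤ m, ∀ j < m, (G.Adj v (s j) ↔ a ≤ j) := by
    intro v hv
    obtain ⟨a, ha, hMs⟩ := hty v hv
    refine ⟨a, ha, fun j hj => ?_⟩
    have h1 : s j ∈ Ms G J v ↔ j < a := by
      rw [hMs]
      constructor
      · rintro ⟨i, hi, hij⟩
        have hi' : i < a := hi
        have : i = j := hinj (Set.mem_Iio.2 (lt_of_lt_of_le hi' ha)) (Set.mem_Iio.2 hj) hij
        omega
      · intro h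
        exact ⟨j, h, rfl⟩
    have h2 : s j ∈ Ms G J v ↔ ¬ G.Adj v (s j) := ⟨fun h => h.2, fun h => ⟨hmem j hj, h⟩⟩
    rw [h2] at h1
    constructor
    · intro h
      by_contra h3
      exact h1.2 (by omega) h
    · intro h
      by_contra h3
      have := h1.1 h3
      omega
  have hdist : ∀ P : Set V, Dst G P J → (∀ p ∈ P, p ∉ J) → ∀ i, 1 ≤ i → i < m →
      ∃ e ∈ P, ∀ j < m, (G.Adj e (s j) ↔ i ≤ j) := by
    intro P hP hPJ i hi him
    obtain ⟨p, hp, hpd⟩ := hP (s (i - 1)) (hmem _ (by omega)) (s i) (hmem _ him)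
      (hne _ (by omega) _ him (by omega))
    obtain ⟨a, ha, hadj⟩ := key p (hPJ p hp)
    rw [hadj (i - 1) (by omega), hadj i him] at hpd
    have hai : a = i := by omega
    subst hai
    exact ⟨p, hp, hadj⟩
  refine hAP V G E m s hCl hE hm (fun i hi j hj hij => hJ _ (hmem i hi) _ (hmem j hj)
    (hne i hi j hj hij)) (fun i hi => (hJn (hmem i hi)).1) (fun e he => key e fun h => (hJn h).1 he)
    (hdist E hD1 fun p hp h => (hJn h).1 hp) ?_
  intro i hi him
  obtain ⟨x, hx, hxa⟩ := hdist _ hD2 (fun p hp h => hp (Or.inr (hJn h))) i hi him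
  refine ⟨x, fun h => hx (Or.inl h), fun e he h => ?_, hxa⟩
  exact hx (Or.inr ⟨fun h' => hx (Or.inl h'), e, he, h⟩)

end Pool.Agent.MPd439b2.H1P
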