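import Pool.Agent.Lib.MP_d439b2_co.H1P.Spec

/-!
# MP_d439b2_co, pair `(C_4, K3:0,1,02)`, AM: step A, type (M)
-/

set_option autoImplicit false

namespace Pool.Agent.MPd439b2.H1P

open Pool.Agent.MPd439b2 Pool.Agent.MPd439b2.LK

theorem aM : S_Nest → S_AM := by
  intro hN V _ G E J hCl hE hJ hJE h3 hDE hDO hM
  -- the elements missed by exactly one vertex of the complement
  have hit : ∀ p ∈ J, ∀ q ∈ J, p ≠ q →
      (∃ w, w ∈ (E ∪ nb G E)ᶜ ∧ Ms G J w = {p}) ∨ (∃ w, w ∈ (E ∪ nb G E)ᶜ ∧ Ms G J w = {q}) := by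
    intro p hp q hq hpq
    obtain ⟨w, hw, hne⟩ := hDO p hp q hq hpq
    have hwJ : w ∉ J := fun h => hw (Or.inr (hJE h))
    rcases hM w hwJ with h | h | ⟨a, ha, h⟩
    · exfalso
      have h1 : G.Adj w p := by
        by_contra hc
        have : p ∈ Ms G J w := ⟨hp, hc⟩
        rw [h] at this
        exact this
      have h2 : G.Adj w q := by
        by_contra hc
        have : q ∈ Ms G J w := ⟨hq, hc⟩
        rw [h] at this
        exact this
      exact hne ⟨fun _ => h2, fun _ => h1⟩
    · exfalso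
      have h1 : ¬ G.Adj w p := by
        have : p ∈ Ms G J w := by rw [h]; exact hp
        exact this.2
      have h2 : ¬ G.Adj w q := by
        have : q ∈ Ms G J w := by rw [h]; exact hq
        exact this.2
      exact hne ⟨fun h => absurd h h1, fun h => absurd h h2⟩
    · by_cases hap : a = p
      · subst hap
        exact Or.inl ⟨w, hw, h⟩
      · by_cases haq : a = q
        · subst haq
          exact Or.inr ⟨w, hw, h⟩
        · exfalso
          have h1 : G.Adj w p := by
            by_contra hc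
            have : p ∈ Ms G J w := ⟨hp, hc⟩
            rw [h] at this
            exact hap this.symm
          have h2 : G.Adj w q := by
            by_contra hc
            have : q ∈ Ms G J w := ⟨hq, hc⟩
            rw [h] at this
            exact haq this.symm
          exact hne ⟨fun _ => h2, fun _ => h1⟩
  -- two hit elements
  have main : ∀ g ∈ J, ∀ g' ∈ J, g ≠ g' → (∃ w, w ∈ (E ∪ nb G E)ᶜ ∧ Ms G J w = {g}) →
      (∃ w, w ∈ (E ∪ nb G E)ᶜ ∧ Ms G J w = {g'}) → False := by
    have key : ∀ g ∈ J, ∀ g' ∈ J, g ≠ g' → (∃ w, w ∈ (E ∪ nb G E)ᶜ ∧ Ms G J w = {g}) →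
        (∃ w, w ∈ (E ∪ nb G E)ᶜ ∧ Ms G J w = {g'}) → ∀ e ∈ E, G.Adj e g → ¬ G.Adj e g' →
          False := by
      rintro g hg g' hg' hgg ⟨w', hw', hMw'⟩ ⟨w, hw, hMw⟩ e he h1 h2
      have out : ∀ x, x ∈ (E ∪ nb G E)ᶜ → x ∉ E ∧ ∀ y ∈ E, ¬ G.Adj y x := by
        intro x hx
        have hxE : x ∉ E := fun h => hx (Or.inl h)
        exact ⟨hxE, fun y hy h => hx (Or.inr ⟨hxE, y, hy, h⟩)⟩
      have a1 : G.Adj w g := by
        by_contra hc
        have : g ∈ Ms G J w := ⟨hg, hc⟩
        rw [hMw] at this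
        exact hgg this
      have a2 : ¬ G.Adj w g' := by
        have : g' ∈ Ms G J w := by rw [hMw]; rfl
        exact this.2
      have a3 : G.Adj w' g' := by
        by_contra hc
        have : g' ∈ Ms G J w' := ⟨hg', hc⟩
        rw [hMw'] at this
        exact hgg this.symm
      have a4 : ¬ G.Adj w' g := by
        have : g ∈ Ms G J w' := by rw [hMw']; rfl
        exact this.2
      exact hN V G E g g' w w' e hCl hE (hJE hg).1 (hJE hg').1 (hJ g hg g' hg' hgg) he h1 h2
        (hJE hg').2 (out w hw).1 (out w hw).2 (out w' hw').1 (out w' hw').2 a1 a2 a3 a4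
    intro g hg g' hg' hgg hw hw'
    obtain ⟨e, he, hne⟩ := hDE g hg g' hg' hgg
    by_cases h1 : G.Adj e g
    · by_cases h2 : G.Adj e g'
      · exact hne ⟨fun _ => h2, fun _ => h1⟩
      · exact key g hg g' hg' hgg hw hw' e he h1 h2
    · by_cases h2 : G.Adj e g'
      · exact key g' hg' g hg hgg.symm hw' hw e he h2 h1
      · exact hne ⟨fun h => absurd h h1, fun h => absurd h h2⟩
  obtain ⟨a, b, c, ha, hb, hc, hab, hac, hbc⟩ := (Set.two_lt_ncard_iff (Set.toFinite J)).mp h3
  rcases hit a ha b hb hab with h | h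
  · rcases hit b hb c hc hbc with h' | h'
    · exact main a ha b hb hab h h'
    · exact main a ha c hc hac h h'
  · rcases hit a ha c hc hac with h' | h'
    · exact main a ha b hb hab h' h
    · exact main b hb c hc hbc h h'

end Pool.Agent.MPd439b2.H1P
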