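import Pool.Agent.Lib.MP_d439b2_co.H1P.Spec

/-!
# MP_d439b2_co, pair `(C_4, K3:0,1,02)`: step A, pure case (`S_AP`)
-/

set_option autoImplicit false

namespace Pool.Agent.MPd439b2.H1P

open Pool.Agent.MPd439b2 Pool.Agent.MPd439b2.LK

/-- **AP.** -/
theorem aP : S_Mod → S_D4 → S_AP := by
  intro hMod hD4 V _ G E m g hCl hEc hm hgg hgE hE he hx
  obtain ⟨e1, he1E, he1⟩ := he 1 (by omega) (by omega)
  obtain ⟨e3, he3E, he3⟩ := he 3 (by omega) (by omega)
  obtain ⟨e5, he5E, he5⟩ := he 5 (by omega) (by omega)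
  obtain ⟨x2, hx2E, hx2n, hx2⟩ := hx 2 (by omega) (by omega)
  obtain ⟨x4, hx4E, hx4n, hx4⟩ := hx 4 (by omega) (by omega)
  have x2g2 : G.Adj x2 (g 2) := (hx2 2 (by omega)).2 (by omega)
  have x2g3 : G.Adj x2 (g 3) := (hx2 3 (by omega)).2 (by omega)
  have x2g4 : G.Adj x2 (g 4) := (hx2 4 (by omega)).2 (by omega)
  have x2g0 : ¬ G.Adj x2 (g 0) := fun h => by
    have := (hx2 0 (by omega)).1 h
    omega
  have x4g4 : G.Adj x4 (g 4) := (hx4 4 (by omega)).2 (by omega)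
  have x4g3 : ¬ G.Adj x4 (g 3) := fun h => by
    have := (hx4 3 (by omega)).1 h
    omega
  have x4g2 : ¬ G.Adj x4 (g 2) := fun h => by
    have := (hx4 2 (by omega)).1 h
    omega
  have x4g0 : ¬ G.Adj x4 (g 0) := fun h => by
    have := (hx4 0 (by omega)).1 h
    omega
  have claim : G.Adj x2 x4 := by
    by_contra hn
    have he1Y : e1 ∈ E \ {e | e ∈ E ∧ ¬ G.Adj e (g 4)} :=
      ⟨he1E, fun h => h.2 ((he1 4 (by omega)).2 (by omega))⟩
    obtain ⟨P, hPs, he1P, hPc, hPnb⟩ := exists_comp G he1Y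
    have hPE : P ⊆ E := fun p hp => (hPs hp).1
    have he5P : e5 ∉ P := fun h => (hPs h).2 ⟨he5E, fun h' => by
      have := (he5 4 (by omega)).1 h'
      omega⟩
    obtain ⟨b, hb, y, hy, hby⟩ := hEc.2 P hPE ⟨e1, he1P⟩ (fun h => he5P (by rw [h]; exact he5E))
    have hyY : ¬ G.Adj y (g 4) := by
      intro h
      exact hPnb y ⟨hy.1, fun h' => h'.2 h⟩ ⟨hy.2, b, hb, hby⟩
    have hyg3 : ¬ G.Adj y (g 3) := by
      obtain ⟨a, _, ha⟩ := hE y hy.1
      intro h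
      have h3 := (ha 3 (by omega)).1 h
      exact hyY ((ha 4 (by omega)).2 (by omega))
    refine hCl.2 (hMod V G P {x2} (g 4) (g 3) x4 y hPc (Conn.singleton G x2)
      (Set.disjoint_singleton_right.2 fun h => hx2E (hPE h)) (fun h => hgE 4 (by omega) (hPE h))
      (fun h => hgE 3 (by omega) (hPE h)) (fun h => hx4E (hPE h)) hy.2 (fun h => ?_) (fun h => ?_)
      (fun h => ?_) (fun h => ?_) (hgg 4 (by omega) 3 (by omega) (by omega))
      ⟨e1, he1P, (he1 4 (by omega)).2 (by omega)⟩ ⟨e1, he1P, (he1 3 (by omega)).2 (by omega)⟩ x4g4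
      ⟨b, hb, hby⟩ ⟨x2, rfl, x2g4⟩ ⟨x2, rfl, x2g3⟩ ?_ x4g3 (fun p hp => hx4n p (hPE hp)) ?_
      (fun h => hx4n y hy.1 h.symm) hyY hyg3 ?_)
    · exact x2g4.ne (Set.mem_singleton_iff.mp h).symm
    · exact x2g3.ne (Set.mem_singleton_iff.mp h).symm
    · rw [Set.mem_singleton_iff.mp h] at x4g3
      exact x4g3 x2g3
    · rw [Set.mem_singleton_iff.mp h] at hy
      exact hx2E hy.1
    · rintro p hp z rfl
      exact hx2n p (hPE hp)
    · rintro z rfl
      exact hn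
    · rintro z rfl h
      exact hx2n y hy.1 h.symm
  refine hD4 V G (g 0) (g 2) (g 3) x2 x4 e3 hCl (hgg 0 (by omega) 2 (by omega) (by omega))
    (hgg 0 (by omega) 3 (by omega) (by omega)) (hgg 2 (by omega) 3 (by omega) (by omega)) x2g0 x2g2
    x2g3 x4g0 x4g2 x4g3 (fun h => ?_) (fun h => ?_) ((he3 3 (by omega)).2 (by omega)) claim
    (hx2n e3 he3E) (hx4n e3 he3E)
  · have := (he3 0 (by omega)).1 h
    omega
  · have := (he3 2 (by omega)).1 h
    omega

end Pool.Agent.MPd439b2.H1P
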