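import Pool.Agent.Lib.MP_d439b2_co.H1P.Spec

/-!
# MP_d439b2_co, pair `(C_4, K3:0,1,02)`, BM: step B, type (M)
-/

set_option autoImplicit false

namespace Pool.Agent.MPd439b2.H1P

open Pool.Agent.MPd439b2 Pool.Agent.MPd439b2.LK

theorem bM (h0 : S_A0) (h1 : S_Md1) : S_BM := by
  intro V _ G J N Q t hG hJ h3 hM hJN hJQ htJ hNQ hNt hQt hdN hdQ
  have miss : ∀ P : Set V, Disjoint J P → Dst G P J → ∀ a ∈ J, ∀ b ∈ J, a ≠ b →
      (∃ y ∈ P, Ms G J y = {a}) ∨ ∃ y ∈ P, Ms G J y = {b} := by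
    intro P hP hd a ha b hb hab
    obtain ⟨p, hp, hpab⟩ := hd a ha b hb hab
    have hpJ : p ∉ J := fun h => Set.disjoint_left.1 hP h hp
    rcases hM p hpJ with h | h | ⟨e, he, h⟩
    · exfalso
      apply hpab
      have h5 : ∀ x ∈ J, G.Adj p x := by
        intro x hx
        by_contra hn
        have : x ∈ Ms G J p := ⟨hx, hn⟩
        rw [h] at this
        exact this
      exact iff_of_true (h5 a ha) (h5 b hb)
    · exfalso
      apply hpab
      have h5 : ∀ x ∈ J, ¬ G.Adj p x := by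
        intro x hx
        have : x ∈ Ms G J p := by
          rw [h]
          exact hx
        exact this.2
      exact iff_of_false (h5 a ha) (h5 b hb)
    · by_cases hpa : G.Adj p a
      · right
        have hpb : ¬ G.Adj p b := fun hpb => hpab (iff_of_true hpa hpb)
        have h5 : b ∈ Ms G J p := ⟨hb, hpb⟩
        rw [h] at h5
        refine ⟨p, hp, ?_⟩
        rw [h, h5]
      · left
        have h5 : a ∈ Ms G J p := ⟨ha, hpa⟩
        rw [h] at h5
        refine ⟨p, hp, ?_⟩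
        rw [h, h5]
  have hadj : ∀ y g e : V, Ms G J y = {g} → e ∈ J → e ≠ g → G.Adj y e := by
    intro y g e hy he hne
    by_contra hn
    have : e ∈ Ms G J y := ⟨he, hn⟩
    rw [hy] at this
    exact hne this
  have hnadj : ∀ y g : V, Ms G J y = {g} → ¬ G.Adj y g := by
    intro y g hy
    have : g ∈ Ms G J y := by
      rw [hy]
      rfl
    exact this.2
  have main : ∀ g ∈ J, ∀ g' ∈ J, g ≠ g' → (∃ y ∈ N, Ms G J y = {g}) →
      (∃ y ∈ N, Ms G J y = {g'}) → (∃ z ∈ Q, Ms G J z = {g'}) → False := by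
    rintro g hg g' hg' hne ⟨y, hy, hyg⟩ ⟨y', hy', hyg'⟩ ⟨z, hz, hzg'⟩
    have e1 : G.Adj y' g := hadj y' g' g hyg' hg hne
    have e2 : G.Adj y g' := hadj y g g' hyg hg' (Ne.symm hne)
    have e3 : G.Adj z g := hadj z g' g hzg' hg hne
    have e4 : G.Adj g g' := hJ g hg g' hg' hne
    have n1 := hnadj y g hyg
    have n2 := hnadj y' g' hyg'
    have n3 := hnadj z g' hzg'
    have n4 : ¬ G.Adj y' y := by
      intro h
      have hD : ∀ x y : V, x ≠ y → Disjoint ({x} : Set V) {y} :=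
        fun x y h => Set.disjoint_singleton.2 h
      have hT : ∀ x y : V, Tch G {x} {y} ↔ G.Adj x y := by
        intro x y
        simp [Tch]
      have d1 : g ≠ y := by
        rintro rfl
        exact Set.disjoint_left.1 hJN hg hy
      have d2 : y' ≠ g' := by
        rintro rfl
        exact Set.disjoint_left.1 hJN hg' hy'
      exact hG.1 (h0 V G {g} {y'} {y} {g'} (Conn.singleton G _) (Conn.singleton G _)
        (Conn.singleton G _) (Conn.singleton G _) (hD _ _ e1.ne.symm) (hD _ _ d1) (hD _ _ hne)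
        (hD _ _ h.ne) (hD _ _ d2) (hD _ _ e2.ne) ((hT _ _).2 e1.symm) ((hT _ _).2 h)
        ((hT _ _).2 e2) ((hT _ _).2 e4) (fun h => n1 ((hT _ _).1 h).symm)
        (fun h => n2 ((hT _ _).1 h)))
    exact hG.2 (h1 V G g g' t y' y z e4 (htJ g hg).symm (htJ g' hg').symm e1 e2 e3 (hQt z hz)
      n3 n2 (hNt y' hy') n4 (hNQ y' hy' z hz) n1 (hNt y hy) (hNQ y hy z hz))
  have main2 : ∀ a ∈ J, ∀ b ∈ J, a ≠ b → (∃ y ∈ N, Ms G J y = {a}) →
      (∃ y ∈ N, Ms G J y = {b}) → False := by
    intro a ha b hb hab hya hyb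
    rcases miss Q hJQ hdQ a ha b hb hab with h | h
    · exact main b hb a ha (Ne.symm hab) hyb hya h
    · exact main a ha b hb hab hya hyb h
  obtain ⟨a, ha, b, hb, c, hc, hab, hac, hbc⟩ := (Set.two_lt_ncard (Set.toFinite _)).1 h3
  rcases miss N hJN hdN a ha b hb hab with h4 | h4
  · rcases miss N hJN hdN b hb c hc hbc with h5 | h5
    · exact main2 a ha b hb hab h4 h5
    · exact main2 a ha c hc hac h4 h5
  · rcases miss N hJN hdN a ha c hc hac with h5 | h5
    · exact main2 a ha b hb hab h5 h4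
    · exact main2 b hb c hc hbc h4 h5

end Pool.Agent.MPd439b2.H1P
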