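import Pool.Agent.Lib.MP_d439b2_co.H1P.Spec

/-!
# MP_d439b2_co, H1P, BP: step B, pure type
-/

set_option autoImplicit false

namespace Pool.Agent.MPd439b2.H1P

open Pool.Agent.MPd439b2 Pool.Agent.MPd439b2.LK

namespace BPAux

variable {V : Type} {G : SimpleGraph V}

/-- every level occurs in a distinguishing set -/
theorem lev {J N : Set V} {m : ℕ} {s : ℕ → V} (hP : TyP G J m s) (hJN : Disjoint J N)
    (hD : Dst G N J) (i : ℕ) (h1 : 1 ≤ i) (hi : i < m) :
    ∃ y ∈ N, ∀ j < m, (G.Adj y (s j) ↔ i ≤ j) := by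
  obtain ⟨hinj, himg, hms⟩ := hP
  have hmem : ∀ j < m, s j ∈ J := by
    intro j hj
    rw [himg]
    exact ⟨j, hj, rfl⟩
  have hne : s (i - 1) ≠ s i := by
    intro h
    have := hinj (show i - 1 ∈ Set.Iio m from Set.mem_Iio.2 (by omega)) (Set.mem_Iio.2 hi) h
    omega
  obtain ⟨y, hy, hdis⟩ := hD _ (hmem (i - 1) (by omega)) _ (hmem i hi) hne
  have hyJ : y ∉ J := fun h => Set.disjoint_left.1 hJN h hy
  obtain ⟨a, ha, hMs⟩ := hms y hyJ
  have key : ∀ j < m, (G.Adj y (s j) ↔ a ≤ j) := by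
    intro j hj
    have h2 : s j ∈ Ms G J y ↔ j < a := by
      rw [hMs]
      constructor
      · rintro ⟨k, hk, hkj⟩
        have hk' : k < a := hk
        have := hinj (Set.mem_Iio.2 (show k < m by omega)) (Set.mem_Iio.2 hj) hkj
        omega
      · intro h
        exact ⟨j, h, rfl⟩
    have h3 : s j ∈ Ms G J y ↔ ¬ G.Adj y (s j) := by
      constructor
      · rintro ⟨_, h⟩
        exact h
      · intro h
        exact ⟨hmem j hj, h⟩
    rw [h3] at h2
    constructor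
    · intro h
      by_contra hcon
      exact (h2.2 (by omega)) h
    · intro h
      by_contra hcon
      have := h2.1 hcon
      omega
  have hai : a = i := by
    rw [key _ (show i - 1 < m by omega), key _ hi] at hdis
    by_contra hcon
    apply hdis
    constructor
    · intro h
      omega
    · intro h
      omega
  exact ⟨y, hy, fun j hj => by rw [key j hj, hai]⟩

end BPAux

open BPAux in
/-- **BP** -/
theorem bp : S_Md1 → S_D4 → S_BP := by
  intro hM hD4 V _ G J N Q t m s hC hJ hm hP hJN hJQ htJ hNQ hNt hQt hDN hDQ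
  obtain ⟨y2, hy2, h2⟩ := lev hP hJN hDN 2 (by omega) (by omega)
  obtain ⟨y4, hy4, h4⟩ := lev hP hJN hDN 4 (by omega) (by omega)
  obtain ⟨z3, hz3, k3⟩ := lev hP hJQ hDQ 3 (by omega) (by omega)
  obtain ⟨z5, hz5, k5⟩ := lev hP hJQ hDQ 5 (by omega) (by omega)
  obtain ⟨hinj, himg, hms⟩ := hP
  have hmem : ∀ j < m, s j ∈ J := by
    intro j hj
    rw [himg]
    exact ⟨j, hj, rfl⟩
  have hadj : ∀ i < m, ∀ j < m, i ≠ j → G.Adj (s i) (s j) := by
    intro i hi j hj hij
    exact hJ _ (hmem i hi) _ (hmem j hj) fun h => hij (hinj (Set.mem_Iio.2 hi) (Set.mem_Iio.2 hj) h)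
  have hy24 : G.Adj y2 y4 := by
    by_contra hcon
    refine hC.2 (hM V G (s 4) t (s 3) y4 z5 y2 (htJ _ (hmem 4 (by omega))).symm
      (hadj 4 (by omega) 3 (by omega) (by omega)) (htJ _ (hmem 3 (by omega)))
      ((h4 4 (by omega)).2 le_rfl) (hQt _ hz5) ((h2 4 (by omega)).2 (by omega))
      ((h2 3 (by omega)).2 (by omega)) (hNt _ hy2) (hNt _ hy4) ?_ (hNQ _ hy4 _ hz5)
      (fun h => hcon h.symm) ?_ ?_ fun h => hNQ _ hy2 _ hz5 h.symm)
    · rw [h4 3 (by omega)]
      omega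
    · rw [k5 4 (by omega)]
      omega
    · rw [k5 3 (by omega)]
      omega
  refine hD4 V G (s 0) (s 2) (s 3) y2 y4 z3 hC (hadj 0 (by omega) 2 (by omega) (by omega))
    (hadj 0 (by omega) 3 (by omega) (by omega)) (hadj 2 (by omega) 3 (by omega) (by omega))
    ?_ ?_ ?_ ?_ ?_ ?_ ?_ ?_ ?_ hy24 (fun h => hNQ _ hy2 _ hz3 h.symm)
    (fun h => hNQ _ hy4 _ hz3 h.symm)
  · rw [h2 0 (by omega)]
    omega
  · rw [h2 2 (by omega)]
  · rw [h2 3 (by omega)]
    omega
  · rw [h4 0 (by omega)]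
    omega
  · rw [h4 2 (by omega)]
    omega
  · rw [h4 3 (by omega)]
    omega
  · rw [k3 0 (by omega)]
    omega
  · rw [k3 2 (by omega)]
    omega
  · rw [k3 3 (by omega)]

end Pool.Agent.MPd439b2.H1P
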