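import Pool.Agent.Lib.MP_d439b2_co.H1P.Spec
import Pool.Agent.Lib.MP_d439b2_co.H1.Spec2

/-!
# MP_d439b2_co, pair `(C_4, K3:0,1,02)`: bridges between the two parts of the proof
-/

namespace Pool.Agent.MPd439b2.H1P

open Pool.Agent.MPd439b2 Pool.Agent.MPd439b2.LK

private theorem inj_of_sq {V : Type} {G : SimpleGraph V} {s : ℕ → V} {m : ℕ} (h : H1.Sq G s m) :
    Set.InjOn s (Set.Iio m) := by
  intro i hi j hj hij
  by_contra hne
  have h1 := h i hi j hj hne
  rw [hij] at h1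
  exact G.loopless.irrefl _ h1

private theorem ms_eq {V : Type} (G : SimpleGraph V) (s : ℕ → V) (m : ℕ) (v : V) :
    Ms G (s '' Set.Iio m) v = s '' H1.Tr G s m v := by
  ext x
  constructor
  · rintro ⟨⟨i, hi, rfl⟩, hx⟩
    exact ⟨i, ⟨hi, hx⟩, rfl⟩
  · rintro ⟨i, ⟨hi, hx⟩, rfl⟩
    exact ⟨⟨i, hi, rfl⟩, hx⟩

private theorem ot_of {V : Type} {s : ℕ → V} {m : ℕ} {v : V} (h : v ∉ s '' Set.Iio m) :
    H1.Ot s m v := by
  intro i hi hv
  exact h ⟨i, hi, hv.symm⟩

private theorem rg_eq {V : Type} (s : ℕ → V) (m : ℕ) : H1.rg s m = s '' Set.Iio m := by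
  ext x
  constructor
  · rintro ⟨i, hi, rfl⟩
    exact ⟨i, hi, rfl⟩
  · rintro ⟨i, hi, rfl⟩
    exact ⟨i, hi, rfl⟩

theorem bridgeRed : H1.S_Reg2 → S_Red := by
  intro hR q m
  obtain ⟨N, hN⟩ := hR q m
  refine ⟨N, fun V _ G S hG hS hL hle => ?_⟩
  obtain ⟨s, hsS, hsq, hty⟩ := hN V G S hG hS (fun X => min_le_iff.mp (hL X)) hle
  refine ⟨s '' Set.Iio m, ?_, ?_, ?_⟩
  · rintro x ⟨i, hi, rfl⟩
    exact hsS i hi
  · rw [Set.InjOn.ncard_image (inj_of_sq hsq), Set.ncard_eq_toFinset_card', Set.toFinset_Iio,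
      Nat.card_Iio]
  · rcases hty with hty | hty
    · left
      intro v hv
      rw [ms_eq]
      rcases hty.1 v (ot_of hv) with h | h | ⟨e, he, h⟩
      · left
        rw [h, Set.image_empty]
      · right; left
        rw [h]
        rfl
      · right; right
        exact ⟨s e, ⟨e, he, rfl⟩, by rw [h, Set.image_singleton]⟩
    · right
      refine ⟨s, inj_of_sq hsq, rfl, fun v hv => ?_⟩
      obtain ⟨p, hp, h⟩ := hty.1 v (ot_of hv)
      refine ⟨p, hp, ?_⟩
      rw [ms_eq, h]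
      rfl

theorem bridgeNoI : S_Pure → H1.S_NoI := by
  classical
  intro hP q
  obtain ⟨N, hN⟩ := hP q
  refine ⟨N, fun V _ G s hG hsq hty hL => ?_⟩
  have h1 : ∀ v, v ∉ s '' Set.Iio N → ∃ p, p ≤ N ∧ H1.Tr G s N v = {i | i < p} :=
    fun v hv => hty.1 v (ot_of hv)
  let l : V → ℕ := fun v => if h : v ∉ s '' Set.Iio N then (h1 v h).choose else 0
  have hl : ∀ v, v ∉ s '' Set.Iio N → l v ≤ N ∧ H1.Tr G s N v = {i | i < l v} := by
    intro v hv
    have h2 : l v = (h1 v hv).choose := dif_pos hv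
    rw [h2]
    exact (h1 v hv).choose_spec
  have hpc : PC G (s '' Set.Iio N) N s l := by
    refine ⟨inj_of_sq hsq, rfl, ?_, fun v hv => (hl v hv).1, ?_, ?_⟩
    · rintro u ⟨i, hi, rfl⟩ v ⟨j, hj, rfl⟩ huv
      exact hsq i hi j hj (fun h => huv (by rw [h]))
    · intro v hv j hj
      have h2 := (hl v hv).2
      have h3 : j ∈ H1.Tr G s N v ↔ j < l v := by rw [h2]; rfl
      constructor
      · intro h
        by_contra h4
        exact (h3.mpr (not_le.mp h4)).2 h
      · intro h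
        by_contra h4
        exact absurd (h3.mp ⟨hj, h4⟩) (not_lt.mpr h)
    · intro a ha1 ha2
      obtain ⟨v, hv, htr⟩ := hty.2 a ha1 ha2
      have hv' : v ∉ s '' Set.Iio N := by
        rintro ⟨i, hi, rfl⟩
        exact hv i hi rfl
      refine ⟨v, hv', ?_⟩
      have h2 := (hl v hv').2
      rw [htr] at h2
      rcases lt_trichotomy (l v) a with h3 | h3 | h3
      · exfalso
        have h4 : l v ∈ {i | i < a} := h3
        rw [h2, Set.mem_ofPred_eq] at h4
        exact lt_irrefl _ h4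
      · exact h3
      · exfalso
        have h4 : a ∈ {i | i < l v} := h3
        rw [← h2, Set.mem_ofPred_eq] at h4
        exact lt_irrefl _ h4
  have h5 := hN V G (s '' Set.Iio N) N s l hG hpc (fun X => min_le_iff.mpr (by
    have h6 := hL X
    rw [rg_eq] at h6
    exact h6))
  exact lt_irrefl _ h5

end Pool.Agent.MPd439b2.H1P
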