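import Pool.Agent.Lib.MP_d439b2_co.H1P.Spec

/-!
# MP_d439b2_co, pair `(C_4, K3:0,1,02)`, Chc: choice of the cut
-/

set_option autoImplicit false

namespace Pool.Agent.MPd439b2.H1P

open Pool.Agent.MPd439b2 Pool.Agent.MPd439b2.LK

theorem chc (h1 : S_Dom) : S_Chc := by
  intro V _ G S n R c₁ s l hG hP hR hc hcn
  obtain ⟨w, hwS, hw⟩ := hP.full (c₁ + R) (by omega) hcn
  have hwW : w ∈ Wa S l 1 := ⟨hwS, by omega⟩
  obtain ⟨C, hCW, hwC, cC, hCn⟩ := exists_comp G hwW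
  have hC : IsComp G (Wa S l 1) C := ⟨hCW, cC, hCn⟩
  obtain ⟨x, hxC, hx⟩ := Set.exists_min_image C l (Set.toFinite _) ⟨w, hwC⟩
  have hxw := hx w hwC
  refine ⟨l x, ?_, by omega, C, hC, hx, x, hxC, rfl⟩
  by_contra hlt
  have hx1 : 1 ≤ l x := (hCW hxC).2
  have hsub : Set.Icc (l x) (c₁ + R) ⊆ l '' C := by
    rintro q ⟨hq1, hq2⟩
    rcases Nat.eq_or_lt_of_le hq1 with h | h
    · exact ⟨x, hxC, h⟩
    rcases Nat.eq_or_lt_of_le hq2 with h' | h'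
    · exact ⟨w, hwC, by omega⟩
    obtain ⟨w', hw'S, hw'⟩ := hP.full q (by omega) (by omega)
    exact ⟨w', h1 V G S n s l C x w w' hG hP hC hxC hwC hw'S (by omega) (by omega), hw'⟩
  have h2 := Set.ncard_le_ncard hsub (Set.toFinite _)
  have h3 : (Set.Icc (l x) (c₁ + R)).ncard = c₁ + R + 1 - l x := by
    rw [← Finset.coe_Icc, Set.ncard_coe_finset, Nat.card_Icc]
  have h4 := hR C hC
  omega

end Pool.Agent.MPd439b2.H1P
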