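import Pool.Agent.Lib.MP_d439b2_co.H1P.Spec

/-!
# MP_d439b2_co, H1P: ClqA, the boundary is a clique (helper50)
-/

set_option autoImplicit false

namespace Pool.Agent.MPd439b2.H1P

open Pool.Agent.MPd439b2 Pool.Agent.MPd439b2.LK

theorem clqA : LK.S_A0 → S_ClqA := by
  intro h0 V _ G S n κ s l E hG hP hκ hκn hE a ha a' ha' haa
  obtain ⟨hE1, hE2, hE3⟩ := hE
  have hlt : κ - 1 < n := by omega
  have htS : s (κ - 1) ∈ S := by
    rw [hP.img]
    exact ⟨κ - 1, hlt, rfl⟩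
  have hes : ∀ e ∈ E, e ∉ S := fun e he => (hE1 he).1
  have htE : s (κ - 1) ∉ E := fun h => hes _ h htS
  have hetn : ∀ e ∈ E, ¬ G.Adj e (s (κ - 1)) := by
    intro e he h
    have h1 := (hP.adj e (hes e he) (κ - 1) hlt).1 h
    have h2 : κ ≤ l e := (hE1 he).2
    omega
  have hta : ∀ b ∈ nb G E, G.Adj (s (κ - 1)) b := by
    rintro b ⟨hbE, e, he, heb⟩
    by_cases hbS : b ∈ S
    · refine hP.clq _ htS _ hbS ?_
      rintro rfl
      exact hetn e he heb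
    · by_contra hc
      have h1 : ¬ l b ≤ κ - 1 := fun h => hc ((hP.adj b hbS (κ - 1) hlt).2 h).symm
      exact hE3 b ⟨hbS, by omega⟩ ⟨hbE, e, he, heb⟩
  by_contra hc
  have ta := hta a ha
  have ta' := hta a' ha'
  obtain ⟨haE, e, he, hea⟩ := ha
  obtain ⟨haE', e', he', hea'⟩ := ha'
  have d : ∀ x y : V, x ≠ y → Disjoint ({x} : Set V) {y} :=
    fun x y h => Set.disjoint_singleton.2 h
  have dE : ∀ x : V, x ∉ E → Disjoint ({x} : Set V) E :=
    fun x h => Set.disjoint_singleton_left.2 h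
  refine hG (h0 V G {a} {s (κ - 1)} {a'} E (Conn.singleton G a) (Conn.singleton G _)
    (Conn.singleton G a') hE2 (d _ _ ta.ne') (d _ _ haa) (dE _ haE) (d _ _ ta'.ne) (dE _ htE)
    (dE _ haE') ⟨a, rfl, _, rfl, ta.symm⟩ ⟨_, rfl, a', rfl, ta'⟩ ⟨a', rfl, e', he', hea'.symm⟩
    ⟨a, rfl, e, he, hea.symm⟩ ?_ ?_)
  · rintro ⟨x, rfl, y, rfl, h⟩
    exact hc h
  · rintro ⟨x, rfl, y, hy, h⟩
    exact hetn y hy h.symm

end Pool.Agent.MPd439b2.H1P
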