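import Pool.Agent.Lib.MP_d439b2_co.H1P.Spec

/-!
# MP_d439b2_co, pair `(C_4, K3:0,1,02)`, Cn: no common neighbour
-/

set_option autoImplicit false

namespace Pool.Agent.MPd439b2.H1P

open Pool.Agent.MPd439b2 Pool.Agent.MPd439b2.LK

theorem cn (h0 : S_A0) : S_Cn := by
  intro V _ G S n s l u u' w hG hP hu hu' hw lu lu' lw hne hnadj huw hu'w
  have hn : 0 < n := by
    have := hP.le w hw
    omega
  have hs0 : s 0 ∈ S := by
    rw [hP.img]
    exact ⟨0, hn, rfl⟩
  have hus : G.Adj u (s 0) := (hP.adj u hu 0 hn).2 (by omega)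
  have hus' : G.Adj u' (s 0) := (hP.adj u' hu' 0 hn).2 (by omega)
  have hws : ¬ G.Adj w (s 0) := fun h => by
    have := (hP.adj w hw 0 hn).1 h
    omega
  have hwsne : w ≠ s 0 := by
    rintro h
    exact hw (h ▸ hs0)
  have hD : ∀ x y : V, x ≠ y → Disjoint ({x} : Set V) {y} :=
    fun x y h => Set.disjoint_singleton.2 h
  have hT : ∀ x y : V, Tch G {x} {y} ↔ G.Adj x y := by
    intro x y
    simp [Tch]
  exact hG (h0 V G {u} {w} {u'} {s 0} (Conn.singleton G _) (Conn.singleton G _)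
    (Conn.singleton G _) (Conn.singleton G _) (hD _ _ huw.ne) (hD _ _ hne) (hD _ _ hus.ne)
    (hD _ _ hu'w.ne.symm) (hD _ _ hwsne) (hD _ _ hus'.ne) ((hT _ _).2 huw)
    ((hT _ _).2 hu'w.symm) ((hT _ _).2 hus') ((hT _ _).2 hus)
    (fun h => hnadj ((hT _ _).1 h)) (fun h => hws ((hT _ _).1 h)))

end Pool.Agent.MPd439b2.H1P
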