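import Pool.Agent.Lib.MP_d439b2_co.H1P.Spec

/-!
# MP_d439b2_co, H1P: counting in the cut of step A
-/

set_option autoImplicit false

namespace Pool.Agent.MPd439b2.H1P

open Pool.Agent.MPd439b2 Pool.Agent.MPd439b2.LK

theorem cutA : S_CutA := by
  intro V _ G S n κ m s l E X₀ A₁ hPC hκ hE hA₁ htr hX₀
  have hES : ∀ e ∈ E, e ∉ S := fun e he => (hE.1 he).1
  have hEκ : ∀ e ∈ E, κ ≤ l e := fun e he => (hE.1 he).2
  have hsS : ∀ j, j < n → s j ∈ S := by
    intro j hj
    rw [hPC.img]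
    exact ⟨j, hj, rfl⟩
  constructor
  · have h1 : (s '' Set.Iio κ).ncard = κ := by
      rw [(hPC.inj.mono (Set.Iio_subset_Iio hκ)).ncard_image, Set.ncard_Iio_nat]
    have h2 : s '' Set.Iio κ ⊆ S ∩ (X₀ ∩ ((E ∪ nb G E)ᶜ ∪ A₁)) := by
      rintro x ⟨j, hj, rfl⟩
      have hj' : j < κ := hj
      have hjn : j < n := lt_of_lt_of_le hj' hκ
      refine ⟨hsS j hjn, hX₀ ⟨j, hj, rfl⟩, Or.inl ?_⟩
      rintro (h | h)
      · exact hES _ h (hsS j hjn)
      · obtain ⟨-, e, he, hadj⟩ := h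
        have h3 := (hPC.adj e (hES e he) j hjn).mp hadj
        have h4 := hEκ e he
        omega
    calc κ = (s '' Set.Iio κ).ncard := h1.symm
      _ ≤ _ := Set.ncard_le_ncard h2 (Set.toFinite _)
  · have hLn : ∀ a ∈ l '' E \ {n}, a < n := by
      rintro a ⟨⟨e, he, rfl⟩, hne⟩
      have h1 := hPC.le e (hES e he)
      exact lt_of_le_of_ne h1 hne
    have hfinE : (l '' E).Finite := (Set.toFinite E).image l
    have hLfin : (l '' E \ {n}).Finite := hfinE.subset Set.sdiff_subset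
    have h1 : (l '' E).ncard ≤ (l '' E \ {n}).ncard + 1 := by
      have h2 : l '' E ⊆ insert n (l '' E \ {n}) := by
        intro a ha
        by_cases h : a = n
        · exact Or.inl h
        · exact Or.inr ⟨ha, h⟩
      exact (Set.ncard_le_ncard h2 (hLfin.insert n)).trans (Set.ncard_insert_le _ _)
    have hinjL : Set.InjOn s (l '' E \ {n}) := hPC.inj.mono hLn
    have h2 : (s '' (l '' E \ {n})).ncard = (l '' E \ {n}).ncard :=
      hinjL.ncard_image
    have h3 : (s '' (l '' E \ {n}) ∩ A₁).ncard ≤ m := by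
      refine le_trans ?_ htr
      refine Set.ncard_le_ncard_of_injOn (fun t => {p | p ∈ E ∧ G.Adj t p}) ?_ ?_
        (Set.toFinite _)
      · rintro t ⟨-, ht⟩
        exact ⟨t, ht, rfl⟩
      · have key : ∀ a ∈ l '' E \ {n}, ∀ a' ∈ l '' E \ {n}, a < a' →
            {p | p ∈ E ∧ G.Adj (s a) p} ≠ {p | p ∈ E ∧ G.Adj (s a') p} := by
          rintro a ha a' ha' haa heq
          have han := hLn a ha
          have han' := hLn a' ha'
          obtain ⟨⟨e, he, rfl⟩, -⟩ := ha'
          have h4 : e ∈ {p | p ∈ E ∧ G.Adj (s (l e)) p} :=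
            ⟨he, ((hPC.adj e (hES e he) (l e) han').mpr le_rfl).symm⟩
          rw [← heq] at h4
          have h5 := (hPC.adj e (hES e he) a han).mp h4.2.symm
          omega
        rintro _ ⟨⟨a, ha, rfl⟩, -⟩ _ ⟨⟨a', ha', rfl⟩, -⟩ heq
        rcases lt_trichotomy a a' with h | h | h
        · exact absurd heq (key a ha a' ha' h)
        · rw [h]
        · exact absurd heq.symm (key a' ha' a ha h)
    have h4 : s '' (l '' E \ {n}) \ A₁ ⊆ S \ (X₀ ∩ ((E ∪ nb G E)ᶜ ∪ A₁)) := by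
      rintro _ ⟨⟨a, ha, rfl⟩, hA⟩
      have han := hLn a ha
      obtain ⟨⟨e, he, hea⟩, -⟩ := ha
      refine ⟨hsS a han, ?_⟩
      rintro ⟨-, h | h⟩
      · apply h
        refine Or.inr ⟨fun h' => hES _ h' (hsS a han), e, he, ?_⟩
        exact (hPC.adj e (hES e he) a han).mpr hea.le
      · exact hA h
    have h5 := Set.ncard_le_ncard h4 (Set.toFinite _)
    have h6 := Set.ncard_inter_add_ncard_sdiff_eq_ncard (s '' (l '' E \ {n})) A₁ (Set.toFinite _)
    omega

end Pool.Agent.MPd439b2.H1P
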