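import Pool.Agent.Lib.MP_d439b2_co.H1P.Spec

/-!
# MP_d439b2_co, H1P, D4: last step of all chains
-/

set_option autoImplicit false

namespace Pool.Agent.MPd439b2.H1P

open Pool.Agent.MPd439b2 Pool.Agent.MPd439b2.LK

/-- **D4** -/
theorem d4 (hM : S_Md1) : S_D4 := by
  intro V G g1 g3 g4 u2 u4 w3 hC h13 h14 h34 h21 h23 h24 h41 h43 h44 w31 w33 w34 h242 w32 w342
  exact hC.2 (hM V G g4 u2 g3 w3 u4 g1 h24.symm h34.symm h23 w34 h242.symm h14 h13
    (fun h => h21 h.symm) w32 w33 w342 w31 h44 h43 h41)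

end Pool.Agent.MPd439b2.H1P
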