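import Pool.Agent.Lib.MP_d439b2_co.H1P.Spec

/-!
# MP_d439b2_co, pair `(C_4, K3:0,1,02)`, Del: rule delta
-/

set_option autoImplicit false

namespace Pool.Agent.MPd439b2.H1P

open Pool.Agent.MPd439b2 Pool.Agent.MPd439b2.LK

theorem del (h1 : S_Md1) : S_Del := by
  intro V _ G S n s l u x y z hG hP hu hx hy hz lu lz lzx lxy huy hux huz hxy hxz hyz
  have hyn := hP.le y hy
  have hin : ∀ j, j < n → s j ∈ S := by
    intro j hj
    rw [hP.img]
    exact ⟨j, hj, rfl⟩
  have hsne : s (l x) ≠ s (l x - 1) := by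
    intro h
    have h2 : l x < n := by omega
    have h3 : l x - 1 < n := by omega
    have := hP.inj (Set.mem_Iio.2 h2) (Set.mem_Iio.2 h3) h
    omega
  refine hG.2 (h1 V G (s (l x)) u (s (l x - 1)) x y z ?_ ?_ ?_ ?_ huy.symm ?_ ?_
    (fun h => huz h.symm) (fun h => hux h.symm) ?_ hxy hxz ?_ ?_ hyz)
  · exact ((hP.adj u hu (l x) (by omega)).2 (by omega)).symm
  · exact hP.clq _ (hin _ (by omega)) _ (hin _ (by omega)) hsne
  · exact (hP.adj u hu (l x - 1) (by omega)).2 (by omega)
  · exact (hP.adj x hx (l x) (by omega)).2 le_rfl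
  · exact (hP.adj z hz (l x) (by omega)).2 (by omega)
  · exact (hP.adj z hz (l x - 1) (by omega)).2 (by omega)
  · intro h
    have := (hP.adj x hx (l x - 1) (by omega)).1 h
    omega
  · intro h
    have := (hP.adj y hy (l x) (by omega)).1 h
    omega
  · intro h
    have := (hP.adj y hy (l x - 1) (by omega)).1 h
    omega

end Pool.Agent.MPd439b2.H1P
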