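import Pool.Agent.Lib.MP_d439b2_co.H1P.Spec

/-!
# MP_d439b2_co, H1P/Dom: levels of components, domination
-/

set_option autoImplicit false

namespace Pool.Agent.MPd439b2.H1P

open Pool.Agent.MPd439b2 Pool.Agent.MPd439b2.LK

/-- **Dom.** -/
theorem dom : S_Mod → S_Dom := by
  intro hMod V _ G S n s l B' u v w hCl hPC hB hu hv hw hlu hlv
  by_contra hwB
  obtain ⟨hBW, hBc, hBn⟩ := hB
  have huA : u ∈ {y | y ∈ B' ∧ ¬ l w < l y} := ⟨hu, by omega⟩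
  obtain ⟨P, hPA, huP, hP, hPnb⟩ := exists_comp G huA
  have hPB : ∀ p ∈ P, p ∈ B' := fun p hp => (hPA hp).1
  have hPne : P ≠ B' := by
    intro h
    rw [← h] at hv
    exact (hPA hv).2 hlv
  obtain ⟨z, hz, y, hy, hzy⟩ := hBc.2 P hPB hP.1 hPne
  have hyl : l w < l y := by
    by_contra h
    exact hPnb y ⟨hy.1, h⟩ ⟨hy.2, z, hz, hzy⟩
  have hBS : ∀ b ∈ B', b ∉ S := fun b hb => (hBW hb).1
  have hB1 : ∀ b ∈ B', 1 ≤ l b := fun b hb => (hBW hb).2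
  have hln : l v ≤ n := hPC.le v (hBS v hv)
  have hu1 := hB1 u hu
  have hq : l w < n := by omega
  have hsS : ∀ j < n, s j ∈ S := fun j hj => hPC.img ▸ ⟨j, hj, rfl⟩
  have hsB : ∀ j < n, s j ∉ B' := fun j hj h => hBS _ h (hsS j hj)
  have hne : ∀ i < n, ∀ j < n, i ≠ j → s i ≠ s j := fun i hi j hj hij h =>
    hij (hPC.inj (Set.mem_Iio.2 hi) (Set.mem_Iio.2 hj) h)
  have hcl : ∀ i < n, ∀ j < n, i ≠ j → G.Adj (s i) (s j) := fun i hi j hj hij =>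
    hPC.clq _ (hsS i hi) _ (hsS j hj) (hne i hi j hj hij)
  have hwW : w ∈ Wa S l 1 := ⟨hw, by omega⟩
  have hwn : ∀ p ∈ B', ¬ G.Adj p w := fun p hp h => hBn w hwW ⟨hwB, p, hp, h⟩
  have hadj : ∀ x, x ∉ S → ∀ j, j < n → (G.Adj x (s j) ↔ l x ≤ j) := hPC.adj
  have h0 : ∀ x, x ∉ S → 1 ≤ l x → ¬ G.Adj x (s 0) := fun x hx h1 h => by
    have := (hadj x hx 0 (by omega)).1 h
    omega
  have hyB := hy.1
  refine hCl.2 (hMod V G P {s 0} (s (l w)) (s (l w - 1)) w y hP (Conn.singleton G _) ?_ ?_ ?_ ?_ ?_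
    ?_ ?_ ?_ ?_ ?_ ?_ ?_ ?_ ?_ ?_ ?_ ?_ ?_ ?_ ?_ ?_ ?_ ?_ ?_)
  · exact Set.disjoint_singleton_right.2 fun h => hsB 0 (by omega) (hPB _ h)
  · exact fun h => hsB _ hq (hPB _ h)
  · exact fun h => hsB _ (by omega) (hPB _ h)
  · exact fun h => hwB (hPB _ h)
  · exact hy.2
  · exact fun h => hne (l w) hq 0 (by omega) (by omega) h
  · exact fun h => hne (l w - 1) (by omega) 0 (by omega) (by omega) h
  · exact fun h => hw ((Set.mem_singleton_iff.1 h) ▸ hsS 0 (by omega))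
  · exact fun h => hBS y hyB ((Set.mem_singleton_iff.1 h) ▸ hsS 0 (by omega))
  · exact hcl _ hq _ (by omega) (by omega)
  · exact ⟨u, huP, (hadj u (hBS u hu) _ hq).2 (by omega)⟩
  · exact ⟨u, huP, (hadj u (hBS u hu) _ (by omega)).2 (by omega)⟩
  · exact (hadj w hw _ hq).2 le_rfl
  · exact ⟨z, hz, hzy⟩
  · exact ⟨s 0, rfl, hcl 0 (by omega) _ hq (by omega)⟩
  · exact ⟨s 0, rfl, hcl 0 (by omega) _ (by omega) (by omega)⟩
  · rintro p hp z' rfl
    exact h0 p (hBS p (hPB p hp)) (hB1 p (hPB p hp))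
  · intro h
    have := (hadj w hw _ (by omega)).1 h
    omega
  · exact fun p hp => hwn p (hPB p hp)
  · rintro z' rfl h
    exact h0 w hw (by omega) h.symm
  · exact fun h => hwn y hyB h.symm
  · intro h
    have := (hadj y (hBS y hyB) _ hq).1 h
    omega
  · intro h
    have := (hadj y (hBS y hyB) _ (by omega)).1 h
    omega
  · rintro z' rfl h
    exact h0 y (hBS y hyB) (hB1 y hyB) h.symm

end Pool.Agent.MPd439b2.H1P
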