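import Pool.Agent.Lib.MP_d439b2_co.H1P.Spec

/-!
# MP_d439b2_co, pair `(C_4, K3:0,1,02)`, L1: bad cliques contain linked sets
-/

set_option autoImplicit false

namespace Pool.Agent.MPd439b2.H1P

open Pool.Agent.MPd439b2 Pool.Agent.MPd439b2.LK

theorem l1 (h2 : S_A2) : S_L1 := by
  classical
  intro V _ G S c hS H
  obtain ⟨h0, hc, hsub, h1⟩ := h2 V G
  have hc' : ∀ X : Set V, cr G Xᶜ = cr G X := by
    intro X
    rw [Set.compl_eq_univ_sdiff]
    exact hc X (Set.subset_univ _)
  have hfin : {B : Set V | B ⊆ S ∧ B.ncard ≤ c + 1 ∧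
      ∀ X : Set V, (S ∩ X).ncard ≤ 2 * c → (B ∩ X).ncard ≤ cr G X}.Finite := Set.toFinite _
  obtain ⟨B, ⟨hBS, hBc, hB⟩, hmax⟩ := Set.exists_max_image _ Set.ncard hfin ⟨∅, by
    refine ⟨Set.empty_subset _, by rw [Set.ncard_empty]; omega, fun X _ => ?_⟩
    rw [Set.empty_inter, Set.ncard_empty]
    exact Nat.zero_le _⟩
  have hcard : B.ncard = c + 1 := by
    by_contra hne
    have hBc' : B.ncard ≤ c := by omega
    have tun : ∀ X Y : Set V, ((S ∩ X).ncard ≤ 2 * c ∧ cr G X = (B ∩ X).ncard) →
        ((S ∩ Y).ncard ≤ 2 * c ∧ cr G Y = (B ∩ Y).ncard) →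
        ((S ∩ (X ∪ Y)).ncard ≤ 2 * c ∧ cr G (X ∪ Y) = (B ∩ (X ∪ Y)).ncard) := by
      rintro X Y ⟨hX, hX'⟩ ⟨hY, hY'⟩
      have e1 := hsub X (Set.subset_univ _) Y (Set.subset_univ _)
      have e2 : (B ∩ (X ∩ Y)).ncard ≤ cr G (X ∩ Y) := by
        refine hB _ ((Set.ncard_le_ncard ?_ (Set.toFinite _)).trans hX)
        exact fun v hv => ⟨hv.1, hv.2.1⟩
      have e3 : (B ∩ (X ∪ Y)).ncard + (B ∩ (X ∩ Y)).ncard = (B ∩ X).ncard + (B ∩ Y).ncard := by
        rw [Set.inter_union_distrib_left, Set.inter_inter_distrib_left]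
        exact Set.ncard_union_add_ncard_inter _ _ (Set.toFinite _) (Set.toFinite _)
      have e4 : (B ∩ (X ∪ Y)).ncard ≤ B.ncard :=
        Set.ncard_le_ncard Set.inter_subset_left (Set.toFinite _)
      have e5 : (S ∩ (X ∪ Y)).ncard ≤ 2 * c := by
        rcases H (X ∪ Y) (by omega) with h | h
        · exact h
        · have e6 : (S ∩ (X ∪ Y)).ncard ≤ (S ∩ X).ncard + (S ∩ Y).ncard := by
            rw [Set.inter_union_distrib_left]
            exact Set.ncard_union_le _ _
          have e7 : (S ∩ (X ∪ Y)).ncard + (S \ (X ∪ Y)).ncard = S.ncard :=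
            Set.ncard_inter_add_ncard_sdiff_eq_ncard _ _ (Set.toFinite _)
          omega
      refine ⟨e5, ?_⟩
      have e8 := hB _ e5
      omega
    have hin : ∀ e ∈ S, ∃ X : Set V, e ∈ X ∧ (S ∩ X).ncard ≤ 2 * c ∧
        cr G X = (B ∩ X).ncard := by
      intro e he
      by_cases heB : e ∈ B
      · have hB1 : 1 ≤ B.ncard := by
          have h5 := (Set.ncard_pos (Set.toFinite B)).2 ⟨e, heB⟩
          omega
        have e1 : (S ∩ {e}).ncard ≤ 2 * c := by
          have := Set.ncard_le_ncard (Set.inter_subset_right (s := S) (t := {e})) (Set.toFinite _)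
          rw [Set.ncard_singleton] at this
          omega
        refine ⟨{e}, rfl, e1, ?_⟩
        have e2 := hB _ e1
        have e3 : B ∩ {e} = {e} := Set.inter_eq_right.2 (Set.singleton_subset_iff.2 heB)
        have e4 := h1 e (Set.mem_univ _)
        rw [e3, Set.ncard_singleton] at e2 ⊢
        omega
      · by_contra hcon
        push Not at hcon
        have hgood : insert e B ∈ {B : Set V | B ⊆ S ∧ B.ncard ≤ c + 1 ∧
            ∀ X : Set V, (S ∩ X).ncard ≤ 2 * c → (B ∩ X).ncard ≤ cr G X} := by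
          refine ⟨Set.insert_subset he hBS, ?_, ?_⟩
          · rw [Set.ncard_insert_of_notMem heB (Set.toFinite _)]
            omega
          · intro X hX
            have e1 := hB X hX
            by_cases heX : e ∈ X
            · have e2 := hcon X heX hX
              have e3 : (insert e B ∩ X).ncard ≤ (B ∩ X).ncard + 1 := by
                refine (Set.ncard_le_ncard ?_ (Set.toFinite _)).trans
                  (Set.ncard_insert_le e (B ∩ X))
                rintro v ⟨rfl | hv, hv'⟩
                · exact Or.inl rfl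
                · exact Or.inr ⟨hv, hv'⟩
              omega
            · refine (Set.ncard_le_ncard ?_ (Set.toFinite _)).trans e1
              rintro v ⟨rfl | hv, hv'⟩
              · exact absurd hv' heX
              · exact ⟨hv, hv'⟩
        have e1 := hmax _ hgood
        rw [Set.ncard_insert_of_notMem heB (Set.toFinite _)] at e1
        omega
    have hall : ∀ F : Set V, F ⊆ S → ∃ X : Set V, F ⊆ X ∧ (S ∩ X).ncard ≤ 2 * c ∧
        cr G X = (B ∩ X).ncard := by
      intro F
      induction F, Set.toFinite F using Set.Finite.induction_on with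
      | empty =>
        intro _
        refine ⟨∅, Set.Subset.rfl, ?_, ?_⟩
        · rw [Set.inter_empty, Set.ncard_empty]
          omega
        · rw [Set.inter_empty, Set.ncard_empty]
          exact h0
      | @insert e F heF hF ih =>
        intro hFS
        obtain ⟨X, hX, hX'⟩ := ih fun v hv => hFS (Or.inr hv)
        obtain ⟨Y, hY, hY'⟩ := hin e (hFS (Or.inl rfl))
        refine ⟨X ∪ Y, ?_, tun X Y hX' hY'⟩
        rintro v (rfl | hv)
        · exact Or.inr hY
        · exact Or.inl (hX hv)
    obtain ⟨Z, hZ, hZ', -⟩ := hall S Set.Subset.rfl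
    rw [Set.inter_eq_left.2 hZ] at hZ'
    omega
  refine ⟨B, hBS, hcard, fun X => ?_⟩
  rw [one_mul]
  by_cases hX : c + 1 ≤ cr G X
  · refine (min_le_left _ _).trans ?_
    have e1 : (B ∩ X).ncard ≤ B.ncard :=
      Set.ncard_le_ncard Set.inter_subset_left (Set.toFinite _)
    omega
  · rcases H X (by omega) with h | h
    · exact (min_le_left _ _).trans (hB X h)
    · refine (min_le_right _ _).trans ?_
      have e1 := hB Xᶜ (by
        rw [← Set.sdiff_eq]
        exact h)
      rwa [hc', ← Set.sdiff_eq] at e1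

end Pool.Agent.MPd439b2.H1P
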