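import Pool.Agent.Lib.MP_d439b2_co.H1P.Spec

/-!
# MP_d439b2_co, pair `(C_4, K3:0,1,02)`, L2: relatively independent sets are linked
-/

set_option autoImplicit false

namespace Pool.Agent.MPd439b2.H1P

open Pool.Agent.MPd439b2 Pool.Agent.MPd439b2.LK

theorem l2 (h2 : S_A2) : S_L2 := by
  intro V _ G S₀ J q hd hS hJ
  obtain ⟨-, hc, hsub, h1⟩ := h2 V G
  have hc' : ∀ X : Set V, cr G Xᶜ = cr G X := by
    intro X
    rw [Set.compl_eq_univ_sdiff]
    exact hc X (Set.subset_univ _)
  have h0 : ∀ (X T : Set V), cr G (X ∪ T) ≤ cr G X + T.ncard := by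
    intro X T
    induction T, Set.toFinite T using Set.Finite.induction_on with
    | empty => rw [Set.union_empty, Set.ncard_empty, add_zero]
    | @insert t T ht hT ih =>
      rw [Set.ncard_insert_of_notMem ht hT]
      have h3 := hsub (X ∪ T) (Set.subset_univ _) {t} (Set.subset_univ _)
      have h4 := h1 t (Set.mem_univ _)
      have h5 : X ∪ insert t T = X ∪ T ∪ {t} := by
        rw [Set.insert_eq, Set.union_comm {t} T, Set.union_assoc]
      rw [h5]
      omega
  have key : ∀ X : Set V, (S₀ \ X).ncard ≤ q * cr G X → (J \ X).ncard ≤ (q + 1) * cr G X := by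
    intro X hX
    have h3 := h0 X (S₀ \ X)
    rw [Set.union_sdiff_self] at h3
    have h4 := hJ (X ∪ S₀) Set.subset_union_right
    have h5 : J \ (X ∪ S₀) = J \ X := by
      ext v
      constructor
      · rintro ⟨h, h'⟩
        exact ⟨h, fun hx => h' (Or.inl hx)⟩
      · rintro ⟨h, h'⟩
        refine ⟨h, ?_⟩
        rintro (hx | hx)
        · exact h' hx
        · exact Set.disjoint_left.1 hd hx h
    rw [h5] at h4
    rw [add_mul, one_mul]
    omega
  intro X
  have h3 := hS X
  rcases min_le_iff.1 h3 with h4 | h4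
  · refine (min_le_left _ _).trans ?_
    have h5 := key Xᶜ (by
      rw [hc', Set.sdiff_compl]
      exact h4)
    rwa [hc', Set.sdiff_compl] at h5
  · exact (min_le_right _ _).trans (key X h4)

end Pool.Agent.MPd439b2.H1P
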