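import Pool.Agent.Lib.MP_d439b2_co.H1P.Spec

/-!
# MP_d439b2_co, H1P, L3: maximal rainbow sets
-/

set_option autoImplicit false

namespace Pool.Agent.MPd439b2.H1P

open Pool.Agent.MPd439b2 Pool.Agent.MPd439b2.LK

namespace l3Aux

variable {V : Type} {G : SimpleGraph V}

theorem ind_sub [Finite V] {S₀ J J' : Set V} (h : Ind G S₀ J) (hJ : J' ⊆ J) : Ind G S₀ J' :=
  fun X hX => (Set.ncard_le_ncard (Set.sdiff_subset_sdiff_left hJ) (Set.toFinite _)).trans (h X hX)

theorem dst_sub {P J J' : Set V} (h : Dst G P J) (hJ : J' ⊆ J) : Dst G P J' :=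
  fun a ha b hb hab => h a (hJ ha) b (hJ hb) hab

/-- the trace -/
def tr (G : SimpleGraph V) (P : Set V) (a : V) : Set V := {p | p ∈ P ∧ G.Adj a p}

theorem tr_ne {P : Set V} {a b : V} (h : tr G P a ≠ tr G P b) : ∃ p ∈ P, ¬ (G.Adj p a ↔ G.Adj p b) := by
  by_contra hcon
  push Not at hcon
  apply h
  ext p
  constructor
  · rintro ⟨hp, hap⟩
    exact ⟨hp, ((hcon p hp).1 hap.symm).symm⟩
  · rintro ⟨hp, hap⟩
    exact ⟨hp, ((hcon p hp).2 hap.symm).symm⟩

theorem dst_insert {P J : Set V} {a : V} (h : Dst G P J) (ha : ∀ j ∈ J, tr G P a ≠ tr G P j) :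
    Dst G P (insert a J) := by
  rintro x (rfl | hx) y (rfl | hy) hxy
  · exact absurd rfl hxy
  · exact tr_ne (ha y hy)
  · exact tr_ne (ha x hx).symm
  · exact h x hx y hy hxy

theorem trc_le [Finite V] {P A J : Set V} :
    (Trc G P {a | a ∈ A ∧ ∃ j ∈ J, tr G P a = tr G P j}).ncard ≤ J.ncard := by
  have h1 : Trc G P {a | a ∈ A ∧ ∃ j ∈ J, tr G P a = tr G P j} ⊆ tr G P '' J := by
    rintro T ⟨a, ⟨-, j, hj, haj⟩, rfl⟩
    exact ⟨j, hj, haj.symm⟩
  exact (Set.ncard_le_ncard h1 (Set.toFinite _)).trans (Set.ncard_image_le (Set.toFinite _))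

/-- tight sets -/
def Tight (G : SimpleGraph V) (S₀ J X : Set V) : Prop := S₀ ⊆ X ∧ cr G X = (J \ X).ncard

theorem tight_inter [Finite V] {S₀ J X Y : Set V} (hCF : CF Set.univ (cr G)) (hI : Ind G S₀ J)
    (hX : Tight G S₀ J X) (hY : Tight G S₀ J Y) : Tight G S₀ J (X ∩ Y) := by
  have h0 : S₀ ⊆ X ∩ Y := Set.subset_inter hX.1 hY.1
  refine ⟨h0, ?_⟩
  have h1 := hCF.2.2.1 X (Set.subset_univ _) Y (Set.subset_univ _)
  have h2 := hI (X ∪ Y) (hX.1.trans Set.subset_union_left)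
  have h3 := hI (X ∩ Y) h0
  have h4 := Set.ncard_union_add_ncard_inter (J \ X) (J \ Y) (Set.toFinite _) (Set.toFinite _)
  have h5 : (J \ X) ∪ (J \ Y) = J \ (X ∩ Y) := by
    ext v
    simp only [Set.mem_union, Set.mem_sdiff, Set.mem_inter_iff]
    tauto
  have h6 : (J \ X) ∩ (J \ Y) = J \ (X ∪ Y) := by
    ext v
    simp only [Set.mem_union, Set.mem_sdiff, Set.mem_inter_iff]
    tauto
  rw [h5, h6] at h4
  rw [hX.2, hY.2] at h1
  omega

end l3Aux

open l3Aux in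
theorem l3 (hA2 : S_A2) : S_L3 := by
  classical
  intro V _ G S₀ P Q A m
  have hCF := hA2 V G
  have hc0 : cr G Set.univ = 0 := by
    have h1 := hCF.2.1 ∅ (Set.subset_univ _)
    rw [Set.sdiff_empty] at h1
    rw [h1]
    exact hCF.1
  obtain ⟨J, hJ, hmax⟩ := Set.exists_max_image {J : Set V | J ⊆ A ∧ Ind G S₀ J ∧ Dst G P J ∧ Dst G Q J}
    Set.ncard (Set.toFinite _) ⟨∅, Set.empty_subset _, fun X _ => by simp,
      fun a ha => absurd ha (Set.notMem_empty a), fun a ha => absurd ha (Set.notMem_empty a)⟩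
  obtain ⟨hJA, hJI, hJP, hJQ⟩ := hJ
  by_cases hm : m ≤ J.ncard
  · left
    obtain ⟨J', hJ', hc⟩ := Set.exists_subset_card_eq hm
    exact ⟨J', hJ'.trans hJA, hc, ind_sub hJI hJ', dst_sub hJP hJ', dst_sub hJQ hJ'⟩
  right
  push Not at hm
  obtain ⟨X₀, hX₀, hmin⟩ := Set.exists_min_image {X : Set V | Tight G S₀ J X} Set.ncard (Set.toFinite _)
    ⟨Set.univ, Set.subset_univ _, by rw [hc0]; simp⟩
  have hX₀' : Tight G S₀ J X₀ := hX₀
  have hsub : ∀ Y, Tight G S₀ J Y → X₀ ⊆ Y := by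
    intro Y hY
    have h1 := hmin (X₀ ∩ Y) (tight_inter hCF hJI hX₀' hY)
    have h2 := Set.eq_of_subset_of_ncard_le (Set.inter_subset_left : X₀ ∩ Y ⊆ X₀) h1 (Set.toFinite _)
    rw [← h2]
    exact Set.inter_subset_right
  refine ⟨X₀, {a | a ∈ A ∧ ∃ j ∈ J, tr G P a = tr G P j}, {a | a ∈ A ∧ ∃ j ∈ J, tr G Q a = tr G Q j},
    hX₀'.1, ?_, fun a ha => ha.1, fun a ha => ha.1, ?_, trc_le.trans hm.le, trc_le.trans hm.le⟩
  · rw [hX₀'.2]
    exact (Set.ncard_le_ncard Set.sdiff_subset (Set.toFinite _)).trans hm.le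
  · rintro a ⟨haA, haX⟩
    by_contra hcon
    rw [Set.mem_union, not_or] at hcon
    obtain ⟨h1, h2⟩ := hcon
    have h1' : ∀ j ∈ J, tr G P a ≠ tr G P j := fun j hj h => h1 ⟨haA, j, hj, h⟩
    have h2' : ∀ j ∈ J, tr G Q a ≠ tr G Q j := fun j hj h => h2 ⟨haA, j, hj, h⟩
    have haJ : a ∉ J := fun h => h1' a h rfl
    have hnI : ¬ Ind G S₀ (insert a J) := by
      intro hI
      have h3 := hmax (insert a J) ⟨Set.insert_subset haA hJA, hI, dst_insert hJP h1', dst_insert hJQ h2'⟩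
      rw [Set.ncard_insert_of_notMem haJ (Set.toFinite _)] at h3
      omega
    unfold Ind at hnI
    push Not at hnI
    obtain ⟨X, hX, hlt⟩ := hnI
    have h4 := hJI X hX
    have haX' : a ∉ X := by
      intro h
      have h5 : insert a J \ X = J \ X := by
        ext v
        simp only [Set.mem_sdiff, Set.mem_insert_iff]
        constructor
        · rintro ⟨rfl | h6, h7⟩
          · exact absurd h h7
          · exact ⟨h6, h7⟩
        · rintro ⟨h6, h7⟩
          exact ⟨Or.inr h6, h7⟩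
      rw [h5] at hlt
      omega
    have h5 : insert a J \ X = insert a (J \ X) := by
      ext v
      simp only [Set.mem_sdiff, Set.mem_insert_iff]
      constructor
      · rintro ⟨rfl | h6, h7⟩
        · exact Or.inl rfl
        · exact Or.inr ⟨h6, h7⟩
      · rintro (rfl | ⟨h6, h7⟩)
        · exact ⟨Or.inl rfl, haX'⟩
        · exact ⟨Or.inr h6, h7⟩
    rw [h5, Set.ncard_insert_of_notMem (fun h => haJ h.1) (Set.toFinite _)] at hlt
    exact haX' (hsub X ⟨hX, by omega⟩ haX)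

end Pool.Agent.MPd439b2.H1P
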