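import Pool.Agent.Lib.MP_d439b2_co.H1P.Spec

/-!
# MP_d439b2_co, H1P/L4: a rank bound
-/

set_option autoImplicit false

namespace Pool.Agent.MPd439b2.H1P

open Pool.Agent.MPd439b2 Pool.Agent.MPd439b2.LK

/-- **L4.** -/
theorem l4 : LK.S_A1 → S_L4 := by
  intro hA1 V _ G P B Q A₁ A₂ m hPQ hB hA hP hQ
  obtain ⟨h1, h2, h3, h4, h5, h6⟩ := hA1 V G
  have e1 : rk G Q P ≤ 0 := by
    have := h6 Q P ∅ fun a ha => Or.inr fun b hb h => hPQ b hb a ha h.symm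
    simpa using this
  have e2 : rk G A₁ P ≤ m := by
    refine (h6 A₁ P (Trc G P A₁) fun a ha => Or.inl ⟨a, ha, rfl⟩).trans hP
  have e3 : rk G P (Q ∪ A₁) ≤ m := by
    rw [h1]
    have := h3 Q A₁ P
    omega
  have e4 : rk G B (Q ∪ A₁) ≤ 1 :=
    h5 B (Q ∪ A₁) Set.univ fun a ha => Or.inl fun b hb => iff_of_true (hB a ha b hb) trivial
  have e5 : rk G Q A₂ ≤ m := by
    rw [h1]
    exact (h6 A₂ Q (Trc G Q A₂) fun a ha => Or.inl ⟨a, ha, rfl⟩).trans hQ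
  have e6 : rk G A₁ A₂ ≤ 1 :=
    h5 A₁ A₂ Set.univ fun a ha => Or.inl fun b hb => iff_of_true (hA b hb a ha).symm trivial
  have e7 : rk G A₂ (Q ∪ A₁) ≤ m + 1 := by
    rw [h1]
    have := h3 Q A₁ A₂
    omega
  have e8 := h3 (P ∪ B) A₂ (Q ∪ A₁)
  have e9 := h3 P B (Q ∪ A₁)
  omega

end Pool.Agent.MPd439b2.H1P
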