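import Pool.Agent.Lib.MP_d439b2_co.H1P.Spec

/-!
# MP_d439b2_co, pair `(C_4, K3:0,1,02)`, L5: the rainbow theorem
-/

set_option autoImplicit false

namespace Pool.Agent.MPd439b2.H1P

open Pool.Agent.MPd439b2 Pool.Agent.MPd439b2.LK

theorem l5 : LK.S_A1 → S_L3 → S_L4 → S_L5 := by
  intro hA1 hL3 hL4 V _ G S₀ P B Q A m huniv hPQ hBQ hA
  obtain ⟨sym, mono, uni, -, -, -⟩ := hA1 V G
  rcases hL3 V G S₀ P Q A m with h | ⟨X₀, A₁, A₂, hS, hcr, hA₁, hA₂, hAX, hT₁, hT₂⟩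
  · exact Or.inl h
  refine Or.inr ⟨X₀, A₁, hS, hA₁, hT₁, ?_⟩
  have hsub : X₀ \ (Q ∪ A₁) ⊆ P ∪ B ∪ (A₂ \ A₁) := by
    rintro v ⟨hv, hvn⟩
    have hv' : v ∈ P ∪ B ∪ Q ∪ A := by
      rw [huniv]
      exact Set.mem_univ v
    rcases hv' with ((h | h) | h) | h
    · exact Or.inl (Or.inl h)
    · exact Or.inl (Or.inr h)
    · exact absurd (Or.inl h) hvn
    · rcases hAX ⟨h, hv⟩ with h' | h'
      · exact absurd (Or.inr h') hvn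
      · exact Or.inr ⟨h', fun h'' => hvn (Or.inr h'')⟩
  have hT₂' : (Trc G Q (A₂ \ A₁)).ncard ≤ m := by
    refine le_trans (Set.ncard_le_ncard ?_ (Set.toFinite _)) hT₂
    rintro T ⟨a, ha, rfl⟩
    exact ⟨a, ha.1, rfl⟩
  have hrk : rk G (P ∪ B ∪ (A₂ \ A₁)) (Q ∪ A₁) ≤ 2 * m + 2 := by
    refine hL4 V G P B Q A₁ (A₂ \ A₁) m hPQ ?_ ?_ hT₁ hT₂'
    · rintro b hb x (hx | hx)
      · exact hBQ b hb x (Or.inl hx)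
      · exact hBQ b hb x (Or.inr (hA₁ hx))
    · rintro a ⟨ha, hna⟩ x hx
      exact hA a (hA₂ ha) x (hA₁ hx) fun h => hna (h ▸ hx)
  have hbase : rk G X₀ᶜ X₀ ≤ m := by
    rw [sym]
    exact hcr
  have hmid : rk G (X₀ \ (Q ∪ A₁)) (X₀ ∩ (Q ∪ A₁)) ≤ 2 * m + 2 :=
    le_trans (mono _ _ _ _ hsub Set.inter_subset_right) hrk
  constructor
  · have e1 : (X₀ ∩ (Q ∪ A₁))ᶜ ⊆ X₀ᶜ ∪ (X₀ \ (Q ∪ A₁)) := by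
      intro v hv
      by_cases h : v ∈ X₀
      · exact Or.inr ⟨h, fun h' => hv ⟨h, h'⟩⟩
      · exact Or.inl h
    have e2 : cr G (X₀ ∩ (Q ∪ A₁)) ≤ rk G (X₀ᶜ ∪ (X₀ \ (Q ∪ A₁))) (X₀ ∩ (Q ∪ A₁)) := by
      unfold cr
      rw [sym]
      exact mono _ _ _ _ e1 subset_rfl
    have e3 := uni X₀ᶜ (X₀ \ (Q ∪ A₁)) (X₀ ∩ (Q ∪ A₁))
    have e4 : rk G X₀ᶜ (X₀ ∩ (Q ∪ A₁)) ≤ rk G X₀ᶜ X₀ :=
      mono _ _ _ _ subset_rfl Set.inter_subset_left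
    omega
  · have e1 : (X₀ \ (Q ∪ A₁))ᶜ ⊆ X₀ᶜ ∪ (X₀ ∩ (Q ∪ A₁)) := by
      intro v hv
      by_cases h : v ∈ X₀
      · refine Or.inr ⟨h, ?_⟩
        by_contra h'
        exact hv ⟨h, h'⟩
      · exact Or.inl h
    have e2 : cr G (X₀ \ (Q ∪ A₁)) ≤ rk G (X₀ᶜ ∪ (X₀ ∩ (Q ∪ A₁))) (X₀ \ (Q ∪ A₁)) := by
      unfold cr
      rw [sym]
      exact mono _ _ _ _ e1 subset_rfl
    have e3 := uni X₀ᶜ (X₀ ∩ (Q ∪ A₁)) (X₀ \ (Q ∪ A₁))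
    have e4 : rk G X₀ᶜ (X₀ \ (Q ∪ A₁)) ≤ rk G X₀ᶜ X₀ :=
      mono _ _ _ _ subset_rfl Set.sdiff_subset
    have e5 : rk G (X₀ ∩ (Q ∪ A₁)) (X₀ \ (Q ∪ A₁)) ≤ 2 * m + 2 := by
      rw [sym]
      exact hmid
    omega

end Pool.Agent.MPd439b2.H1P
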