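import Pool.Agent.Lib.MP_d439b2_co.H1P.Spec

/-!
# MP_d439b2_co, H1P, LnkB: bounded width if linked cliques are bounded
-/

set_option autoImplicit false

namespace Pool.Agent.MPd439b2.H1P

open Pool.Agent.MPd439b2 Pool.Agent.MPd439b2.LK

/-- **LnkB** -/
theorem lnkB : S_A12 → S_L1 → S_LnkB := by
  intro hA hL 𝒞 hCh hN
  obtain ⟨N, hN⟩ := hN
  obtain ⟨k, hk⟩ := hA N (6 * N + 1)
  refine ⟨k, fun V _ G hG => hk V G (hCh V G hG) fun S hS hcard => ?_⟩
  by_contra hcon
  push Not at hcon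
  obtain ⟨B, hBS, hB, hLnk⟩ := hL V G S N (by omega) (by
    intro X hX
    by_contra h
    push Not at h
    have := hcon X hX h.1
    omega)
  have h1 : CompleteOn G B := fun a ha b hb hab => hS a (hBS ha) b (hBS hb) hab
  have := hN V G B hG h1 hLnk
  omega

end Pool.Agent.MPd439b2.H1P
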