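import Pool.Agent.Lib.MP_d439b2_co.H1P.Spec

/-!
# MP_d439b2_co, H1P, Md1: model of `K3:0,1,02` by vertices
-/

set_option autoImplicit false

namespace Pool.Agent.MPd439b2.H1P

open Pool.Agent.MPd439b2 Pool.Agent.MPd439b2.LK

/-- **Md1** -/
theorem md1 (hM : S_Mod) : S_Md1 := by
  intro V G a b c x y z hab hac hbc hxa hyb hza hzc hzb hxb hxc hxy hxz hya hyc hyz
  have nab : a ≠ b := G.ne_of_adj hab
  have ncb : c ≠ b := (G.ne_of_adj hbc).symm
  have nxb : x ≠ b := by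
    rintro rfl
    exact hxc hbc
  have nyb : y ≠ b := G.ne_of_adj hyb
  have nza : a ≠ z := (G.ne_of_adj hza).symm
  have nzc : c ≠ z := (G.ne_of_adj hzc).symm
  have nzb : z ≠ b := by
    rintro rfl
    exact hyz hyb
  have nxz : x ≠ z := by
    rintro rfl
    exact hxc hzc
  have nyz : y ≠ z := by
    rintro rfl
    exact hya hza
  refine hM V G {b} {z} a c x y (Conn.singleton G b) (Conn.singleton G z)
    (Set.disjoint_singleton.2 nzb.symm) nab ncb nxb nyb nza nzc nxz nyz hac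
    ⟨b, rfl, hab.symm⟩ ⟨b, rfl, hbc⟩ hxa ⟨b, rfl, hyb.symm⟩ ⟨z, rfl, hza⟩ ⟨z, rfl, hzc⟩ ?_ hxc ?_ ?_
    hxy hya hyc ?_
  · rintro p rfl q rfl h
    exact hzb h.symm
  · rintro p rfl h
    exact hxb h.symm
  · rintro p rfl h
    exact hxz h.symm
  · rintro p rfl h
    exact hyz h.symm

end Pool.Agent.MPd439b2.H1P
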