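import Pool.Agent.Lib.MP_d439b2_co.H1P.Spec

/-!
# MP_d439b2_co, H1P, Mod: model of `K3:0,1,02`
-/

set_option autoImplicit false

namespace Pool.Agent.MPd439b2.H1P

open Pool.Agent.MPd439b2 Pool.Agent.MPd439b2.LK

namespace ModAux

variable {V : Type} {G : SimpleGraph V}

/-- the model of `K3:0,1,02` from six sets -/
theorem model {P Q R X Y Z : Set V} (cP : Conn G P) (cQ : Conn G Q) (cR : Conn G R)
    (cX : Conn G X) (cY : Conn G Y) (cZ : Conn G Z)
    (dPQ : Disjoint P Q) (dPR : Disjoint P R) (dQR : Disjoint Q R)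
    (dPX : Disjoint P X) (dQX : Disjoint Q X) (dRX : Disjoint R X)
    (dPY : Disjoint P Y) (dQY : Disjoint Q Y) (dRY : Disjoint R Y)
    (dPZ : Disjoint P Z) (dQZ : Disjoint Q Z) (dRZ : Disjoint R Z)
    (dXY : Disjoint X Y) (dXZ : Disjoint X Z) (dYZ : Disjoint Y Z)
    (tPQ : Tch G P Q) (tPR : Tch G P R) (tQR : Tch G Q R)
    (tPX : Tch G P X) (tQX : ¬ Tch G Q X) (tRX : ¬ Tch G R X)
    (tPY : ¬ Tch G P Y) (tQY : Tch G Q Y) (tRY : ¬ Tch G R Y)
    (tPZ : Tch G P Z) (tQZ : ¬ Tch G Q Z) (tRZ : Tch G R Z)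
    (tXY : ¬ Tch G X Y) (tXZ : ¬ Tch G X Z) (tYZ : ¬ Tch G Y Z) :
    IMS (KA 3 3 ![{0}, {1}, {0, 2}]) G Set.univ := by
  have hd : ∀ i j : Fin 3, i ≠ j → Disjoint ((![P, Q, R] : Fin 3 → Set V) i)
      ((![P, Q, R] : Fin 3 → Set V) j) := by
    intro i j hij
    fin_cases i <;> fin_cases j <;> first
      | exact absurd rfl hij
      | assumption
      | (apply Disjoint.symm; assumption)
  have ht : ∀ i j : Fin 3, i ≠ j → Tch G ((![P, Q, R] : Fin 3 → Set V) i)
      ((![P, Q, R] : Fin 3 → Set V) j) := by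
    intro i j hij
    fin_cases i <;> fin_cases j <;> first
      | exact absurd rfl hij
      | assumption
      | (apply Tch.symm; assumption)
  have hd' : ∀ (i j : Fin 3), Disjoint ((![P, Q, R] : Fin 3 → Set V) i)
      ((![X, Y, Z] : Fin 3 → Set V) j) := by
    intro i j
    fin_cases i <;> fin_cases j <;> assumption
  have ht' : ∀ (i j : Fin 3), i ∈ (![{0}, {1}, {0, 2}] : Fin 3 → Set (Fin 3)) j ↔
      Tch G ((![P, Q, R] : Fin 3 → Set V) i) ((![X, Y, Z] : Fin 3 → Set V) j) := by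
    intro i j
    fin_cases i <;> fin_cases j <;> simp <;> assumption
  have hdd : ∀ i j : Fin 3, i ≠ j → Disjoint ((![X, Y, Z] : Fin 3 → Set V) i)
      ((![X, Y, Z] : Fin 3 → Set V) j) := by
    intro i j hij
    fin_cases i <;> fin_cases j <;> first
      | exact absurd rfl hij
      | assumption
      | (apply Disjoint.symm; assumption)
  have htt : ∀ i j : Fin 3, i ≠ j → ¬ Tch G ((![X, Y, Z] : Fin 3 → Set V) i)
      ((![X, Y, Z] : Fin 3 → Set V) j) := by
    intro i j hij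
    fin_cases i <;> fin_cases j <;> first
      | exact absurd rfl hij
      | assumption
      | (intro h; exact tXY h.symm)
      | (intro h; exact tXZ h.symm)
      | (intro h; exact tYZ h.symm)
  refine ⟨Sum.elim ![P, Q, R] ![X, Y, Z], fun _ => Set.subset_univ _, ?_, ?_, ?_⟩
  · rintro (w | w) <;> fin_cases w <;> assumption
  · rintro (w | w) (w' | w') hw
    · exact hd w w' fun h => hw (congrArg _ h)
    · exact hd' w w'
    · exact (hd' w' w).symm
    · exact hdd w w' fun h => hw (congrArg _ h)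
  · rintro (w | w) (w' | w') hw
    · have h : w ≠ w' := fun h => hw (congrArg _ h)
      exact iff_of_true h (ht w w' h)
    · exact ht' w w'
    · exact (ht' w' w).trans tch_comm
    · have h : w ≠ w' := fun h => hw (congrArg _ h)
      exact iff_of_false (fun h => h) (htt w w' h)

end ModAux

open ModAux in
/-- **Mod** -/
theorem mod : S_Mod := by
  intro V G P Z a c x y cP cZ dPZ haP hcP hxP hyP haZ hcZ hxZ hyZ hac hPa hPc hxa hPy hZa hZc hPZ
    hxc hPx hZx hxy hya hyc hZy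
  have nac : a ≠ c := G.ne_of_adj hac
  have nxa : x ≠ a := G.ne_of_adj hxa
  have nxc : x ≠ c := by
    rintro rfl
    obtain ⟨p, hp, h⟩ := hPc
    exact hPx p hp h
  have nxy : x ≠ y := by
    rintro rfl
    obtain ⟨p, hp, h⟩ := hPy
    exact hPx p hp h
  have nya : y ≠ a := by
    rintro rfl
    exact hyc hac
  have nyc : y ≠ c := by
    rintro rfl
    exact hya hac.symm
  have dS : ∀ u v : V, u ≠ v → Disjoint ({u} : Set V) {v} := fun u v h =>
    Set.disjoint_singleton.2 h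
  have dL : ∀ (u : V) (A : Set V), u ∉ A → Disjoint ({u} : Set V) A := fun u A h =>
    Set.disjoint_singleton_left.2 h
  have tS : ∀ u v : V, G.Adj u v → Tch G {u} {v} := fun u v h => ⟨u, rfl, v, rfl, h⟩
  have ntS : ∀ u v : V, ¬ G.Adj u v → ¬ Tch G {u} {v} := by
    rintro u v h ⟨_, rfl, _, rfl, h'⟩
    exact h h'
  have tR : ∀ (A : Set V) (u : V), (∃ p ∈ A, G.Adj p u) → Tch G A {u} := by
    rintro A u ⟨p, hp, h⟩
    exact ⟨p, hp, u, rfl, h⟩
  have ntR : ∀ (A : Set V) (u : V), (∀ p ∈ A, ¬ G.Adj p u) → ¬ Tch G A {u} := by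
    rintro A u h ⟨p, hp, _, rfl, h'⟩
    exact h p hp h'
  refine model (P := {a}) (Q := P) (R := {c}) (X := {x}) (Y := {y}) (Z := Z)
    (Conn.singleton G a) cP (Conn.singleton G c) (Conn.singleton G x) (Conn.singleton G y) cZ
    (dL a P haP) (dS a c nac) (dL c P hcP).symm (dS a x nxa.symm) (dL x P hxP).symm
    (dS c x nxc.symm) (dS a y nya.symm) (dL y P hyP).symm (dS c y nyc.symm) (dL a Z haZ) dPZ
    (dL c Z hcZ) (dS x y nxy) (dL x Z hxZ) (dL y Z hyZ)
    (tR P a hPa).symm (tS a c hac) (tR P c hPc) (tS a x hxa.symm) (ntR P x hPx)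
    (ntS c x fun h => hxc h.symm) (ntS a y fun h => hya h.symm) (tR P y hPy)
    (ntS c y fun h => hyc h.symm) (tR Z a hZa).symm ?_ (tR Z c hZc).symm (ntS x y hxy)
    (fun h => ntR Z x hZx h.symm) (fun h => ntR Z y hZy h.symm)
  rintro ⟨p, hp, z, hz, h⟩
  exact hPZ p hp z hz h

end Pool.Agent.MPd439b2.H1P
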