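import Pool.Agent.Lib.MP_d439b2_co.H1P.Spec

/-!
# MP_d439b2_co, H1P: Prt, the parts (helper50)
-/

set_option autoImplicit false

namespace Pool.Agent.MPd439b2.H1P

open Pool.Agent.MPd439b2 Pool.Agent.MPd439b2.LK

private theorem prtSub {V : Type} {G : SimpleGraph V} {A C D : Set V} (hC : IsComp G A C)
    (hD : IsComp G A D) {v : V} (hvC : v ∈ C) (hvD : v ∈ D) : C ⊆ D := by
  have h1 : C ∩ D = C := hC.2.1.eq_of_nb Set.inter_subset_left ⟨v, hvC, hvD⟩ (by
    rintro w hw ⟨h2, a, ha, haw⟩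
    exact hD.2.2 w (hC.1 hw) ⟨fun h => h2 ⟨hw, h⟩, a, ha.2, haw⟩)
  rw [← h1]
  exact Set.inter_subset_right

private theorem prtTouch {V : Type} {G : SimpleGraph V} {A C : Set V} (hC : IsComp G A C)
    {p x : V} (hp : p ∈ C) (hx : x ∈ A) (h : G.Adj p x) : x ∈ C := by
  by_contra hc
  exact hC.2.2 x hx ⟨hc, p, hp, h⟩

theorem prt : S_Dom → S_Prt := by
  intro hDom V _ G S n c s l hG hP hc1 hcn hLow
  obtain ⟨C, hC, hCl, x, hxC, hxl⟩ := hLow
  have h0 : ∀ v ∈ Wa S l 1, v ∉ NN G S l c → l v ≤ c := by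
    intro v hv hvN
    by_contra hcon
    obtain ⟨B', hB1, hvB, hB2, hB3⟩ := exists_comp G hv
    have hB : IsComp G (Wa S l 1) B' := ⟨hB1, hB2, hB3⟩
    have hu : ∃ u ∈ B', l u < c := by
      by_contra h
      push Not at h
      exact hvN ⟨B', hB, hvB, h⟩
    obtain ⟨u, hu, hul⟩ := hu
    have hxB : x ∈ B' := hDom V G S n s l B' u v x hG hP hB hu hvB (hC.1 hxC).1 (by omega)
      (by omega)
    have h1 := hCl u (prtSub hB hC hxB hxC hu)
    omega
  refine ⟨h0, ?_, ?_, ?_⟩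
  · refine Set.eq_univ_of_forall fun v => ?_
    by_cases hvS : v ∈ S
    · rw [hP.img] at hvS
      obtain ⟨j, hj, rfl⟩ := hvS
      have hj' : j < n := hj
      by_cases hjc : j < c
      · exact Or.inl (Or.inr (Or.inr ⟨j, hjc, rfl⟩))
      · exact Or.inl (Or.inl (Or.inr ⟨j, ⟨not_lt.1 hjc, hj'⟩, rfl⟩))
    · by_cases hvN : v ∈ NN G S l c
      · exact Or.inl (Or.inl (Or.inl hvN))
      · by_cases hvU : v ∈ UU G S l c
        · exact Or.inr hvU
        · exact Or.inl (Or.inr (Or.inl ⟨hvS, hvN, hvU⟩))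
  · rintro p ⟨D, hD, hpD, hDl⟩ y hy hpy
    have hpS : p ∉ S := (hD.1 hpD).1
    have hpl := hDl p hpD
    rcases hy with ⟨hyS, hyN, hyU⟩ | ⟨j, hj, rfl⟩
    · by_cases hyl : l y = 0
      · exact hyU ⟨hyS, hyl, p, ⟨D, hD, hpD, hDl⟩, hpy.symm⟩
      · exact hyN ⟨D, hD, prtTouch hD hpD ⟨hyS, by omega⟩ hpy, hDl⟩
    · have hj' : j < c := hj
      have h1 := (hP.adj p hpS j (by omega)).1 hpy
      omega
  · rintro _ ⟨j, ⟨hj1, hj2⟩, rfl⟩ y hy
    have key : ∀ z, z ∉ S → z ∉ NN G S l c → G.Adj (s j) z := by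
      intro z hzS hzN
      refine ((hP.adj z hzS j hj2).2 ?_).symm
      by_cases hzl : l z = 0
      · omega
      · have := h0 z ⟨hzS, by omega⟩ hzN
        omega
    rcases hy with (⟨hyS, hyN, _⟩ | ⟨i, hi, rfl⟩) | ⟨hyS, hyl, _⟩
    · exact key y hyS hyN
    · have hi' : i < c := hi
      have hi2 : i < n := by omega
      refine hP.clq _ ?_ _ ?_ ?_
      · rw [hP.img]
        exact ⟨j, hj2, rfl⟩
      · rw [hP.img]
        exact ⟨i, hi2, rfl⟩
      · intro h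
        have h1 : j = i := hP.inj hj2 hi2 h
        omega
    · exact ((hP.adj y hyS j hj2).2 (by omega)).symm

end Pool.Agent.MPd439b2.H1P
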