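import Pool.Agent.Lib.MP_d439b2_co.H1P.Spec

/-!
# MP_d439b2_co, H1P: no large linked pure chain, assembly (helper18)
-/

set_option autoImplicit false

namespace Pool.Agent.MPd439b2.H1P

open Pool.Agent.MPd439b2 Pool.Agent.MPd439b2.LK

namespace PureAux

/-- subsets of linked sets are linked -/
theorem lnk_mono {V : Type} [Finite V] {G : SimpleGraph V} {q : ℕ} {S S' : Set V} (h : Lnk G q S)
    (hS : S' ⊆ S) : Lnk G q S' := fun X =>
  (min_le_min (Set.ncard_le_ncard (Set.inter_subset_inter_left X hS) (Set.toFinite _))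
    (Set.ncard_le_ncard (Set.sdiff_subset_sdiff_left hS) (Set.toFinite _))).trans (h X)

/-- the number of the levels does not change -/
theorem ncard_eq {V : Type} {l l' : V → ℕ} {C : Set V} {d : ℕ} (h : ∀ v ∈ C, l' v + d = l v) :
    (l' '' C).ncard = (l '' C).ncard := by
  have h1 : l '' C = (fun x => x + d) '' (l' '' C) := by
    rw [Set.image_image]
    exact Set.image_congr fun v hv => (h v hv).symm
  rw [h1, Set.ncard_image_of_injective _ (add_left_injective d)]

end PureAux

/-- **Pure.** No large linked pure chain. -/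
theorem pure : S_StA → S_Reb → S_StB → S_Pure := by
  intro hA hR hB q
  obtain ⟨κ, R, hκ, hA⟩ := hA q
  obtain ⟨N', hB⟩ := hB q R
  refine ⟨N' + κ + 1, fun V _ G S n s l hG hP hL => ?_⟩
  by_contra hn
  rw [not_lt] at hn
  have hκn : κ < n := by omega
  obtain ⟨S', s', l', hS', hP', hW, hl⟩ := hR V G S n κ s l hP hκ hκn
  have h1 := hB V G S' (n + 1 - κ) s' l' hG hP' (PureAux.lnk_mono hL hS') fun C hC => by
    rw [hW] at hC
    have hCW : ∀ v ∈ C, l' v + (κ - 1) = l v := fun v hv => hl v (by rw [hW]; exact hC.1 hv)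
    rw [PureAux.ncard_eq hCW]
    exact hA V G S n s l hG hP hL hκn C hC
  omega

end Pool.Agent.MPd439b2.H1P
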