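import Pool.Agent.Lib.MP_d439b2_co.H1P.Spec

/-!
# MP_d439b2_co, pair `(C_4, K3:0,1,02)`: forget the first elements of a chain (`S_Reb`)
-/

set_option autoImplicit false

namespace Pool.Agent.MPd439b2.H1P

open Pool.Agent.MPd439b2 Pool.Agent.MPd439b2.LK

/-- **Reb.** -/
theorem reb : S_Reb := by
  classical
  intro V _ G S n κ s l hPC hκ hκn
  have hS' : (fun j => s (j + (κ - 1))) '' Set.Iio (n + 1 - κ) ⊆ S := by
    rintro _ ⟨j, hj, rfl⟩
    rw [hPC.img]
    refine ⟨j + (κ - 1), ?_, rfl⟩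
    rw [Set.mem_Iio] at hj ⊢
    omega
  have hl' : ∀ v, v ∉ S → (if v ∈ S then 0 else l v - (κ - 1)) = l v - (κ - 1) :=
    fun v hv => if_neg hv
  have hl0 : ∀ v, v ∈ S → (if v ∈ S then 0 else l v - (κ - 1)) = 0 := fun v hv => if_pos hv
  have hW : ∀ v, v ∈ Wa ((fun j => s (j + (κ - 1))) '' Set.Iio (n + 1 - κ))
      (fun v => if v ∈ S then 0 else l v - (κ - 1)) 1 ↔ v ∈ Wa S l κ := by
    intro v
    constructor
    · rintro ⟨h1, h2⟩
      have hv : v ∉ S := by
        intro h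
        change 1 ≤ (if v ∈ S then 0 else l v - (κ - 1)) at h2
        rw [hl0 v h] at h2
        omega
      change 1 ≤ (if v ∈ S then 0 else l v - (κ - 1)) at h2
      rw [hl' v hv] at h2
      exact ⟨hv, by omega⟩
    · rintro ⟨h1, h2⟩
      refine ⟨fun h => h1 (hS' h), ?_⟩
      change 1 ≤ (if v ∈ S then 0 else l v - (κ - 1))
      rw [hl' v h1]
      omega
  refine ⟨(fun j => s (j + (κ - 1))) '' Set.Iio (n + 1 - κ), fun j => s (j + (κ - 1)),
    fun v => if v ∈ S then 0 else l v - (κ - 1), hS', ⟨?_, rfl, ?_, ?_, ?_, ?_⟩, Set.ext hW, ?_⟩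
  · intro i hi j hj hij
    rw [Set.mem_Iio] at hi hj
    have h1 := hPC.inj (show i + (κ - 1) ∈ Set.Iio n from by rw [Set.mem_Iio]; omega)
      (show j + (κ - 1) ∈ Set.Iio n from by rw [Set.mem_Iio]; omega) hij
    omega
  · intro u hu v hv huv
    exact hPC.clq u (hS' hu) v (hS' hv) huv
  · intro v _
    by_cases h : v ∈ S
    · rw [hl0 v h]
      omega
    · rw [hl' v h]
      have := hPC.le v h
      omega
  · intro v hv j hj
    by_cases h : v ∈ S
    · rw [hl0 v h]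
      refine iff_of_true (hPC.clq v h _ (hS' ⟨j, hj, rfl⟩) ?_) (Nat.zero_le j)
      intro hvs
      exact hv ⟨j, hj, hvs.symm⟩
    · rw [hl' v h, hPC.adj v h (j + (κ - 1)) (by omega)]
      omega
  · intro a ha1 ha
    obtain ⟨v, hv, hva⟩ := hPC.full (a + (κ - 1)) (by omega) (by omega)
    refine ⟨v, fun h => hv (hS' h), ?_⟩
    rw [hl' v hv, hva]
    omega
  · intro v hv
    obtain ⟨h1, h2⟩ := (hW v).1 hv
    change (if v ∈ S then 0 else l v - (κ - 1)) + (κ - 1) = l v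
    rw [hl' v h1]
    omega

end Pool.Agent.MPd439b2.H1P
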