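import Pool.Agent.Lib.MP_d439b2_co.H1P.Spec

/-!
# MP_d439b2_co, pair `(C_4, K3:0,1,02)`, RedM: reduction to type (M)
-/

set_option autoImplicit false

namespace Pool.Agent.MPd439b2.H1P

open Pool.Agent.MPd439b2 Pool.Agent.MPd439b2.LK

namespace redMAux

theorem lnk_mono {V : Type} [Finite V] {G : SimpleGraph V} {q : ℕ} {S S' : Set V}
    (h : Lnk G q S) (hs : S' ⊆ S) : Lnk G q S' := by
  intro X
  refine le_trans (min_le_min ?_ ?_) (h X)
  · exact Set.ncard_le_ncard (Set.inter_subset_inter_left _ hs) (Set.toFinite _)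
  · exact Set.ncard_le_ncard (fun v hv => ⟨hs hv.1, hv.2⟩) (Set.toFinite _)

theorem tyM_mono {V : Type} {G : SimpleGraph V} {S S' : Set V} (hC : CompleteOn G S)
    (h : TyM G S) (hs : S' ⊆ S) : TyM G S' := by
  intro v hv
  by_cases hvS : v ∈ S
  · left
    ext a
    constructor
    · rintro ⟨ha, hn⟩
      exact absurd (hC v hvS a (hs ha) fun e => hv (e ▸ ha)) hn
    · intro h
      exact absurd h (Set.notMem_empty a)
  · have key : ∀ a, a ∈ Ms G S' v ↔ a ∈ S' ∧ a ∈ Ms G S v := by
      intro a
      constructor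
      · rintro ⟨ha, hn⟩
        exact ⟨ha, hs ha, hn⟩
      · rintro ⟨ha, _, hn⟩
        exact ⟨ha, hn⟩
    rcases h v hvS with h | h | ⟨a, _, h⟩
    · left
      ext b
      rw [key, h]
      simp
    · right
      left
      ext b
      rw [key, h]
      exact ⟨fun h => h.1, fun hb => ⟨hb, hs hb⟩⟩
    · by_cases ha : a ∈ S'
      · right
        right
        refine ⟨a, ha, ?_⟩
        ext b
        rw [key, h]
        constructor
        · exact fun h => h.2
        · intro hb
          have hb' : b = a := hb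
          subst hb'
          exact ⟨ha, rfl⟩
      · left
        ext b
        rw [key, h]
        constructor
        · rintro ⟨hb, hb'⟩
          have hb'' : b = a := hb'
          subst hb''
          exact absurd hb ha
        · intro hb
          exact absurd hb (Set.notMem_empty b)

end redMAux

open redMAux

theorem redM : S_Pure → S_Full → S_Red → S_RedM := by
  intro hP hF hR q m
  obtain ⟨N₁, hN₁⟩ := hP q
  obtain ⟨N₂, hN₂⟩ := hF q N₁
  obtain ⟨N, hN⟩ := hR q (max m N₂)
  refine ⟨N, fun V _ G S hCl hC hL hS => ?_⟩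
  obtain ⟨S', hS', hcard, hty⟩ := hN V G S hCl hC hL hS
  have hC' : CompleteOn G S' := fun u hu v hv huv => hC u (hS' hu) v (hS' hv) huv
  have hL' : Lnk G q S' := lnk_mono hL hS'
  rcases hty with hty | ⟨s, hty⟩
  · obtain ⟨T, hT, hTc⟩ := Set.exists_subset_card_eq (s := S') (n := m) (by
      rw [hcard]
      exact le_max_left _ _)
    exact ⟨T, hT.trans hS', hTc, tyM_mono hC' hty hT⟩
  · exfalso
    obtain ⟨S'', hS'', s', l', hpc⟩ := hN₂ V G S' (max m N₂) s hC' hL' hty (le_max_right _ _)
    exact absurd (hN₁ V G S'' N₁ s' l' hCl hpc (lnk_mono hL' hS'')) (lt_irrefl _)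

end Pool.Agent.MPd439b2.H1P
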