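import Pool.Agent.Lib.MP_d439b2_co.H1P.Spec

/-!
# MP_d439b2_co, H1P: Claim A
-/

set_option autoImplicit false

namespace Pool.Agent.MPd439b2.H1P

open Pool.Agent.MPd439b2 Pool.Agent.MPd439b2.LK

theorem stA : S_L2 → S_L5 → S_AD → S_AM → S_ClqA → S_CutA → S_Red → S_StA := by
  intro hL2 hL5 hAD hAM hClq hCut hRed q
  obtain ⟨m, hm⟩ := hRed (q + 1) 8
  refine ⟨q * (3 * m + 2) + 1, q * (3 * m + 2) + 1 + m, Nat.le_add_left _ _, ?_⟩
  intro V _ G S n s l hCl hPC hLnk hκn E hE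
  have hκn' : q * (3 * m + 2) + 1 ≤ n := hκn.le
  by_contra hR
  push Not at hR
  have hclqE := hClq V G S n _ s l E hCl.1 hPC (Nat.le_add_left _ _) hκn' hE
  have hES : ∀ e ∈ E, e ∉ S := fun e he => (hE.1 he).1
  have hEκ : ∀ e ∈ E, q * (3 * m + 2) + 1 ≤ l e := fun e he => (hE.1 he).2
  have hsS : ∀ j, j < n → s j ∈ S := by
    intro j hj
    rw [hPC.img]
    exact ⟨j, hj, rfl⟩
  have hS₀ : s '' Set.Iio (q * (3 * m + 2) + 1) ⊆ S := by
    rintro x ⟨j, hj, rfl⟩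
    exact hsS j (lt_of_lt_of_le hj hκn')
  have hcover : E ∪ ∅ ∪ (E ∪ nb G E)ᶜ ∪ nb G E = Set.univ := by
    ext x
    constructor
    · intro _
      trivial
    · intro _
      by_cases h1 : x ∈ E
      · exact Or.inl (Or.inl (Or.inl h1))
      · by_cases h2 : x ∈ nb G E
        · exact Or.inr h2
        · exact Or.inl (Or.inr fun h => h.elim h1 h2)
  have hno : ∀ p ∈ E, ∀ x ∈ (E ∪ nb G E)ᶜ, ¬ G.Adj p x := by
    intro p hp x hx hadj
    exact hx (Or.inr ⟨fun h => hx (Or.inl h), p, hp, hadj⟩)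
  rcases hL5 V G (s '' Set.Iio (q * (3 * m + 2) + 1)) E ∅ (E ∪ nb G E)ᶜ (nb G E) m hcover hno
    (fun b hb => absurd hb (Set.notMem_empty b)) hclqE with
    ⟨J, hJ, hJm, hInd, hDP, hDQ⟩ | ⟨X₀, A₁, hX₀, hA₁, htr, hcr, -⟩
  · -- rainbow set
    have hLS₀ : Lnk G q (s '' Set.Iio (q * (3 * m + 2) + 1)) := by
      intro X
      refine le_trans ?_ (hLnk X)
      exact min_le_min (Set.ncard_le_ncard (Set.inter_subset_inter_left _ hS₀) (Set.toFinite _))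
        (Set.ncard_le_ncard (Set.sdiff_subset_sdiff_left hS₀) (Set.toFinite _))
    have hdis : Disjoint (s '' Set.Iio (q * (3 * m + 2) + 1)) J := by
      rw [Set.disjoint_left]
      rintro x ⟨j, hj, rfl⟩ hx
      have hj' : j < q * (3 * m + 2) + 1 := hj
      obtain ⟨-, e, he, hadj⟩ := hJ hx
      have h3 := (hPC.adj e (hES e he) j (lt_of_lt_of_le hj' hκn')).mp hadj
      have h4 := hEκ e he
      omega
    have hLJ := hL2 V G _ J q hdis hLS₀ hInd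
    have hcJ : CompleteOn G J := fun a ha b hb hab => hclqE a (hJ ha) b (hJ hb) hab
    obtain ⟨J', hJ', hJ'8, hty⟩ := hm V G J hCl hcJ hLJ hJm.ge
    have hcJ' : CompleteOn G J' := fun a ha b hb hab => hcJ a (hJ' ha) b (hJ' hb) hab
    have hDP' : Dst G E J' := fun a ha b hb hab => hDP a (hJ' ha) b (hJ' hb) hab
    have hDQ' : Dst G (E ∪ nb G E)ᶜ J' := fun a ha b hb hab => hDQ a (hJ' ha) b (hJ' hb) hab
    rcases hty with hM | ⟨s', hs'⟩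
    · exact hAM V G E J' hCl hE.2.1 hcJ' (hJ'.trans hJ) (by omega) hDP' hDQ' hM
    · exact hAD V G E J' 8 s' hCl hE.2.1 hcJ' (hJ'.trans hJ) hDP' hDQ' (by omega) hs'
  · obtain ⟨h1, h2⟩ := hCut V G S n _ m s l E X₀ A₁ hPC hκn' hE hA₁ htr hX₀
    have h3 := hLnk (X₀ ∩ ((E ∪ nb G E)ᶜ ∪ A₁))
    have h4 : q * cr G (X₀ ∩ ((E ∪ nb G E)ᶜ ∪ A₁)) ≤ q * (3 * m + 2) := Nat.mul_le_mul_left _ hcr
    have h5 : q * (3 * m + 2) + 1 ≤ min (S ∩ (X₀ ∩ ((E ∪ nb G E)ᶜ ∪ A₁))).ncard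
        (S \ (X₀ ∩ ((E ∪ nb G E)ᶜ ∪ A₁))).ncard := le_min h1 (by omega)
    omega

end Pool.Agent.MPd439b2.H1P
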