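import Pool.Agent.Lib.MP_d439b2_co.H1P.Spec

/-!
# MP_d439b2_co, H1P: the flat case, assembly
-/

set_option autoImplicit false

namespace Pool.Agent.MPd439b2.H1P

open Pool.Agent.MPd439b2 Pool.Agent.MPd439b2.LK

theorem stB : S_L2 → S_L5 → S_UC → S_Chc → S_Prt → S_Wit → S_BM → S_BP → S_Red → S_StB := by
  intro hL2 hL5 hUC hChc hPrt hWit hBM hBP hRed q R
  obtain ⟨m, hm⟩ := hRed (q + 1) 8
  refine ⟨max (2 * R + 2) (q * (3 * m + 2) + 1) + R + (q * (3 * m + 2) + 1) + 1, ?_⟩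
  intro V _ G S n s l hG hPC hL hR
  by_contra hcon
  generalize hK : q * (3 * m + 2) + 1 = K at hcon
  have hc₁ := le_max_left (2 * R + 2) K
  have hc₂ := le_max_right (2 * R + 2) K
  generalize max (2 * R + 2) K = c₁ at hcon hc₁ hc₂
  obtain ⟨c, hc1, hc2, hLow⟩ := hChc V G S n R c₁ s l hG hPC hR (by omega) (by omega)
  obtain ⟨hP1, hP2, hP3, hP4⟩ := hPrt V G S n c s l hG hPC (by omega) (by omega) hLow
  have hUU := hUC V G S n R c s l hG hPC hR (by omega) (by omega)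
  have hsS : ∀ j < n, s j ∈ S := fun j hj => by
    rw [hPC.img]
    exact ⟨j, hj, rfl⟩
  have hNNW : ∀ v ∈ NN G S l c, v ∉ S ∧ 1 ≤ l v ∧ c ≤ l v := by
    rintro v ⟨C, hC, hv, hCc⟩
    exact ⟨(hC.1 hv).1, (hC.1 hv).2, hCc v hv⟩
  rcases hL5 V G S (NN G S l c) (s '' Set.Ico c n) (QQ G S s l c) (UU G S l c) m hP2 hP3 hP4 hUU with
    ⟨J, hJU, hJm, hJI, hJN, hJQ⟩ | ⟨X₀, A₁, hSX, hA₁, -, -, hcr⟩
  · -- a rainbow set
    have hdisj : Disjoint S J := by
      rw [Set.disjoint_left]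
      intro v hv hvJ
      exact (hJU hvJ).1 hv
    have hLJ := hL2 V G S J q hdisj hL hJI
    obtain ⟨J', hJ'J, hJ'8, hty⟩ := hm V G J hG (fun u hu v hv huv => hUU u (hJU hu) v (hJU hv) huv)
      hLJ hJm.ge
    have hJ'U : J' ⊆ UU G S l c := hJ'J.trans hJU
    have hcl : CompleteOn G J' := fun u hu v hv huv => hUU u (hJ'U hu) v (hJ'U hv) huv
    have hdN : Disjoint J' (NN G S l c) := by
      rw [Set.disjoint_left]
      intro v hv hvN
      have h1 := (hJ'U hv).2.1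
      have h2 := (hNNW v hvN).2.1
      omega
    have hdQ : Disjoint J' {w | w ∈ QQ G S s l c ∧ G.Adj w (s (c - 1))} := by
      rw [Set.disjoint_left]
      rintro v hv ⟨hvQ, -⟩
      rcases hvQ with h | ⟨j, hj, hjv⟩
      · exact h.2.2 (hJ'U hv)
      · have hj' : j < c := hj
        exact (hJ'U hv).1 (by rw [← hjv]; exact hsS j (by omega))
    have ht : ∀ j ∈ J', G.Adj (s (c - 1)) j := by
      intro j hj
      refine ((hPC.adj j (hJ'U hj).1 (c - 1) (by omega)).mpr ?_).symm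
      have := (hJ'U hj).2.1
      omega
    have hNQ : ∀ y ∈ NN G S l c, ∀ w ∈ {w | w ∈ QQ G S s l c ∧ G.Adj w (s (c - 1))},
        ¬ G.Adj y w := fun y hy w hw => hP3 y hy w hw.1
    have hNt : ∀ y ∈ NN G S l c, ¬ G.Adj y (s (c - 1)) := by
      intro y hy h
      have h1 := (hPC.adj y (hNNW y hy).1 (c - 1) (by omega)).mp h
      have h2 := (hNNW y hy).2.2
      omega
    have hQt : ∀ w ∈ {w | w ∈ QQ G S s l c ∧ G.Adj w (s (c - 1))}, G.Adj w (s (c - 1)) :=
      fun w hw => hw.2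
    have hDN : Dst G (NN G S l c) J' := fun a ha b hb hab => hJN a (hJ'J ha) b (hJ'J hb) hab
    have hDQ : Dst G {w | w ∈ QQ G S s l c ∧ G.Adj w (s (c - 1))} J' := by
      intro a ha b hb hab
      obtain ⟨t, ht, htab⟩ := hJQ a (hJ'J ha) b (hJ'J hb) hab
      obtain ⟨w, hw, hw1, hw2⟩ := hWit V G S n c s l a b t hG hPC (by omega) (by omega) hLow
        (hJ'U ha) (hJ'U hb) ht htab
      exact ⟨w, ⟨hw, hw1⟩, hw2⟩
    rcases hty with hM | ⟨s', hP⟩
    · exact hBM V G J' (NN G S l c) _ (s (c - 1)) hG hcl (by omega) hM hdN hdQ ht hNQ hNt hQt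
        hDN hDQ
    · exact hBP V G J' (NN G S l c) _ (s (c - 1)) 8 s' hG hcl (by omega) hP hdN hdQ ht hNQ hNt hQt
        hDN hDQ
  · -- a cut of small rank
    have h1 := hL (X₀ \ (QQ G S s l c ∪ A₁))
    have h2 : (s '' Set.Ico c n).ncard = n - c := by
      rw [Set.InjOn.ncard_image (fun i hi j hj hij => hPC.inj (show i < n from hi.2)
        (show j < n from hj.2) hij)]
      rw [← Finset.coe_Ico, Set.ncard_coe_finset, Nat.card_Ico]
    have h3 : (s '' Set.Iio c).ncard = c := by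
      rw [Set.InjOn.ncard_image (fun i hi j hj hij => hPC.inj
        (show i < n by have : i < c := hi; omega) (show j < n by have : j < c := hj; omega) hij)]
      rw [← Finset.coe_Iio, Set.ncard_coe_finset, Nat.card_Iio]
    have h4 : s '' Set.Ico c n ⊆ S ∩ (X₀ \ (QQ G S s l c ∪ A₁)) := by
      rintro _ ⟨j, hj, rfl⟩
      have hj1 : c ≤ j := hj.1
      have hj2 : j < n := hj.2
      refine ⟨hsS j hj2, hSX (hsS j hj2), ?_⟩
      rintro ((h | ⟨i, hi, hij⟩) | h)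
      · exact h.1 (hsS j hj2)
      · have hi' : i < c := hi
        have := hPC.inj (show i < n by omega) hj2 hij
        omega
      · exact (hA₁ h).1 (hsS j hj2)
    have h5 : s '' Set.Iio c ⊆ S \ (X₀ \ (QQ G S s l c ∪ A₁)) := by
      rintro _ ⟨j, hj, rfl⟩
      have hj1 : j < c := hj
      refine ⟨hsS j (by omega), fun h => h.2 (Or.inl (Or.inr ⟨j, hj, rfl⟩))⟩
    have h6 := Set.ncard_le_ncard h4 (Set.toFinite _)
    have h7 := Set.ncard_le_ncard h5 (Set.toFinite _)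
    have h8 : q * cr G (X₀ \ (QQ G S s l c ∪ A₁)) ≤ q * (3 * m + 2) := Nat.mul_le_mul_left _ hcr
    have h9 : K ≤ min (S ∩ (X₀ \ (QQ G S s l c ∪ A₁))).ncard
        (S \ (X₀ \ (QQ G S s l c ∪ A₁))).ncard := le_min (by omega) (by omega)
    omega

end Pool.Agent.MPd439b2.H1P
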