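import Pool.Agent.Lib.MP_d439b2_co.H1P.Spec

/-!
# MP_d439b2_co, H1P: Twin, twin classes in linked cliques (helper50)
-/

set_option autoImplicit false

namespace Pool.Agent.MPd439b2.H1P

open Pool.Agent.MPd439b2 Pool.Agent.MPd439b2.LK

theorem twin : LK.S_A1 → S_Twin := by
  intro h1 V _ G q S T hS hL hTS hT
  by_contra hcon
  have h2 : q + 1 ≤ T.ncard := by omega
  obtain ⟨X, hXT, hX⟩ := Set.exists_subset_card_eq h2
  have hXne : X.Nonempty := by
    apply Set.nonempty_of_ncard_ne_zero
    omega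
  obtain ⟨t₀, ht₀⟩ := hXne
  have hcr : cr G X ≤ 1 := by
    refine (h1 V G).2.2.2.2.1 X Xᶜ {b | b ∈ S ∨ G.Adj t₀ b} fun a ha => Or.inl fun b hb => ?_
    constructor
    · intro hab
      by_cases hbS : b ∈ S
      · exact Or.inl hbS
      · exact Or.inr ((hT a (hXT ha) t₀ (hXT ht₀) b hbS).1 hab.symm).symm
    · intro hb'
      by_cases hbS : b ∈ S
      · refine hS a (hTS (hXT ha)) b hbS ?_
        rintro rfl
        exact hb ha
      · rcases hb' with h | h
        · exact absurd h hbS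
        · exact ((hT a (hXT ha) t₀ (hXT ht₀) b hbS).2 h.symm).symm
  have h3 := hL X
  have h4 : S ∩ X = X := Set.inter_eq_right.2 (hXT.trans hTS)
  have h5 : (T \ X).ncard ≤ (S \ X).ncard :=
    Set.ncard_le_ncard (Set.sdiff_subset_sdiff_left hTS) (Set.toFinite _)
  have h6 : (T \ X).ncard + X.ncard = T.ncard := Set.ncard_sdiff_add_ncard_of_subset hXT
  have h7 : q * cr G X ≤ q := by
    calc q * cr G X ≤ q * 1 := Nat.mul_le_mul_left q hcr
      _ = q := Nat.mul_one q
  have h8 : q + 1 ≤ min (S ∩ X).ncard (S \ X).ncard := by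
    rw [h4]
    refine le_min (by omega) (by omega)
  omega

end Pool.Agent.MPd439b2.H1P
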