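import Pool.Agent.Lib.MP_d439b2_co.H1P.Spec

set_option autoImplicit false

namespace Pool.Agent.MPd439b2.H1P

open Pool.Agent.MPd439b2 Pool.Agent.MPd439b2.LK

private theorem wit_comp {V : Type} (G : SimpleGraph V) (X C B : Set V) (hC : IsComp G X C)
    (hB : Conn G B) (hBX : B ⊆ X) (v : V) (hvB : v ∈ B) (hvC : v ∈ C) : B ⊆ C := by
  have h : B ∩ C = B := by
    refine Conn.eq_of_nb hB Set.inter_subset_left ⟨v, hvB, hvC⟩ (fun x hx hn => ?_)
    obtain ⟨h1, a, ha, hax⟩ := hn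
    refine hC.2.2 x (hBX hx) ⟨fun h2 => h1 ⟨hx, h2⟩, a, ha.2, hax⟩
  intro x hx
  rw [← h] at hx
  exact hx.2

private theorem wit_one (h1 : S_X1) (h2 : S_X2) (V : Type) [Finite V] (G : SimpleGraph V)
    (S : Set V) (n c : ℕ) (s : ℕ → V) (l : V → ℕ) (u u' t : V) (hG : Cl1 G) (hP : PC G S n s l)
    (hc : 1 ≤ c) (hcn : c < n) (hu : u ∈ UU G S l c) (hu' : u' ∈ UU G S l c) (htS : t ∉ S)
    (htN : t ∉ NN G S l c) (htl : l t = c) (htu : G.Adj t u) (htu' : ¬ G.Adj t u') :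
    ∃ w ∈ QQ G S s l c, G.Adj w (s (c - 1)) ∧ G.Adj w u ∧ ¬ G.Adj w u' := by
  obtain ⟨B, hB1, hB2, hB3, hB4⟩ := exists_comp G (A := Wa S l 1) (v := t) ⟨htS, by omega⟩
  have hB : IsComp G (Wa S l 1) B := ⟨hB1, hB3, hB4⟩
  obtain ⟨d', hd', hd'l⟩ : ∃ d' ∈ B, l d' < c := by
    by_contra hcon
    push Not at hcon
    exact htN ⟨B, hB, hB2, hcon⟩
  obtain ⟨hu'S, hu'0, v, ⟨C, hC, hvC, hCl⟩, hu'v⟩ := hu'
  have hvB : v ∉ B := by
    intro h
    have h3 := wit_comp G _ C B hC hB3 hB1 v h hvC hd'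
    have := hCl d' h3
    omega
  have hnb : ∀ y ∈ B, ¬ G.Adj u' y := by
    intro y hy huy
    obtain ⟨d, hd, hdl, hud⟩ := h2 V G S n c s l B u' y d' hG.1 hP hB hcn.le hu'S hu'0 hy huy hd'
      hd'l
    exact h1 V G S n c s l B u' v t d hG hP hB hcn.le hu'S hu'0 (hC.1 hvC).1 hvB (hCl v hvC) hu'v
      hB2 htl (fun h => htu' h.symm) hd hdl hud
  obtain ⟨d, hd, hdl, hud⟩ := h2 V G S n c s l B u t d' hG.1 hP hB hcn.le hu.1 hu.2.1 hB2
    htu.symm hd' hd'l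
  have hdS : d ∉ S := (hB1 hd).1
  have hd1 : 1 ≤ l d := (hB1 hd).2
  refine ⟨d, Or.inl ⟨hdS, ?_, ?_⟩, ?_, hud.symm, fun h => hnb d hd h.symm⟩
  · rintro ⟨C', -, hdC', hC'l⟩
    have := hC'l d hdC'
    omega
  · intro h
    have := h.2.1
    omega
  · rw [hP.adj d hdS (c - 1) (by omega)]
    omega

theorem wit : S_Prt → S_X1 → S_X2 → S_Wit := by
  intro h0 h1 h2 V _ G S n c s l u u' t hG hP hc hcn hL hu hu' ht hne
  have hadj : ∀ x ∈ UU G S l c, ∀ j < n, G.Adj x (s j) := by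
    intro x hx j hj
    rw [hP.adj x hx.1 j hj, hx.2.1]
    exact Nat.zero_le j
  rcases ht with ⟨htS, htN, htU⟩ | ⟨j, hj, rfl⟩
  · rcases Nat.lt_or_ge (l t) c with hlt | hge
    · refine ⟨t, Or.inl ⟨htS, htN, htU⟩, ?_, hne⟩
      rw [hP.adj t htS (c - 1) (by omega)]
      omega
    · have h3 := (h0 V G S n c s l hG hP hc hcn hL).1 t ⟨htS, by omega⟩ htN
      have htl : l t = c := by omega
      by_cases htu : G.Adj t u
      · have htu' : ¬ G.Adj t u' := fun h => hne (iff_of_true htu h)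
        obtain ⟨w, hw1, hw2, hw3, hw4⟩ := wit_one h1 h2 V G S n c s l u u' t hG hP hc hcn hu hu'
          htS htN htl htu htu'
        exact ⟨w, hw1, hw2, fun h => hw4 (h.1 hw3)⟩
      · have htu' : G.Adj t u' := by
          by_contra h
          exact hne (iff_of_false htu h)
        obtain ⟨w, hw1, hw2, hw3, hw4⟩ := wit_one h1 h2 V G S n c s l u' u t hG hP hc hcn hu' hu
          htS htN htl htu' htu
        exact ⟨w, hw1, hw2, fun h => hw4 (h.2 hw3)⟩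
  · have hjn : j < n := lt_trans hj hcn
    exact absurd (iff_of_true (hadj u hu j hjn).symm (hadj u' hu' j hjn).symm) hne

end Pool.Agent.MPd439b2.H1P
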