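import Pool.Agent.Lib.MP_d439b2_co.H1P.Spec

/-!
# MP_d439b2_co, H1P: rule x1
-/

set_option autoImplicit false

namespace Pool.Agent.MPd439b2.H1P

open Pool.Agent.MPd439b2 Pool.Agent.MPd439b2.LK

theorem x1 : S_Mod → S_X1 := by
  intro hMod V _ G S n c s l B' u v t d hG hPC hB' hcn huS hlu hvS hvB hcv huv htB hlt hut hdB hld hud
  obtain ⟨hBW, hBc, hBnb⟩ := hB'
  have hS : ∀ j, j < n → s j ∈ S := fun j hj => by
    rw [hPC.img]
    exact ⟨j, hj, rfl⟩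
  have hB1 : ∀ b ∈ B', b ∉ S ∧ 1 ≤ l b := fun b hb => hBW hb
  have hc2 : 2 ≤ c := by
    have := (hB1 d hdB).2
    omega
  have hn0 : 0 < n := by omega
  have hcn' : c - 1 < n := by omega
  have hvb : ∀ b ∈ B', ¬ G.Adj b v := fun b hb hbv =>
    hBnb v ⟨hvS, by omega⟩ ⟨hvB, b, hb, hbv⟩
  have hB0 : ∀ b ∈ B', ¬ G.Adj b (s 0) := by
    intro b hb h
    have := (hPC.adj b (hB1 b hb).1 0 hn0).1 h
    have := (hB1 b hb).2
    omega
  have hdt : d ≠ t := by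
    rintro rfl
    omega
  obtain ⟨P, hPB, hdP, hPc, hPnb⟩ := exists_comp G (A := B' \ {t}) (v := d) ⟨hdB, hdt⟩
  have hPB' : ∀ p ∈ P, p ∈ B' := fun p hp => (hPB hp).1
  have htP : t ∉ P := fun h => (hPB h).2 rfl
  obtain ⟨p, hp, a, ⟨haB, haP⟩, hpa⟩ := hBc.2 P hPB' ⟨d, hdP⟩ (fun h => htP (h ▸ htB))
  have hat : a = t := by
    by_contra hne
    exact hPnb a ⟨haB, hne⟩ ⟨haP, p, hp, hpa⟩
  subst hat
  have hus : ∀ j, j < n → G.Adj u (s j) := fun j hj => (hPC.adj u huS j hj).2 (by omega)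
  refine hG.2 (hMod V G P {s 0} u (s (c - 1)) v a hPc (Conn.singleton G (s 0)) ?_ ?_ ?_ ?_ htP ?_ ?_
    ?_ ?_ (hus _ hcn') ⟨d, hdP, hud.symm⟩ ⟨d, hdP, ?_⟩ huv.symm ⟨p, hp, hpa⟩ ⟨s 0, rfl, (hus 0 hn0).symm⟩
    ⟨s 0, rfl, ?_⟩ ?_ ?_ ?_ ?_ ?_ ?_ ?_ ?_)
  · rw [Set.disjoint_singleton_right]
    exact fun h => (hB1 _ (hPB' _ h)).1 (hS 0 hn0)
  · intro h
    have := (hB1 _ (hPB' _ h)).2
    omega
  · exact fun h => (hB1 _ (hPB' _ h)).1 (hS _ hcn')
  · exact fun h => hvB (hPB' _ h)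
  · intro h
    rw [Set.mem_singleton_iff] at h
    exact huS (h ▸ hS 0 hn0)
  · intro h
    rw [Set.mem_singleton_iff] at h
    have := hPC.inj (show c - 1 ∈ Set.Iio n from hcn') (show 0 ∈ Set.Iio n from hn0) h
    omega
  · intro h
    rw [Set.mem_singleton_iff] at h
    exact hvS (h ▸ hS 0 hn0)
  · intro h
    rw [Set.mem_singleton_iff] at h
    exact (hB1 _ htB).1 (h ▸ hS 0 hn0)
  · exact (hPC.adj d (hB1 d hdB).1 _ hcn').2 (by omega)
  · refine hPC.clq _ (hS 0 hn0) _ (hS _ hcn') ?_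
    intro h
    have := hPC.inj (show 0 ∈ Set.Iio n from hn0) (show c - 1 ∈ Set.Iio n from hcn') h
    omega
  · rintro q hq z hz
    rw [Set.mem_singleton_iff] at hz
    rw [hz]
    exact hB0 q (hPB' q hq)
  · intro h
    have := (hPC.adj v hvS _ hcn').1 h
    omega
  · exact fun q hq => hvb q (hPB' q hq)
  · rintro z hz h
    rw [Set.mem_singleton_iff] at hz
    rw [hz] at h
    have := (hPC.adj v hvS 0 hn0).1 h.symm
    omega
  · exact fun h => hvb a htB h.symm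
  · exact fun h => hut h.symm
  · intro h
    have := (hPC.adj a (hB1 a htB).1 _ hcn').1 h
    omega
  · rintro z hz h
    rw [Set.mem_singleton_iff] at hz
    rw [hz] at h
    exact hB0 a htB h.symm

end Pool.Agent.MPd439b2.H1P
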