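import Pool.Agent.Lib.MP_d439b2_co.H1P.Spec

/-!
# MP_d439b2_co, column C_4, row K3:0,1,02: rule x1, second part, by gates (S_X2)
-/

set_option autoImplicit false

namespace Pool.Agent.MPd439b2.H1P

open Pool.Agent.MPd439b2 Pool.Agent.MPd439b2.LK

theorem x2 : S_A7 → S_X2 := by
  intro h7 V _ G S n c s l B' u y d' hG hS hB hcn huS hlu hy huy hd' hld'
  have hc1 : c - 1 < n := by omega
  have hsS : s (c - 1) ∈ S := by
    rw [hS.img]
    exact ⟨c - 1, hc1, rfl⟩
  have hBS : ∀ v ∈ B', v ∉ S := fun v hv => (hB.1 hv).1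
  have huB : u ∉ B' := fun h => by
    have h1 : 1 ≤ l u := (hB.1 h).2
    omega
  have hus : G.Adj u (s (c - 1)) := (hS.adj u huS (c - 1) hc1).2 (by omega)
  have hds : G.Adj d' (s (c - 1)) := (hS.adj d' (hBS d' hd') (c - 1) hc1).2 (by omega)
  obtain ⟨d, hd, h⟩ := h7 V G {u, s (c - 1)} B' hG hB.2.1 (by
    rintro a (rfl | rfl) b (rfl | rfl) hab
    · exact absurd rfl hab
    · exact hus
    · exact hus.symm
    · exact absurd rfl hab) (by
    rw [Set.disjoint_left]
    rintro a (rfl | rfl) ha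
    · exact huB ha
    · exact hBS _ ha hsS) (by
    rintro a (rfl | rfl)
    · exact ⟨huB, y, hy, huy.symm⟩
    · exact ⟨fun ha => hBS _ ha hsS, d', hd', hds⟩)
  have h1 : G.Adj d u := h u (Set.mem_insert _ _)
  have h2 : G.Adj d (s (c - 1)) := h _ (Set.mem_insert_of_mem _ rfl)
  have h3 := (hS.adj d (hBS d hd) (c - 1) hc1).1 h2
  exact ⟨d, hd, by omega, h1.symm⟩

end Pool.Agent.MPd439b2.H1P
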