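import Pool.Agent.Lib.MP_d439b2_co.H1P.Bridge
import Pool.Agent.Lib.MP_d439b2_co.L4.Final
import Pool.Agent.Lib.MP_d439b2_co.H1P.L1
import Pool.Agent.Lib.MP_d439b2_co.H1P.L2
import Pool.Agent.Lib.MP_d439b2_co.H1P.L3
import Pool.Agent.Lib.MP_d439b2_co.H1P.L4
import Pool.Agent.Lib.MP_d439b2_co.H1P.L5
import Pool.Agent.Lib.MP_d439b2_co.H1P.Mod
import Pool.Agent.Lib.MP_d439b2_co.H1P.Md1
import Pool.Agent.Lib.MP_d439b2_co.H1P.D4
import Pool.Agent.Lib.MP_d439b2_co.H1P.Nest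
import Pool.Agent.Lib.MP_d439b2_co.H1P.AP
import Pool.Agent.Lib.MP_d439b2_co.H1P.AD
import Pool.Agent.Lib.MP_d439b2_co.H1P.AM
import Pool.Agent.Lib.MP_d439b2_co.H1P.ClqA
import Pool.Agent.Lib.MP_d439b2_co.H1P.CutA
import Pool.Agent.Lib.MP_d439b2_co.H1P.StA
import Pool.Agent.Lib.MP_d439b2_co.H1P.Reb
import Pool.Agent.Lib.MP_d439b2_co.H1P.Dom
import Pool.Agent.Lib.MP_d439b2_co.H1P.Del
import Pool.Agent.Lib.MP_d439b2_co.H1P.Cn
import Pool.Agent.Lib.MP_d439b2_co.H1P.UC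
import Pool.Agent.Lib.MP_d439b2_co.H1P.Chc
import Pool.Agent.Lib.MP_d439b2_co.H1P.Prt
import Pool.Agent.Lib.MP_d439b2_co.H1P.X2
import Pool.Agent.Lib.MP_d439b2_co.H1P.X1
import Pool.Agent.Lib.MP_d439b2_co.H1P.Wit
import Pool.Agent.Lib.MP_d439b2_co.H1P.BM
import Pool.Agent.Lib.MP_d439b2_co.H1P.BP
import Pool.Agent.Lib.MP_d439b2_co.H1P.StB
import Pool.Agent.Lib.MP_d439b2_co.H1P.Pure
import Pool.Agent.Lib.MP_d439b2_co.H1P.Twin
import Pool.Agent.Lib.MP_d439b2_co.H1P.Full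
import Pool.Agent.Lib.MP_d439b2_co.H1P.RedM
import Pool.Agent.Lib.MP_d439b2_co.H1P.LnkB

/-!
# MP_d439b2_co, pair `(C_4, K3:0,1,02)`: assembly of the pure chain theorem (note 2630)
-/

namespace Pool.Agent.MPd439b2.H1P

open Pool.Agent.MPd439b2 Pool.Agent.MPd439b2.LK

theorem l2F : S_L2 := l2 (a2 a1)

theorem l5F : S_L5 := l5 a1 (l3 (a2 a1)) (l4 a1)

theorem lnkBF : S_LnkB := lnkB cliquesSuffice (l1 (a2 a1))

theorem md1F : S_Md1 := md1 mod

theorem d4F : S_D4 := d4 md1F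

/-- the pure chain theorem -/
theorem pureF (hR : S_Red) : S_Pure := by
  have hA : S_StA := stA l2F l5F (aD (aP mod d4F)) (aM (nest a0 mod)) (clqA a0) cutA hR
  have hW : S_Wit := wit (prt (dom mod)) (x1 mod) (x2 (a7 a0))
  have hB : S_StB := stB l2F l5F (uC (del md1F) (cn a0)) (chc (dom mod)) (prt (dom mod)) hW
    (bM a0 md1F) (bp md1F d4F) hR
  exact pure hA reb hB

theorem redMF (hR : S_Red) : S_RedM := redM (pureF hR) (full (twin a1)) hR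

/-- the statement used by the other parts of the pair -/
theorem noI (hR : H1.S_Reg2) : H1.S_NoI := bridgeNoI (pureF (bridgeRed hR))

end Pool.Agent.MPd439b2.H1P
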