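import Pool.Agent.Lib.MP_d439b2_co.H1P.Spec

/-!
# MP_d439b2_co, H1P: a linked pure chain contains one in which all levels occur
-/

set_option autoImplicit false

namespace Pool.Agent.MPd439b2.H1P

open Pool.Agent.MPd439b2 Pool.Agent.MPd439b2.LK

namespace fullAux

/-- the first `m` elements of a finite set of numbers -/
theorem exists_enum (A : Finset ℕ) (m : ℕ) (hm : m ≤ A.card) :
    ∃ a : ℕ → ℕ, (∀ i < m, a i ∈ A) ∧ ∀ i j, i < j → j < m → a i < a j := by
  refine ⟨fun i => if h : i < A.card then A.orderEmbOfFin rfl ⟨i, h⟩ else 0, ?_, ?_⟩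
  · intro i hi
    have hi' : i < A.card := by omega
    simp only [hi', dif_pos]
    exact Finset.orderEmbOfFin_mem A rfl _
  · intro i j hij hj
    have hi' : i < A.card := by omega
    have hj' : j < A.card := by omega
    simp only [hi', hj', dif_pos]
    exact (A.orderEmbOfFin rfl).strictMono (Fin.mk_lt_mk.mpr hij)

end fullAux

open fullAux in
theorem full : S_Twin → S_Full := by
  classical
  intro hTwin q m
  refine ⟨m * (2 * q + 1) + 1, ?_⟩
  rintro V _ G S n s hS hL ⟨hinj, himg, hlev⟩ hN
  -- levels
  have hch : ∀ v, ∃ a, v ∉ S → a ≤ n ∧ Ms G S v = s '' Set.Iio a := by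
    intro v
    by_cases hv : v ∈ S
    · exact ⟨0, fun h => absurd hv h⟩
    · obtain ⟨a, ha, ha'⟩ := hlev v hv
      exact ⟨a, fun _ => ⟨ha, ha'⟩⟩
  choose l hl using hch
  have hsS : ∀ j < n, s j ∈ S := fun j hj => by
    rw [himg]
    exact ⟨j, hj, rfl⟩
  have hadj : ∀ v, v ∉ S → ∀ j, j < n → (G.Adj v (s j) ↔ l v ≤ j) := by
    intro v hv j hj
    obtain ⟨h1, h2⟩ := hl v hv
    have h3 : s j ∈ Ms G S v ↔ j < l v := by
      rw [h2]
      constructor
      · rintro ⟨i, hi, hij⟩
        have hi' : i < l v := hi
        have : i = j := hinj (show i < n by omega) hj hij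
        omega
      · intro h
        exact ⟨j, h, rfl⟩
    have h4 : s j ∈ Ms G S v ↔ ¬ G.Adj v (s j) := by
      unfold Ms
      constructor
      · intro h
        exact h.2
      · intro h
        exact ⟨hsS j hj, h⟩
    constructor
    · intro h
      by_contra h5
      exact (h4.mp (h3.mpr (by omega))) h
    · intro h
      by_contra h5
      have := h3.mp (h4.mpr h5)
      omega
  set A : Finset ℕ := (Finset.range n).filter fun a => 1 ≤ a ∧ ∃ v, v ∉ S ∧ l v = a with hA
  have hmemA : ∀ a, a ∈ A ↔ a < n ∧ 1 ≤ a ∧ ∃ v, v ∉ S ∧ l v = a := by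
    intro a
    rw [hA, Finset.mem_filter, Finset.mem_range]
  -- the pigeonhole argument
  have hmA : m ≤ A.card := by
    by_contra hcon
    set f : ℕ → ℕ := fun j => (A.filter fun a => a ≤ j).card with hf
    obtain ⟨r, -, hr⟩ := Finset.exists_lt_card_fiber_of_mul_lt_card_of_maps_to
      (s := Finset.range n) (t := Finset.range (A.card + 1)) (f := f) (n := 2 * q + 1)
      (fun j _ => by
        rw [Finset.mem_range]
        exact Nat.lt_succ_of_le (Finset.card_filter_le _ _))
      (by
        rw [Finset.card_range, Finset.card_range]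
        have : (A.card + 1) * (2 * q + 1) ≤ m * (2 * q + 1) :=
          Nat.mul_le_mul_right _ (by omega)
        omega)
    set F := (Finset.range n).filter fun j => f j = r with hF
    have hFn : ∀ j ∈ F, j < n ∧ f j = r := fun j hj => by
      rw [hF, Finset.mem_filter, Finset.mem_range] at hj
      exact hj
    have key : ∀ j ∈ F, ∀ j' ∈ F, j ≤ j' → ∀ v, v ∉ S → (G.Adj v (s j) ↔ G.Adj v (s j')) := by
      intro j hj j' hj' hjj v hv
      obtain ⟨h1, h2⟩ := hFn j hj
      obtain ⟨h3, h4⟩ := hFn j' hj'
      rw [hadj v hv j h1, hadj v hv j' h3]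
      refine ⟨fun h => by omega, fun h => ?_⟩
      by_contra h5
      have h6 : l v ∈ A := (hmemA _).mpr ⟨by omega, by omega, v, hv, rfl⟩
      have h7 : f j < f j' := by
        refine Finset.card_lt_card ?_
        rw [Finset.ssubset_iff_of_subset]
        · exact ⟨l v, Finset.mem_filter.mpr ⟨h6, h⟩, fun h8 => by
            have := (Finset.mem_filter.mp h8).2
            omega⟩
        · intro a ha
          obtain ⟨h8, h9⟩ := Finset.mem_filter.mp ha
          exact Finset.mem_filter.mpr ⟨h8, by omega⟩
      omega
    have h1 := hTwin V G q S (s '' (F : Set ℕ)) hS hL (by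
      rintro _ ⟨j, hj, rfl⟩
      exact hsS j (hFn j hj).1) (by
      rintro _ ⟨j, hj, rfl⟩ _ ⟨j', hj', rfl⟩ v hv
      rcases le_total j j' with h | h
      · exact key j hj j' hj' h v hv
      · exact (key j' hj' j hj h v hv).symm)
    have h2 : (s '' (F : Set ℕ)).ncard = F.card := by
      rw [Set.InjOn.ncard_image, Set.ncard_coe_finset]
      intro i hi j hj hij
      exact hinj (hFn i hi).1 (hFn j hj).1 hij
    omega
  obtain ⟨a, ha, hlt⟩ := exists_enum A m hmA
  have haa : ∀ i < m, a i < n ∧ 1 ≤ a i ∧ ∃ v, v ∉ S ∧ l v = a i := fun i hi => (hmemA _).mp (ha i hi)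
  have halt : ∀ i < m, ∀ j < m, (a i < a j ↔ i < j) := by
    intro i hi j hj
    constructor
    · intro h
      by_contra h1
      rcases Nat.lt_or_eq_of_le (Nat.le_of_not_lt h1) with h2 | h2
      · have := hlt j i h2 hi
        omega
      · rw [h2] at h
        exact lt_irrefl _ h
    · intro h
      exact hlt i j h hj
  have hsub : (fun i => s (a i)) '' Set.Iio m ⊆ S := by
    rintro _ ⟨i, hi, rfl⟩
    exact hsS _ (haa i hi).1
  have hcount : ∀ x j, j ≤ m → (∀ i < m, (a i < x ↔ i < j)) →
      ((Finset.range m).filter fun i => a i < x).card = j := by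
    intro x j hj h
    have : ((Finset.range m).filter fun i => a i < x) = Finset.range j := by
      ext i
      rw [Finset.mem_filter, Finset.mem_range, Finset.mem_range]
      constructor
      · rintro ⟨h1, h2⟩
        exact (h i h1).mp h2
      · intro h1
        exact ⟨by omega, (h i (by omega)).mpr h1⟩
    rw [this, Finset.card_range]
  refine ⟨(fun i => s (a i)) '' Set.Iio m, hsub, fun i => s (a i),
    fun v => if v ∈ S then 0 else ((Finset.range m).filter fun i => a i < l v).card, ?_⟩
  refine ⟨?_, rfl, ?_, ?_, ?_, ?_⟩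
  · intro i hi j hj hij
    have h1 : a i = a j := hinj (haa i hi).1 (haa j hj).1 hij
    by_contra h2
    rcases Nat.lt_or_gt_of_ne h2 with h3 | h3
    · have := (halt i hi j hj).mpr h3
      omega
    · have := (halt j hj i hi).mpr h3
      omega
  · intro u hu v hv huv
    exact hS u (hsub hu) v (hsub hv) huv
  · intro v _
    by_cases hv : v ∈ S
    · simp only [hv, if_true]
      exact Nat.zero_le _
    · simp only [hv, if_false]
      exact (Finset.card_filter_le _ _).trans (by rw [Finset.card_range])
  · intro v hvS' j hj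
    by_cases hv : v ∈ S
    · simp only [hv, if_true, Nat.zero_le, iff_true]
      exact hS v hv _ (hsub ⟨j, hj, rfl⟩) (fun h => hvS' (by rw [h]; exact ⟨j, hj, rfl⟩))
    · simp only [hv, if_false]
      rw [hadj v hv (a j) (haa j hj).1]
      constructor
      · intro h
        have h1 : ((Finset.range m).filter fun i => a i < l v) ⊆ Finset.range j := by
          intro i hi
          rw [Finset.mem_filter, Finset.mem_range] at hi
          rw [Finset.mem_range]
          exact (halt i hi.1 j hj).mp (by omega)
        have h2 := Finset.card_le_card h1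
        rwa [Finset.card_range] at h2
      · intro h
        by_contra h1
        have h2 : Finset.range (j + 1) ⊆ ((Finset.range m).filter fun i => a i < l v) := by
          intro i hi
          rw [Finset.mem_range] at hi
          rw [Finset.mem_filter, Finset.mem_range]
          refine ⟨by omega, ?_⟩
          rcases Nat.lt_or_eq_of_le (Nat.le_of_lt_succ hi) with h3 | h3
          · have := hlt i j h3 hj
            omega
          · rw [h3]
            omega
        have h3 := Finset.card_le_card h2
        rw [Finset.card_range] at h3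
        omega
  · intro i hi1 him
    obtain ⟨-, -, v, hv, hvl⟩ := haa i him
    refine ⟨v, fun h => hv (hsub h), ?_⟩
    simp only [hv, if_false]
    rw [hvl]
    exact hcount _ i him.le (fun k hk => halt k hk i him)

end Pool.Agent.MPd439b2.H1P
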