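import Pool.Agent.Lib.MP_d439b2_co.H1P.Spec

/-!
# MP_d439b2_co, H1P, Nest: distinct inside implies nested outside
-/

set_option autoImplicit false

namespace Pool.Agent.MPd439b2.H1P

open Pool.Agent.MPd439b2 Pool.Agent.MPd439b2.LK

/-- **Nest** -/
theorem nest : LK.S_A0 → S_Mod → S_Nest := by
  intro hA hM V _ G E g g' w w' e hC hE hgE hgE' hgg he heg heg' hEg' hwE hEw hwE' hEw' hwg hwg'
    hwg2 hwg2'
  have sS : ∀ u v : V, u ≠ v → Disjoint ({u} : Set V) {v} := fun u v h =>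
    Set.disjoint_singleton.2 h
  have sL : ∀ (u : V) (A : Set V), u ∉ A → Disjoint ({u} : Set V) A := fun u A h =>
    Set.disjoint_singleton_left.2 h
  have tS : ∀ u v : V, G.Adj u v → Tch G {u} {v} := fun u v h => ⟨u, rfl, v, rfl, h⟩
  have ntS : ∀ u v : V, ¬ G.Adj u v → ¬ Tch G {u} {v} := by
    rintro u v h ⟨_, rfl, _, rfl, h'⟩
    exact h h'
  set Y : Set V := {p | p ∈ E ∧ G.Adj p g'} with hY
  have heY : e ∈ E \ Y := ⟨he, fun h => heg' h.2⟩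
  obtain ⟨Z, hZsub, heZ, hZc, hZnb⟩ := exists_comp G heY
  obtain ⟨e', he', heg''⟩ := hEg'
  have hZE : Z ⊆ E := fun v hv => (hZsub hv).1
  have hZg' : ∀ z ∈ Z, ¬ G.Adj z g' := fun z hz h => (hZsub hz).2 ⟨hZE hz, h⟩
  have hZne : Z ≠ E := by
    intro h
    have h1 : e' ∈ Z := by rw [h]; exact he'
    exact hZg' e' h1 heg''
  obtain ⟨z, hz, p, hp, hzp⟩ := hE.2 Z hZE ⟨e, heZ⟩ hZne
  have hpY : G.Adj p g' := by
    by_contra hcon
    exact hZnb p ⟨hp.1, fun h => hcon h.2⟩ ⟨hp.2, z, hz, hzp⟩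
  have ngg : g ≠ g' := G.ne_of_adj hgg
  have nwg' : w ≠ g' := by
    rintro rfl
    exact hEw e' he' heg''
  have nw'g : w' ≠ g := by
    rintro rfl
    exact hEw' e he heg
  have nww : w ≠ w' := by
    rintro rfl
    exact hwg2' hwg
  have nwg : w ≠ g := G.ne_of_adj hwg
  have nw'g' : w' ≠ g' := G.ne_of_adj hwg2
  have ngp : g ≠ p := by
    rintro rfl
    exact hgE hp.1
  have ng'p : g' ≠ p := by
    rintro rfl
    exact hgE' hp.1
  have ngZ : g ∉ Z := fun h => hgE (hZE h)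
  have ng'Z : g' ∉ Z := fun h => hgE' (hZE h)
  have hpg : G.Adj g p := by
    by_contra hcon
    refine hC.1 (hA V G {g} {g'} {p} Z (Conn.singleton G g) (Conn.singleton G g')
      (Conn.singleton G p) hZc (sS _ _ ngg) (sS _ _ ngp) (sL _ _ ngZ) (sS _ _ ng'p) (sL _ _ ng'Z)
      (sL _ _ hp.2) (tS _ _ hgg) (tS _ _ hpY.symm) ⟨p, rfl, z, hz, hzp.symm⟩
      ⟨g, rfl, e, heZ, heg.symm⟩ (ntS _ _ hcon) ?_)
    rintro ⟨_, rfl, v, hv, h⟩
    exact hZg' v hv h.symm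
  have hww : ¬ G.Adj w w' := by
    intro h
    exact hC.1 (hA V G {g} {w} {w'} {g'} (Conn.singleton G g) (Conn.singleton G w)
      (Conn.singleton G w') (Conn.singleton G g') (sS _ _ nwg.symm) (sS _ _ nw'g.symm)
      (sS _ _ ngg) (sS _ _ nww) (sS _ _ nwg') (sS _ _ nw'g') (tS _ _ hwg.symm) (tS _ _ h)
      (tS _ _ hwg2) (tS _ _ hgg) (ntS _ _ fun h => hwg2' h.symm) (ntS _ _ hwg'))
  refine hC.2 (hM V G {g'} Z g p w w' (Conn.singleton G g') hZc (sL _ _ ng'Z) ngg ng'p.symm nwg'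
    nw'g' ngZ hp.2 (fun h => hwE (hZE h)) (fun h => hwE' (hZE h)) hpg ⟨g', rfl, hgg.symm⟩
    ⟨g', rfl, hpY.symm⟩ hwg ⟨g', rfl, hwg2.symm⟩ ⟨e, heZ, heg⟩ ⟨z, hz, hzp⟩ ?_
    (fun h => hEw p hp.1 h.symm) ?_ (fun v hv => hEw v (hZE hv)) hww hwg2'
    (fun h => hEw' p hp.1 h.symm) (fun v hv => hEw' v (hZE hv)))
  · rintro _ rfl v hv h
    exact hZg' v hv h.symm
  · rintro _ rfl h
    exact hwg' h.symm

end Pool.Agent.MPd439b2.H1P
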