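import Pool.Agent.Lib.MP_d439b2_co.H1P.Spec

set_option autoImplicit false

namespace Pool.Agent.MPd439b2.H1P

open Pool.Agent.MPd439b2 Pool.Agent.MPd439b2.LK

private theorem uC_key (hDel : S_Del) (V : Type) [Finite V] (G : SimpleGraph V) (S : Set V)
    (n R c : ℕ) (s : ℕ → V) (l : V → ℕ) (hG : Cl1 G) (hP : PC G S n s l)
    (hR : ∀ C, IsComp G (Wa S l 1) C → (l '' C).ncard ≤ R) (w : ℕ → V)
    (hw : ∀ i, 1 ≤ i → i < c → w i ∉ S ∧ l (w i) = i) (u : V) (hu : u ∈ UU G S l c) :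
    {i | (1 ≤ i ∧ i < c) ∧ ¬ G.Adj u (w i)}.ncard ≤ R := by
  obtain ⟨huS, hu0, v, ⟨C, hC, hvC, hCl⟩, huv⟩ := hu
  have hvW := hC.1 hvC
  have hnv : ∀ i, 1 ≤ i → i < c → ¬ G.Adj v (w i) := by
    intro i h1 h2 h3
    obtain ⟨h4, h5⟩ := hw i h1 h2
    refine hC.2.2 (w i) ⟨h4, by omega⟩ ⟨fun h6 => ?_, v, hvC, h3⟩
    have := hCl _ h6
    omega
  rcases Set.eq_empty_or_nonempty {i | (1 ≤ i ∧ i < c) ∧ ¬ G.Adj u (w i)} with hE | ⟨i₀, hi₀⟩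
  · rw [hE, Set.ncard_empty]
    exact Nat.zero_le _
  · have hadj : ∀ i j, i < j → (1 ≤ i ∧ i < c) ∧ ¬ G.Adj u (w i) →
        (1 ≤ j ∧ j < c) ∧ ¬ G.Adj u (w j) → G.Adj (w i) (w j) := by
      rintro i j hij ⟨⟨hi1, hi2⟩, hi3⟩ ⟨⟨hj1, hj2⟩, hj3⟩
      by_contra hno
      obtain ⟨h4, h5⟩ := hw i hi1 hi2
      obtain ⟨h6, h7⟩ := hw j hj1 hj2
      have h8 := hCl v hvC
      exact hDel V G S n s l u (w j) v (w i) hG hP huS h6 hvW.1 h4 hu0 (by omega) (by omega)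
        (by omega) huv hj3 hi3 (fun h => hnv j hj1 hj2 h.symm) (fun h => hno h.symm)
        (hnv i hi1 hi2)
    obtain ⟨⟨h1, h2⟩, h3⟩ := hi₀
    obtain ⟨h4, h5⟩ := hw i₀ h1 h2
    obtain ⟨C', hC'1, hC'2, hC'3, hC'4⟩ := exists_comp G (A := Wa S l 1) (v := w i₀)
      ⟨h4, by omega⟩
    refine le_trans (Set.ncard_le_ncard ?_ (Set.toFinite _)) (hR C' ⟨hC'1, hC'3, hC'4⟩)
    rintro i ⟨⟨hi1, hi2⟩, hi3⟩
    obtain ⟨h6, h7⟩ := hw i hi1 hi2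
    refine ⟨w i, ?_, h7⟩
    by_cases hii : i = i₀
    · rw [hii]
      exact hC'2
    · by_contra hno
      refine hC'4 (w i) ⟨h6, by omega⟩ ⟨hno, w i₀, hC'2, ?_⟩
      rcases Nat.lt_or_ge i i₀ with h | h
      · exact (hadj i i₀ h ⟨⟨hi1, hi2⟩, hi3⟩ ⟨⟨h1, h2⟩, h3⟩).symm
      · exact hadj i₀ i (by omega) ⟨⟨h1, h2⟩, h3⟩ ⟨⟨hi1, hi2⟩, hi3⟩

theorem uC : S_Del → S_Cn → S_UC := by
  intro hDel hCn V _ G S n R c s l hG hP hR hc hcn u hu u' hu' huu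
  by_contra hno
  have hex : ∀ i, ∃ v, 1 ≤ i → i < c → v ∉ S ∧ l v = i := by
    intro i
    by_cases hi : 1 ≤ i ∧ i < c
    · obtain ⟨v, hv⟩ := hP.full i hi.1 (by omega)
      exact ⟨v, fun _ _ => hv⟩
    · exact ⟨u, fun h1 h2 => absurd ⟨h1, h2⟩ hi⟩
  choose w hw using hex
  have k1 := uC_key hDel V G S n R c s l hG hP hR w hw u hu
  have k2 := uC_key hDel V G S n R c s l hG hP hR w hw u' hu'
  have hsub : Set.Ico 1 c ⊆ {i | (1 ≤ i ∧ i < c) ∧ ¬ G.Adj u (w i)} ∪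
      {i | (1 ≤ i ∧ i < c) ∧ ¬ G.Adj u' (w i)} := by
    intro i hi
    obtain ⟨h4, h5⟩ := hw i hi.1 hi.2
    by_cases h1 : G.Adj u (w i)
    · right
      refine ⟨hi, fun h2 => ?_⟩
      exact hCn V G S n s l u u' (w i) hG.1 hP hu.1 hu'.1 h4 hu.2.1 hu'.2.1
        (by rw [h5]; exact hi.1) huu hno h1 h2
    · left
      exact ⟨hi, h1⟩
  have hf1 : {i | (1 ≤ i ∧ i < c) ∧ ¬ G.Adj u (w i)}.Finite :=
    (Set.finite_Ico 1 c).subset (fun i hi => hi.1)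
  have hf2 : {i | (1 ≤ i ∧ i < c) ∧ ¬ G.Adj u' (w i)}.Finite :=
    (Set.finite_Ico 1 c).subset (fun i hi => hi.1)
  have h1 := Set.ncard_le_ncard hsub (hf1.union hf2)
  have h2 := Set.ncard_union_le {i | (1 ≤ i ∧ i < c) ∧ ¬ G.Adj u (w i)}
    {i | (1 ≤ i ∧ i < c) ∧ ¬ G.Adj u' (w i)}
  have h3 : (Set.Ico 1 c).ncard = c - 1 := by
    rw [← Finset.coe_Ico, Set.ncard_coe_finset, Nat.card_Ico]
  omega

end Pool.Agent.MPd439b2.H1P
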